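import Pool.Agent.TH686.BA.Defs

/-!
# The natural numbers are a model of `T^i_2`
-/

set_option autoImplicit false

namespace Pool.Agent.TH686.BA

theorem size_two_mul {x : ℕ} (hx : x ≠ 0) : (2 * x).size = x.size + 1 := by
  have h := Nat.size_bit (b := false) (n := x) (by simp [Nat.bit_val]; exact hx)
  simpa [Nat.bit_val] using h

theorem size_two_mul_add_one (x : ℕ) : (2 * x + 1).size = x.size + 1 := by
  have h := Nat.size_bit (b := true) (n := x) (by simp [Nat.bit_val])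
  simpa [Nat.bit_val] using h

theorem size_half {x : ℕ} (hx : x ≠ 0) : x.size = (x / 2).size + 1 := by
  rcases Nat.even_or_odd' x with ⟨k, hk | hk⟩
  · have h1 : x / 2 = k := by omega
    have h2 : k ≠ 0 := by rintro rfl; exact hx (by omega)
    rw [h1, hk, size_two_mul h2]
  · have h1 : x / 2 = k := by omega
    rw [h1, hk, size_two_mul_add_one]

theorem nb4 (x y : ℕ) : (x ≤ y ∧ x ≠ y) ↔ x + 1 ≤ y := by omega
theorem nb5 (x : ℕ) (h : x ≠ 0) : (0 + 1 + 1) * x ≠ 0 := by omega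
theorem nb14 (y : ℕ) : 2 ^ ((0 : ℕ).size * y.size) = 0 + 1 := by simp
theorem nb15 (x : ℕ) (h : x ≠ 0) :
    2 ^ ((0 + 1 : ℕ).size * ((0 + 1 + 1) * x).size) =
        (0 + 1 + 1) * 2 ^ ((0 + 1 : ℕ).size * x.size) ∧
    2 ^ ((0 + 1 : ℕ).size * ((0 + 1 + 1) * x + 1).size) =
        (0 + 1 + 1) * 2 ^ ((0 + 1 : ℕ).size * x.size) := by
  have h1 : (0 + 1 : ℕ).size = 1 := Nat.size_one
  have h2 : ((0 + 1 + 1) * x).size = x.size + 1 := size_two_mul h
  have h3 : ((0 + 1 + 1) * x + 1).size = x.size + 1 := size_two_mul_add_one x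
  rw [h1, h2, h3]
  constructor <;> ring
theorem nb16 (x y : ℕ) : 2 ^ (x.size * y.size) = 2 ^ (y.size * x.size) := by
  rw [Nat.mul_comm]
theorem nb17 (x y z : ℕ) (h : x.size = y.size) :
    2 ^ (x.size * z.size) = 2 ^ (y.size * z.size) := by rw [h]
theorem nb18 (x y u v : ℕ) (h : x.size = u.size + v.size) :
    2 ^ (x.size * y.size) = 2 ^ (u.size * y.size) * 2 ^ (v.size * y.size) := by
  rw [h, Nat.add_mul, Nat.pow_add]
theorem nb20 (x y : ℕ) (h : x ≤ y ∧ x ≠ y) :
    (0 + 1 + 1) * x + 1 ≤ (0 + 1 + 1) * y ∧ (0 + 1 + 1) * x + 1 ≠ (0 + 1 + 1) * y := by omega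
theorem nb30 (x y z : ℕ) (h : 0 + 1 ≤ x) : x * y ≤ x * z ↔ y ≤ z :=
  Nat.mul_le_mul_left_iff (by omega : 0 < x)
theorem nb32 (x y : ℕ) : x = y / 2 ↔ ((0 + 1 + 1) * x = y ∨ (0 + 1 + 1) * x + 1 = y) := by omega

theorem natStr_basic : natStr.Basic where
  b1 := fun x y h => Nat.le_succ_of_le h
  b2 := fun x => (Nat.succ_ne_self x).symm
  b3 := fun x => Nat.zero_le x
  b4 := nb4
  b5 := nb5
  b6 := fun x y => Nat.le_total y x
  b7 := fun x y h => Nat.le_antisymm h.1 h.2
  b8 := fun x y z h => Nat.le_trans h.1 h.2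
  b9 := Nat.size_zero
  b10 := fun x h => ⟨size_two_mul h, size_two_mul_add_one x⟩
  b11 := Nat.size_one
  b12 := fun x y h => Nat.size_le_size h
  b13 := fun x y => Nat.size_pow
  b14 := nb14
  b15 := nb15
  b16 := nb16
  b17 := nb17
  b18 := nb18
  b19 := fun x y => Nat.le_add_right x y
  b20 := nb20
  b21 := fun x y => Nat.add_comm x y
  b22 := fun x => Nat.add_zero x
  b23 := fun x y => rfl
  b24 := fun x y z => Nat.add_assoc x y z
  b25 := fun x y z => Nat.add_le_add_iff_left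
  b26 := fun x => Nat.mul_zero x
  b27 := fun x y => Nat.mul_succ x y
  b28 := fun x y => Nat.mul_comm x y
  b29 := fun x y z => Nat.mul_add x y z
  b30 := nb30
  b31 := fun x h => size_half h
  b32 := nb32

theorem natStr_isModelT (i : ℕ) : natStr.IsModelT i where
  basic := natStr_basic
  ind := fun n φ _ v h0 hs x => by
    induction x using Nat.rec with
    | zero => exact h0
    | succ x ih => exact hs x ih

end Pool.Agent.TH686.BA
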