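import Pool.Agent.TH686.BA.Elim

/-!
# Relations that are definable by `EF` formulas for all large parameters `w`
-/

set_option autoImplicit false

namespace Pool.Agent.TH686.BA

open Pool.Agent.TH686.BA.Mod

namespace Mod

variable {m : Mod}

theorem len_add_one_le (x : m) : len (x + 1) ≤ len x + 1 := by
  rw [← len_double_add]
  refine len_mono ?_
  rw [two_mul, add_assoc]
  exact le_add_self

theorem len_le_self (x : m) : len x ≤ x := by
  have hSD : SD (fun x : m => len x ≤ x) :=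
    ⟨0, Fm.le (.len (.var 0)) (.var 0), Fin.elim0, Lvl.le _ _, fun x => Iff.rfl⟩
  refine hSD.ind ?_ ?_ x
  · rw [len_zero]
  · intro x ih
    exact (len_add_one_le x).trans (add_le_add_left ih 1)

theorem len_add_le (x y : m) : len (x + y) ≤ len x + len y + 1 := by
  have hs : Small (len x + len y + 1) := ((small_len x).add (small_len y)).add_one
  rw [← lt_ex2_iff hs, ex2_add ((small_len x).add (small_len y)) small_one, ex2_one,
    mul_two]
  refine add_lt_add ?_ ?_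
  · rw [lt_ex2_iff ((small_len x).add (small_len y))]
    exact le_self_add
  · rw [lt_ex2_iff ((small_len x).add (small_len y))]
    exact le_add_self

theorem len_mul_le (x y : m) : len (x * y) ≤ len x + len y := by
  rw [← lt_ex2_iff ((small_len x).add (small_len y)), ex2_add (small_len x) (small_len y)]
  have h1 : x < ex2 (len x) := (lt_ex2_iff (small_len x) x).2 le_rfl
  have h2 : y < ex2 (len y) := (lt_ex2_iff (small_len y) y).2 le_rfl
  exact mul_lt_mul'' h1 h2 (Mod.zero_le' _) (Mod.zero_le' _)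

theorem pow_le_pow_right'' {N : m} {a b : ℕ} (h : a ≤ b) : (N + 2) ^ a ≤ (N + 2) ^ b := by
  refine pow_le_pow_right₀ ?_ h
  calc (1 : m) ≤ 2 := one_le_two
    _ ≤ N + 2 := le_add_self

theorem le_len_iff {f : m} (hf : Small f) (y : m) : f ≤ len y ↔ f ≤ 0 ∨ ex2 f ≤ 2 * y := by
  by_cases hf0 : f = 0
  · rw [hf0]
    exact ⟨fun _ => Or.inl le_rfl, fun _ => Mod.zero_le' _⟩
  · have hf1 : 1 ≤ f := by
      have h := (lt_iff_add_one_le _ _).1 (lt_of_le_of_ne (Mod.zero_le' f) (Ne.symm hf0))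
      rwa [zero_add] at h
    obtain ⟨g, hg⟩ := exists_add _ _ hf1
    have hgs : Small g := hf.of_le (by rw [hg]; exact le_add_self)
    have h1 : ex2 f = 2 * ex2 g := by rw [hg, ex2_add small_one hgs, ex2_one]
    have h3 : ex2 g ≤ y ↔ ¬ (len y ≤ g) := by rw [← lt_ex2_iff hgs, not_lt]
    rw [h1, mul_le_iff two_pos', h3]
    constructor
    · intro h
      right
      intro h2
      refine absurd h (not_le.2 ?_)
      rw [hg, add_comm]
      exact (le_iff_lt_add_one _ _).1 h2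
    · rintro (h | h)
      · exact absurd (le_antisymm h (Mod.zero_le' f)) hf0
      · by_contra h2
        push Not at h2
        apply h
        rw [hg, add_comm] at h2
        exact (le_iff_lt_add_one _ _).2 h2

end Mod

/-- the parameter `w` is large -/
def Adq {m : Mod} {n K : ℕ} (c : ℕ) (x : Fin n → m) (e : Fin K → m) (w N : m) : Prop :=
  (∀ i, len (x i) ≤ N) ∧ (∀ i, len (e i) ≤ N) ∧ (N + 2) ^ c ≤ len w

theorem Adq.mono {m : Mod} {n K : ℕ} {c d : ℕ} {x : Fin n → m} {e : Fin K → m} {w N : m}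
    (h : Adq d x e w N) (hcd : c ≤ d) : Adq c x e w N :=
  ⟨h.1, h.2.1, (pow_le_pow_right'' hcd).trans h.2.2⟩

/-- definable for all large `w` -/
def AD {n K : ℕ} (R : ∀ m : Mod, (Fin n → m) → (Fin K → m) → Prop) : Prop :=
  ∃ (φ : EF n K) (c : ℕ), ∀ (m : Mod) (x : Fin n → m) (e : Fin K → m) (w N : m),
    Adq c x e w N → (R m x e ↔ φ.eval w x e)

theorem AD.congr {n K : ℕ} {R S : ∀ m : Mod, (Fin n → m) → (Fin K → m) → Prop} (hR : AD R)
    (h : ∀ m x e, S m x e ↔ R m x e) : AD S := by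
  obtain ⟨φ, c, h1⟩ := hR
  exact ⟨φ, c, fun m x e w N ha => (h m x e).trans (h1 m x e w N ha)⟩

theorem AD.not {n K : ℕ} {R : ∀ m : Mod, (Fin n → m) → (Fin K → m) → Prop} (hR : AD R) :
    AD (fun m x e => ¬ R m x e) := by
  obtain ⟨φ, c, h1⟩ := hR
  refine ⟨.not φ, c, fun m x e w N ha => ?_⟩
  simp only [EF.eval]
  exact not_congr (h1 m x e w N ha)

theorem AD.and {n K : ℕ} {R S : ∀ m : Mod, (Fin n → m) → (Fin K → m) → Prop} (hR : AD R)
    (hS : AD S) : AD (fun m x e => R m x e ∧ S m x e) := by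
  obtain ⟨φ, c, h1⟩ := hR
  obtain ⟨ψ, d, h2⟩ := hS
  refine ⟨.and φ ψ, max c d, fun m x e w N ha => ?_⟩
  simp only [EF.eval]
  exact and_congr (h1 m x e w N (ha.mono (le_max_left _ _)))
    (h2 m x e w N (ha.mono (le_max_right _ _)))

theorem AD.or {n K : ℕ} {R S : ∀ m : Mod, (Fin n → m) → (Fin K → m) → Prop} (hR : AD R)
    (hS : AD S) : AD (fun m x e => R m x e ∨ S m x e) :=
  (hR.not.and hS.not).not.congr (fun m x e => by tauto)

/-- substitution -/
theorem AD.sub {n K n' K' : ℕ} {R : ∀ m : Mod, (Fin n → m) → (Fin K → m) → Prop} (hR : AD R)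
    (σ : Fin n → Lin n' K') (τ : Fin K → Op K') (c0 : ℕ)
    {R' : ∀ m : Mod, (Fin n' → m) → (Fin K' → m) → Prop}
    (h : ∀ (m : Mod) (x : Fin n' → m) (e : Fin K' → m) (w N : m), (∀ i, len (x i) ≤ N) →
      (∀ i, len (e i) ≤ N) →
      (∀ i, len ((σ i).eval x e w) ≤ (N + 2) ^ c0) ∧ (∀ j, len ((τ j).eval e w) ≤ (N + 2) ^ c0) ∧
      (R' m x e ↔ R m (fun i => (σ i).eval x e w) (fun j => (τ j).eval e w))) : AD R' := by
  obtain ⟨φ, c, h1⟩ := hR
  refine ⟨φ.sub σ τ, (c0 + 2) * c, fun m x e w N ha => ?_⟩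
  obtain ⟨h2, h3, h4⟩ := h m x e w N ha.1 ha.2.1
  rw [h4, EF.eval_sub]
  refine h1 m _ _ w ((N + 2) ^ c0) ⟨h2, h3, ?_⟩
  refine le_trans ?_ ha.2.2
  rw [pow_mul]
  refine pow_le_pow_left₀ (Mod.zero_le' _) ?_ c
  rw [pow_add]
  have h5 : (1 : m) ≤ (N + 2) ^ c0 := by
    have := pow_le_pow_right'' (N := N) (Nat.zero_le c0)
    rwa [pow_zero] at this
  have h6 : (2 : m) + 1 ≤ (N + 2) ^ 2 := by
    have h7 : (2 : m) ≤ N + 2 := le_add_self
    have h8 : (2 : m) ^ 2 ≤ (N + 2) ^ 2 := pow_le_pow_left₀ (Mod.zero_le' _) h7 2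
    refine le_trans ?_ h8
    norm_num
  calc (N + 2) ^ c0 + 2 ≤ (N + 2) ^ c0 * 1 + (N + 2) ^ c0 * 2 := by
        rw [mul_one]
        exact (add_le_iff _ _ _).2 (le_mul_of_one_le_left (Mod.zero_le' _) h5)
    _ = (N + 2) ^ c0 * (2 + 1) := by ring
    _ ≤ (N + 2) ^ c0 * (N + 2) ^ 2 := mul_le_mul_of_nonneg_left h6 (Mod.zero_le' _)

/-- `e_j = |x_i|` -/
def isLenEF {n K : ℕ} (i : Fin n) (j : Fin K) : EF n K :=
  .and (.or (.le (.op (.var j)) (.op .zero)) (.le (.op (.pw (.var j))) (.smul 2 (.gen i))))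
    (.le (.add (.gen i) (.num 1)) (.op (.pw (.var j))))

theorem eval_isLenEF {m : Mod} {n K : ℕ} (i : Fin n) (j : Fin K) (x : Fin n → m)
    (e : Fin K → m) (w : m) (h : e j ≤ len w) :
    (isLenEF i j).eval w x e ↔ e j = len (x i) := by
  have hs : Small (e j) := (small_len w).of_le h
  simp only [isLenEF, EF.eval, EF.eval_or, Lin.eval, Op.eval, Lin.eval_num, pw_of_le h,
    Nat.cast_ofNat, Nat.cast_one]
  rw [← le_len_iff hs, ← lt_iff_add_one_le, lt_ex2_iff hs]
  exact ⟨fun h => le_antisymm h.1 h.2, fun h => ⟨h.le, h.ge⟩⟩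

def EF.withLen {n K : ℕ} (i : Fin n) (ψ : EF n (K + 1)) : EF n K := .ex (.and (isLenEF i 0) ψ)

theorem EF.eval_withLen {m : Mod} {n K : ℕ} (i : Fin n) (ψ : EF n (K + 1)) (x : Fin n → m)
    (e : Fin K → m) (w : m) (h : len (x i) ≤ len w) :
    (ψ.withLen i).eval w x e ↔ ψ.eval w x (Fin.cons (α := fun _ => m) (len (x i)) e) := by
  simp only [EF.withLen, EF.eval]
  constructor
  · rintro ⟨f, hf, h1, h2⟩
    rw [eval_isLenEF i 0 x _ w hf, Fin.cons_zero] at h1
    rw [← h1]; exact h2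
  · intro h1
    refine ⟨len (x i), h, ?_, h1⟩
    rw [eval_isLenEF i 0 x _ w (by rw [Fin.cons_zero]; exact h), Fin.cons_zero]

theorem self_le_pow {m : Mod} (N : m) : N ≤ (N + 2) ^ 1 := by
  rw [pow_one]; exact le_self_add

theorem AD.len_le {n K : ℕ} (i : Fin n) (j : Fin K) : AD (fun m (x : Fin n → m) e =>
    len (x i) ≤ e j) := by
  refine ⟨.le (.add (.gen i) (.num 1)) (.op (.pw (.var j))), 1, fun m x e w N ha => ?_⟩
  simp only [EF.eval, Lin.eval, Op.eval, Lin.eval_num, Nat.cast_one]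
  rw [← lt_iff_add_one_le]
  rcases le_total (e j) (len w) with h | h
  · rw [pw_of_le h, lt_ex2_iff ((small_len w).of_le h)]
  · have h1 : Mod.pw w (e j) = ex2 (len w) := by rw [Mod.pw, min_eq_right h]
    rw [h1, lt_ex2_iff (small_len w)]
    have h2 : len (x i) ≤ len w := (ha.1 i).trans ((self_le_pow N).trans ha.2.2)
    exact ⟨fun _ => h2, fun _ => h2.trans h⟩

/-- sharply bounded quantifier -/
theorem AD.sex {n K : ℕ} {R : ∀ m : Mod, (Fin n → m) → (Fin (K + 1) → m) → Prop} (hR : AD R)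
    (i : Fin n) : AD (fun m x e => ∃ f, f ≤ len (x i) ∧
      R m x (Fin.cons (α := fun _ => m) f e)) := by
  obtain ⟨φ, c, h⟩ := hR
  refine ⟨.ex (.and (.or (.le (.op (.var 0)) (.op .zero))
    (.le (.op (.pw (.var 0))) (.smul 2 (.gen i)))) φ), c + 1, fun m x e w N ha => ?_⟩
  simp only [EF.eval, EF.eval_or, Lin.eval, Op.eval, Nat.cast_ofNat, Fin.cons_zero]
  have key : ∀ f, f ≤ len (x i) → Adq c x (Fin.cons (α := fun _ => m) f e) w N := by
    intro f hf
    refine ⟨ha.1, fun j => ?_, (ha.mono (Nat.le_succ c)).2.2⟩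
    refine Fin.cases ?_ (fun j => ?_) j
    · rw [Fin.cons_zero]
      exact (len_le_self f).trans (hf.trans (ha.1 i))
    · rw [Fin.cons_succ]
      exact ha.2.1 j
  have hw : len (x i) ≤ len w :=
    (ha.1 i).trans ((self_le_pow N).trans (ha.mono (Nat.le_add_left 1 c)).2.2)
  constructor
  · rintro ⟨f, hf, h1⟩
    have hfw := hf.trans hw
    refine ⟨f, hfw, ?_, (h m x _ w N (key f hf)).1 h1⟩
    rw [pw_of_le hfw]
    exact (le_len_iff ((small_len w).of_le hfw) _).1 hf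
  · rintro ⟨f, hfw, h1, h2⟩
    rw [pw_of_le hfw] at h1
    have hf := (le_len_iff ((small_len w).of_le hfw) _).2 h1
    exact ⟨f, hf, (h m x _ w N (key f hf)).2 h2⟩

/-- bounded quantifier -/
theorem AD.gex {n K : ℕ} {R : ∀ m : Mod, (Fin (n + 1) → m) → (Fin K → m) → Prop} (hR : AD R)
    (i : Fin n) : AD (fun m x e => ∃ z, z ≤ x i ∧ R m (Fin.cons (α := fun _ => m) z x) e) := by
  obtain ⟨φ, c, h⟩ := hR
  refine ⟨(EF.and (.le (.gen 0) (.gen i.succ)) φ).elim, c, fun m x e w N ha => ?_⟩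
  rw [EF.eval_elim]
  simp only [EF.eval, Lin.eval, Fin.cons_zero, Fin.cons_succ]
  refine exists_congr fun z => and_congr_right fun hz => ?_
  refine h m _ e w N ⟨fun j => ?_, ha.2.1, ha.2.2⟩
  refine Fin.cases ?_ (fun j => ?_) j
  · rw [Fin.cons_zero]
    exact (len_mono hz).trans (ha.1 i)
  · rw [Fin.cons_succ]
    exact ha.1 j

theorem zero_le_pow {m : Mod} (N : m) (c : ℕ) : len (0 : m) ≤ (N + 2) ^ c := by
  rw [len_zero]; exact Mod.zero_le' _

/-- replace the general variable `0` by the length -/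
theorem AD.len {n K : ℕ} {R : ∀ m : Mod, (Fin (n + 1) → m) → (Fin K → m) → Prop} (hR : AD R) :
    AD (fun m (x : Fin (n + 1) → m) e =>
      R m (Fin.cons (α := fun _ => m) (Mod.len (x 0)) (Fin.tail x)) e) := by
  obtain ⟨φ, c, h⟩ := hR
  refine ⟨(φ.sub (n' := n + 1) (K' := K + 1)
    (Fin.cons (α := fun _ => Lin (n + 1) (K + 1)) (.op (.var 0)) (fun i => .gen i.succ))
    (fun j => .var j.succ)).withLen 0, c + 1, fun m x e w N ha => ?_⟩
  have hw : Mod.len (x 0) ≤ Mod.len w :=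
    (ha.1 0).trans ((self_le_pow N).trans (ha.mono (Nat.le_add_left 1 c)).2.2)
  rw [EF.eval_withLen 0 _ x e w hw, EF.eval_sub]
  have e1 : (fun i => ((Fin.cons (α := fun _ => Lin (n + 1) (K + 1)) (.op (.var 0))
      (fun i => .gen i.succ)) i : Lin (n + 1) (K + 1)).eval x
        (Fin.cons (α := fun _ => m) (Mod.len (x 0)) e) w) =
      Fin.cons (α := fun _ => m) (Mod.len (x 0)) (Fin.tail x) := by
    funext i
    refine Fin.cases ?_ (fun i => ?_) i
    · simp only [Fin.cons_zero, Lin.eval, Op.eval]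
    · simp only [Fin.cons_succ, Lin.eval, Fin.tail]
  have e2 : (fun j => ((Op.var (Fin.succ j)) : Op (K + 1)).eval
      (Fin.cons (α := fun _ => m) (Mod.len (x 0)) e) w) = e := by
    funext j
    simp only [Op.eval, Fin.cons_succ]
  rw [e1, e2]
  refine h m _ e w N ⟨fun i => ?_, ha.2.1, (ha.mono (Nat.le_succ c)).2.2⟩
  refine Fin.cases ?_ (fun i => ?_) i
  · rw [Fin.cons_zero]
    exact (len_le_self _).trans (ha.1 0)
  · rw [Fin.cons_succ]
    exact ha.1 i.succ

/-- replace the opaque variable `0` by the length of a general variable -/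
theorem AD.mildLen {n K : ℕ} {R : ∀ m : Mod, (Fin n → m) → (Fin (K + 1) → m) → Prop}
    (hR : AD R) :
    AD (fun m (x : Fin (n + 1) → m) e =>
      R m (Fin.tail x) (Fin.cons (α := fun _ => m) (Mod.len (x 0)) e)) := by
  obtain ⟨φ, c, h⟩ := hR
  refine ⟨(φ.sub (n' := n + 1) (K' := K + 1) (fun i => .gen i.succ) .var).withLen 0, c + 1,
    fun m x e w N ha => ?_⟩
  have hw : Mod.len (x 0) ≤ Mod.len w :=
    (ha.1 0).trans ((self_le_pow N).trans (ha.mono (Nat.le_add_left 1 c)).2.2)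
  rw [EF.eval_withLen 0 _ x e w hw, EF.eval_sub]
  simp only [Lin.eval, Op.eval]
  refine h m _ _ w N ⟨fun i => ha.1 i.succ, fun j => ?_, (ha.mono (Nat.le_succ c)).2.2⟩
  refine Fin.cases ?_ (fun j => ?_) j
  · rw [Fin.cons_zero]
    exact (len_le_self _).trans (ha.1 0)
  · rw [Fin.cons_succ]
    exact ha.2.1 j

theorem smash_bounds {m : Mod} {x y w N : m} (hx : Mod.len x ≤ N) (hy : Mod.len y ≤ N)
    (hw : (N + 2) ^ 2 ≤ Mod.len w) :
    Mod.pw w (Mod.len x * Mod.len y) = Mod.smash x y ∧ Mod.len (Mod.smash x y) ≤ (N + 2) ^ 2 := by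
  have h1 : Mod.len x * Mod.len y + 1 ≤ (N + 2) ^ 2 := by
    have h2 : Mod.len x * Mod.len y ≤ N * N :=
      mul_le_mul hx hy (Mod.zero_le' _) (Mod.zero_le' _)
    have h3 : (N + 2) ^ 2 = N * N + (1 + (4 * N + 3)) := by ring
    rw [h3, ← add_assoc]
    exact (add_le_add_left h2 1).trans le_self_add
  refine ⟨?_, ?_⟩
  · rw [pw_of_le ((lt_add_one' _).le.trans (h1.trans hw)), smash_eq]
  · rw [len_smash]; exact h1

/-- replace the general variable `0` by `x # y` -/
theorem AD.smash {n K : ℕ} {R : ∀ m : Mod, (Fin (n + 1) → m) → (Fin K → m) → Prop}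
    (hR : AD R) :
    AD (fun m (x : Fin (n + 2) → m) e =>
      R m (Fin.cons (α := fun _ => m) (Mod.smash (x 0) (x 1)) (Fin.tail (Fin.tail x))) e) := by
  obtain ⟨φ, c, h⟩ := hR
  refine ⟨((φ.sub (n' := n + 2) (K' := K + 2)
    (Fin.cons (α := fun _ => Lin (n + 2) (K + 2)) (.op (.pw (.mul (.var 1) (.var 0))))
      (fun i => .gen i.succ.succ))
    (fun j => .var j.succ.succ)).withLen 1).withLen 0, 4 * c + 2, fun m x e w N ha => ?_⟩
  have ha2 : (N + 2) ^ 2 ≤ Mod.len w := (ha.mono (Nat.le_add_left 2 (4 * c))).2.2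
  have hN : N ≤ Mod.len w := (self_le_pow N).trans ((pow_le_pow_right'' (by norm_num)).trans ha2)
  rw [EF.eval_withLen 0 _ x e w ((ha.1 0).trans hN),
    EF.eval_withLen 1 _ x _ w ((ha.1 1).trans hN), EF.eval_sub]
  obtain ⟨hb1, hb2⟩ := smash_bounds (ha.1 0) (ha.1 1) ha2
  have e1 : (fun i => ((Fin.cons (α := fun _ => Lin (n + 2) (K + 2))
      (.op (.pw (.mul (.var 1) (.var 0)))) (fun i => .gen i.succ.succ)) i :
        Lin (n + 2) (K + 2)).eval x (Fin.cons (α := fun _ => m) (Mod.len (x 1))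
          (Fin.cons (α := fun _ => m) (Mod.len (x 0)) e)) w) =
      Fin.cons (α := fun _ => m) (Mod.smash (x 0) (x 1)) (Fin.tail (Fin.tail x)) := by
    funext i
    refine Fin.cases ?_ (fun i => ?_) i
    · rw [Fin.cons_zero, ← hb1]
      rfl
    · simp only [Fin.cons_succ, Lin.eval, Fin.tail]
  have e2 : (fun j => ((Op.var (Fin.succ (Fin.succ j))) : Op (K + 2)).eval
      (Fin.cons (α := fun _ => m) (Mod.len (x 1))
        (Fin.cons (α := fun _ => m) (Mod.len (x 0)) e)) w) = e := by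
    funext j
    simp only [Op.eval, Fin.cons_succ]
  rw [e1, e2]
  have hN2 : N ≤ (N + 2) ^ 2 := (self_le_pow N).trans (pow_le_pow_right'' (by norm_num))
  refine h m _ e w ((N + 2) ^ 2) ⟨fun i => ?_, fun j => (ha.2.1 j).trans hN2, ?_⟩
  · refine Fin.cases ?_ (fun i => ?_) i
    · rw [Fin.cons_zero]; exact hb2
    · rw [Fin.cons_succ]
      exact (ha.1 i.succ.succ).trans hN2
  · refine le_trans ?_ (ha.mono (Nat.le_add_right (4 * c) 2)).2.2
    rw [pow_mul]
    refine pow_le_pow_left₀ (Mod.zero_le' _) ?_ c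
    have h7 : (2 : m) ≤ N + 2 := le_add_self
    have h8 : (1 : m) ≤ (N + 2) ^ 2 := by
      have := pow_le_pow_right'' (N := N) (Nat.zero_le 2)
      rwa [pow_zero] at this
    calc (N + 2) ^ 2 + 2 ≤ (N + 2) ^ 2 * 1 + (N + 2) ^ 2 * 2 := by
          rw [mul_one]
          exact (add_le_iff _ _ _).2 (le_mul_of_one_le_left (Mod.zero_le' _) h8)
      _ = (N + 2) ^ 2 * (2 + 1) := by ring
      _ ≤ (N + 2) ^ 2 * (N + 2) ^ 2 := by
          refine mul_le_mul_of_nonneg_left ?_ (Mod.zero_le' _)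
          have h9 : (2 : m) ^ 2 ≤ (N + 2) ^ 2 := pow_le_pow_left₀ (Mod.zero_le' _) h7 2
          refine le_trans ?_ h9
          norm_num
      _ = (N + 2) ^ 4 := by ring

/-- replace the opaque variable `0` by `x # y` -/
theorem AD.mildSmash {n K : ℕ} {R : ∀ m : Mod, (Fin n → m) → (Fin (K + 1) → m) → Prop}
    (hR : AD R) :
    AD (fun m (x : Fin (n + 2) → m) e =>
      R m (Fin.tail (Fin.tail x)) (Fin.cons (α := fun _ => m) (Mod.smash (x 0) (x 1)) e)) := by
  obtain ⟨φ, c, h⟩ := hR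
  refine ⟨((φ.sub (n' := n + 2) (K' := K + 2) (fun i => .gen i.succ.succ)
    (Fin.cons (α := fun _ => Op (K + 2)) (.pw (.mul (.var 1) (.var 0)))
      (fun j => .var j.succ.succ))).withLen 1).withLen 0, 4 * c + 2, fun m x e w N ha => ?_⟩
  have ha2 : (N + 2) ^ 2 ≤ Mod.len w := (ha.mono (Nat.le_add_left 2 (4 * c))).2.2
  have hN : N ≤ Mod.len w := (self_le_pow N).trans ((pow_le_pow_right'' (by norm_num)).trans ha2)
  rw [EF.eval_withLen 0 _ x e w ((ha.1 0).trans hN),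
    EF.eval_withLen 1 _ x _ w ((ha.1 1).trans hN), EF.eval_sub]
  obtain ⟨hb1, hb2⟩ := smash_bounds (ha.1 0) (ha.1 1) ha2
  have e2 : (fun j => ((Fin.cons (α := fun _ => Op (K + 2)) (.pw (.mul (.var 1) (.var 0)))
      (fun j => .var j.succ.succ)) j : Op (K + 2)).eval
      (Fin.cons (α := fun _ => m) (Mod.len (x 1))
        (Fin.cons (α := fun _ => m) (Mod.len (x 0)) e)) w) =
      Fin.cons (α := fun _ => m) (Mod.smash (x 0) (x 1)) e := by
    funext j
    refine Fin.cases ?_ (fun j => ?_) j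
    · rw [Fin.cons_zero, ← hb1]
      rfl
    · simp only [Fin.cons_succ, Op.eval]
  have e1 : (fun i => (Lin.gen (Fin.succ (Fin.succ i)) : Lin (n + 2) (K + 2)).eval x
      (Fin.cons (α := fun _ => m) (Mod.len (x 1))
        (Fin.cons (α := fun _ => m) (Mod.len (x 0)) e)) w) = Fin.tail (Fin.tail x) := by
    funext i
    simp only [Lin.eval, Fin.tail]
  rw [e1, e2]
  have hN2 : N ≤ (N + 2) ^ 2 := (self_le_pow N).trans (pow_le_pow_right'' (by norm_num))
  refine h m _ _ w ((N + 2) ^ 2) ⟨fun i => (ha.1 i.succ.succ).trans hN2, fun j => ?_, ?_⟩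
  · refine Fin.cases ?_ (fun j => ?_) j
    · rw [Fin.cons_zero]; exact hb2
    · rw [Fin.cons_succ]
      exact (ha.2.1 j).trans hN2
  · refine le_trans ?_ (ha.mono (Nat.le_add_right (4 * c) 2)).2.2
    rw [pow_mul]
    refine pow_le_pow_left₀ (Mod.zero_le' _) ?_ c
    have h7 : (2 : m) ≤ N + 2 := le_add_self
    have h8 : (1 : m) ≤ (N + 2) ^ 2 := by
      have := pow_le_pow_right'' (N := N) (Nat.zero_le 2)
      rwa [pow_zero] at this
    calc (N + 2) ^ 2 + 2 ≤ (N + 2) ^ 2 * 1 + (N + 2) ^ 2 * 2 := by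
          rw [mul_one]
          exact (add_le_iff _ _ _).2 (le_mul_of_one_le_left (Mod.zero_le' _) h8)
      _ = (N + 2) ^ 2 * (2 + 1) := by ring
      _ ≤ (N + 2) ^ 2 * (N + 2) ^ 2 := by
          refine mul_le_mul_of_nonneg_left ?_ (Mod.zero_le' _)
          have h9 : (2 : m) ^ 2 ≤ (N + 2) ^ 2 := pow_le_pow_left₀ (Mod.zero_le' _) h7 2
          refine le_trans ?_ h9
          norm_num
      _ = (N + 2) ^ 4 := by ring

end Pool.Agent.TH686.BA
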