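import Mathlib

/-!
# The language of bounded arithmetic, the theories `T i` and formulas linear in quantified variables

Terms and bounded formulas of the language `0, S, +, ·, ⌊x/2⌋, |x|, #, ≤` (de Bruijn indices),
structures for this language, Buss's 32 axioms `BASIC`, the classes `Σᵇᵢ`, `Πᵇᵢ` of formulas,
and the models of the theories `T^i_2`.
-/

set_option autoImplicit false

namespace Pool.Agent.TH686.BA

/-- Terms of the language of bounded arithmetic with variables `0, ..., n - 1`. -/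
inductive Tm (n : ℕ) : Type
  | var (i : Fin n) : Tm n
  | zero : Tm n
  | succ (t : Tm n) : Tm n
  | add (s t : Tm n) : Tm n
  | mul (s t : Tm n) : Tm n
  | half (t : Tm n) : Tm n
  | len (t : Tm n) : Tm n
  | smash (s t : Tm n) : Tm n

/-- Bounded formulas with free variables `0, ..., n - 1`; in `ex t φ` (some `y ≤ t` satisfies `φ`)
and `all t φ` (every `y ≤ t` satisfies `φ`) the bound variable `y` is the variable `0` of `φ` and
the variable `i` of `t` is the variable `i + 1` of `φ`. -/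
inductive Fm : ℕ → Type
  | eq {n : ℕ} (s t : Tm n) : Fm n
  | le {n : ℕ} (s t : Tm n) : Fm n
  | not {n : ℕ} (φ : Fm n) : Fm n
  | and {n : ℕ} (φ ψ : Fm n) : Fm n
  | or {n : ℕ} (φ ψ : Fm n) : Fm n
  | all {n : ℕ} (t : Tm n) (φ : Fm (n + 1)) : Fm n
  | ex {n : ℕ} (t : Tm n) (φ : Fm (n + 1)) : Fm n

/-- Structures for the language. -/
structure Str where
  carrier : Type
  zero : carrier
  succ : carrier → carrier
  add : carrier → carrier → carrier
  mul : carrier → carrier → carrier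
  half : carrier → carrier
  len : carrier → carrier
  smash : carrier → carrier → carrier
  le : carrier → carrier → Prop

/-- The value of a term. -/
def Tm.eval (M : Str) {n : ℕ} (v : Fin n → M.carrier) : Tm n → M.carrier
  | .var i => v i
  | .zero => M.zero
  | .succ t => M.succ (t.eval M v)
  | .add s t => M.add (s.eval M v) (t.eval M v)
  | .mul s t => M.mul (s.eval M v) (t.eval M v)
  | .half t => M.half (t.eval M v)
  | .len t => M.len (t.eval M v)
  | .smash s t => M.smash (s.eval M v) (t.eval M v)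

/-- Truth of a bounded formula. -/
def Fm.eval (M : Str) : ∀ {n : ℕ}, (Fin n → M.carrier) → Fm n → Prop
  | _, v, .eq s t => s.eval M v = t.eval M v
  | _, v, .le s t => M.le (s.eval M v) (t.eval M v)
  | _, v, .not φ => ¬ φ.eval M v
  | _, v, .and φ ψ => φ.eval M v ∧ ψ.eval M v
  | _, v, .or φ ψ => φ.eval M v ∨ ψ.eval M v
  | _, v, .all t φ => ∀ y, M.le y (t.eval M v) →
      φ.eval M (Fin.cons (α := fun _ => M.carrier) y v)
  | _, v, .ex t φ => ∃ y, M.le y (t.eval M v) ∧
      φ.eval M (Fin.cons (α := fun _ => M.carrier) y v)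

/-- `Lvl true i φ` says that `φ` is a `Σᵇᵢ`-formula and `Lvl false i φ` that it is a `Πᵇᵢ`-formula.
For `i = 0` both mean that all quantifiers are sharply bounded; at level `i + 1` the `Σ` class
contains both classes of level `i` and is closed under conjunction, disjunction, sharply bounded
quantifiers and bounded existential quantifiers; dually for the `Π` class; negation exchanges the
two classes. -/
inductive Lvl : Bool → ℕ → ∀ {n : ℕ}, Fm n → Prop
  | eq {b : Bool} {i n : ℕ} (s t : Tm n) : Lvl b i (Fm.eq s t)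
  | le {b : Bool} {i n : ℕ} (s t : Tm n) : Lvl b i (Fm.le s t)
  | not {b : Bool} {i n : ℕ} {φ : Fm n} : Lvl (!b) i φ → Lvl b i (Fm.not φ)
  | and {b : Bool} {i n : ℕ} {φ ψ : Fm n} : Lvl b i φ → Lvl b i ψ → Lvl b i (Fm.and φ ψ)
  | or {b : Bool} {i n : ℕ} {φ ψ : Fm n} : Lvl b i φ → Lvl b i ψ → Lvl b i (Fm.or φ ψ)
  | sall {b : Bool} {i n : ℕ} (t : Tm n) {φ : Fm (n + 1)} : Lvl b i φ →
      Lvl b i (Fm.all (Tm.len t) φ)
  | sex {b : Bool} {i n : ℕ} (t : Tm n) {φ : Fm (n + 1)} : Lvl b i φ →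
      Lvl b i (Fm.ex (Tm.len t) φ)
  | all {i n : ℕ} (t : Tm n) {φ : Fm (n + 1)} : Lvl false (i + 1) φ →
      Lvl false (i + 1) (Fm.all t φ)
  | ex {i n : ℕ} (t : Tm n) {φ : Fm (n + 1)} : Lvl true (i + 1) φ →
      Lvl true (i + 1) (Fm.ex t φ)
  | up {b c : Bool} {i n : ℕ} {φ : Fm n} : Lvl b i φ → Lvl c (i + 1) φ

/-- Buss's theory `BASIC` (32 axioms); `one` is `S 0` and `two` is `S S 0`. -/
structure Str.Basic (M : Str) : Prop where
  b1 : ∀ x y, M.le y x → M.le y (M.succ x)
  b2 : ∀ x, x ≠ M.succ x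
  b3 : ∀ x, M.le M.zero x
  b4 : ∀ x y, (M.le x y ∧ x ≠ y) ↔ M.le (M.succ x) y
  b5 : ∀ x, x ≠ M.zero → M.mul (M.succ (M.succ M.zero)) x ≠ M.zero
  b6 : ∀ x y, M.le y x ∨ M.le x y
  b7 : ∀ x y, M.le x y ∧ M.le y x → x = y
  b8 : ∀ x y z, M.le x y ∧ M.le y z → M.le x z
  b9 : M.len M.zero = M.zero
  b10 : ∀ x, x ≠ M.zero → M.len (M.mul (M.succ (M.succ M.zero)) x) = M.succ (M.len x) ∧
    M.len (M.succ (M.mul (M.succ (M.succ M.zero)) x)) = M.succ (M.len x)
  b11 : M.len (M.succ M.zero) = M.succ M.zero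
  b12 : ∀ x y, M.le x y → M.le (M.len x) (M.len y)
  b13 : ∀ x y, M.len (M.smash x y) = M.succ (M.mul (M.len x) (M.len y))
  b14 : ∀ y, M.smash M.zero y = M.succ M.zero
  b15 : ∀ x, x ≠ M.zero →
    M.smash (M.succ M.zero) (M.mul (M.succ (M.succ M.zero)) x) =
      M.mul (M.succ (M.succ M.zero)) (M.smash (M.succ M.zero) x) ∧
    M.smash (M.succ M.zero) (M.succ (M.mul (M.succ (M.succ M.zero)) x)) =
      M.mul (M.succ (M.succ M.zero)) (M.smash (M.succ M.zero) x)
  b16 : ∀ x y, M.smash x y = M.smash y x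
  b17 : ∀ x y z, M.len x = M.len y → M.smash x z = M.smash y z
  b18 : ∀ x y u v, M.len x = M.add (M.len u) (M.len v) →
    M.smash x y = M.mul (M.smash u y) (M.smash v y)
  b19 : ∀ x y, M.le x (M.add x y)
  b20 : ∀ x y, M.le x y ∧ x ≠ y →
    M.le (M.succ (M.mul (M.succ (M.succ M.zero)) x)) (M.mul (M.succ (M.succ M.zero)) y) ∧
    M.succ (M.mul (M.succ (M.succ M.zero)) x) ≠ M.mul (M.succ (M.succ M.zero)) y
  b21 : ∀ x y, M.add x y = M.add y x
  b22 : ∀ x, M.add x M.zero = x
  b23 : ∀ x y, M.add x (M.succ y) = M.succ (M.add x y)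
  b24 : ∀ x y z, M.add (M.add x y) z = M.add x (M.add y z)
  b25 : ∀ x y z, M.le (M.add x y) (M.add x z) ↔ M.le y z
  b26 : ∀ x, M.mul x M.zero = M.zero
  b27 : ∀ x y, M.mul x (M.succ y) = M.add (M.mul x y) x
  b28 : ∀ x y, M.mul x y = M.mul y x
  b29 : ∀ x y z, M.mul x (M.add y z) = M.add (M.mul x y) (M.mul x z)
  b30 : ∀ x y z, M.le (M.succ M.zero) x → (M.le (M.mul x y) (M.mul x z) ↔ M.le y z)
  b31 : ∀ x, x ≠ M.zero → M.len x = M.succ (M.len (M.half x))
  b32 : ∀ x y, x = M.half y ↔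
    (M.mul (M.succ (M.succ M.zero)) x = y ∨ M.succ (M.mul (M.succ (M.succ M.zero)) x) = y)

/-- The induction axiom for `φ` (variable `0`; the other variables are parameters) holds. -/
def Str.Ind (M : Str) {n : ℕ} (φ : Fm (n + 1)) : Prop :=
  ∀ v : Fin n → M.carrier, φ.eval M (Fin.cons (α := fun _ => M.carrier) M.zero v) →
    (∀ x, φ.eval M (Fin.cons (α := fun _ => M.carrier) x v) →
      φ.eval M (Fin.cons (α := fun _ => M.carrier) (M.succ x) v)) →
    ∀ x, φ.eval M (Fin.cons (α := fun _ => M.carrier) x v)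

/-- `M` is a model of `T^i_2`: `BASIC` and induction for all `Σᵇᵢ`-formulas. -/
structure Str.IsModelT (M : Str) (i : ℕ) : Prop where
  basic : M.Basic
  ind : ∀ (n : ℕ) (φ : Fm (n + 1)), Lvl true i φ → M.Ind φ

/-- The structure of the natural numbers. -/
def natStr : Str where
  carrier := ℕ
  zero := 0
  succ := fun x => x + 1
  add := fun x y => x + y
  mul := fun x y => x * y
  half := fun x => x / 2
  len := fun x => x.size
  smash := fun x y => 2 ^ (x.size * y.size)
  le := fun x y => x ≤ y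

mutual

/-- `A i` means that the variable `i` is bound by a quantifier that is not sharply bounded. In a
`Mild` term such variables occur only inside `|·|` and `#` (and the arguments of these functions
are `Fit`). -/
def Tm.Mild {n : ℕ} (A : Fin n → Prop) : Tm n → Prop
  | .var i => ¬ A i
  | .zero => True
  | .succ t => t.Mild A
  | .add s t => s.Mild A ∧ t.Mild A
  | .mul s t => s.Mild A ∧ t.Mild A
  | .half t => t.Mild A
  | .len t => t.Fit A
  | .smash s t => s.Fit A ∧ t.Fit A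

/-- In a `Fit` term both arguments of every multiplication are `Mild`. -/
def Tm.Fit {n : ℕ} (A : Fin n → Prop) : Tm n → Prop
  | .var _ => True
  | .zero => True
  | .succ t => t.Fit A
  | .add s t => s.Fit A ∧ t.Fit A
  | .mul s t => s.Mild A ∧ t.Mild A
  | .half t => t.Fit A
  | .len t => t.Fit A
  | .smash s t => s.Fit A ∧ t.Fit A

end

/-- The term has the form `|s|`. -/
def Tm.IsLen {n : ℕ} : Tm n → Prop
  | .len _ => True
  | _ => False

/-- Multiplication is applied in the bounded formula only to terms in which the variables bound by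
quantifiers that are not sharply bounded occur only inside `|·|` and `#`. Here `A i` means that
the free variable `i` is to be treated as such a variable. If `φ.Fit (fun _ => False)` then we say
that `φ` is linear in its quantified variables. -/
def Fm.Fit : ∀ {n : ℕ}, (Fin n → Prop) → Fm n → Prop
  | _, A, .eq s t => s.Fit A ∧ t.Fit A
  | _, A, .le s t => s.Fit A ∧ t.Fit A
  | _, A, .not φ => φ.Fit A
  | _, A, .and φ ψ => φ.Fit A ∧ ψ.Fit A
  | _, A, .or φ ψ => φ.Fit A ∧ ψ.Fit A
  | _, A, .all t φ => t.Fit A ∧ φ.Fit (Fin.cons (α := fun _ => Prop) (¬ t.IsLen) A)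
  | _, A, .ex t φ => t.Fit A ∧ φ.Fit (Fin.cons (α := fun _ => Prop) (¬ t.IsLen) A)

/-- The classes `Σᵇᵢ` (`b = true`) and `Πᵇᵢ` (`b = false`) for `i ≥ 1`, but with all bounded
formulas that are linear in their quantified variables in place of the sharply bounded formulas. -/
inductive LvlL : Bool → ℕ → ∀ {n : ℕ}, Fm n → Prop
  | fit {b : Bool} {i n : ℕ} {φ : Fm n} : φ.Fit (fun _ => False) → LvlL b (i + 1) φ
  | not {b : Bool} {i n : ℕ} {φ : Fm n} : LvlL (!b) i φ → LvlL b i (Fm.not φ)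
  | and {b : Bool} {i n : ℕ} {φ ψ : Fm n} : LvlL b i φ → LvlL b i ψ → LvlL b i (Fm.and φ ψ)
  | or {b : Bool} {i n : ℕ} {φ ψ : Fm n} : LvlL b i φ → LvlL b i ψ → LvlL b i (Fm.or φ ψ)
  | sall {b : Bool} {i n : ℕ} (t : Tm n) {φ : Fm (n + 1)} : LvlL b i φ →
      LvlL b i (Fm.all (Tm.len t) φ)
  | sex {b : Bool} {i n : ℕ} (t : Tm n) {φ : Fm (n + 1)} : LvlL b i φ →
      LvlL b i (Fm.ex (Tm.len t) φ)
  | all {i n : ℕ} (t : Tm n) {φ : Fm (n + 1)} : LvlL false (i + 1) φ →
      LvlL false (i + 1) (Fm.all t φ)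
  | ex {i n : ℕ} (t : Tm n) {φ : Fm (n + 1)} : LvlL true (i + 1) φ →
      LvlL true (i + 1) (Fm.ex t φ)
  | up {b c : Bool} {i n : ℕ} {φ : Fm n} : LvlL b i φ → LvlL c (i + 1) φ

end Pool.Agent.TH686.BA
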