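import Pool.Agent.TH686.BA.Exp

/-!
# Formulas that are linear in their general variables

`EF n K`: formulas with `n` general variables, which occur linearly with constant coefficients, and
`K` opaque variables, which occur arbitrarily; the quantifiers range over elements `≤ |w|` and bind
opaque variables.
-/

set_option autoImplicit false

namespace Pool.Agent.TH686.BA

open Pool.Agent.TH686.BA.Mod

/-- opaque terms -/
inductive Op (K : ℕ) : Type
  | var (i : Fin K) : Op K
  | zero : Op K
  | succ (t : Op K) : Op K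
  | add (s t : Op K) : Op K
  | mul (s t : Op K) : Op K
  | half (t : Op K) : Op K
  | pw (t : Op K) : Op K

noncomputable def Op.eval {m : Mod} {K : ℕ} (e : Fin K → m) (w : m) : Op K → m
  | .var i => e i
  | .zero => 0
  | .succ t => t.eval e w + 1
  | .add s t => s.eval e w + t.eval e w
  | .mul s t => s.eval e w * t.eval e w
  | .half t => Mod.half (t.eval e w)
  | .pw t => Mod.pw w (t.eval e w)

def Op.sub {K L : ℕ} (τ : Fin K → Op L) : Op K → Op L
  | .var i => τ i
  | .zero => .zero
  | .succ t => .succ (t.sub τ)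
  | .add s t => .add (s.sub τ) (t.sub τ)
  | .mul s t => .mul (s.sub τ) (t.sub τ)
  | .half t => .half (t.sub τ)
  | .pw t => .pw (t.sub τ)

theorem Op.eval_sub {m : Mod} {K L : ℕ} (τ : Fin K → Op L) (e : Fin L → m) (w : m) (t : Op K) :
    (t.sub τ).eval e w = t.eval (fun i => (τ i).eval e w) w := by
  induction t with
  | var i => rfl
  | zero => rfl
  | succ t ih => simp only [Op.sub, Op.eval, ih]
  | add s t ih1 ih2 => simp only [Op.sub, Op.eval, ih1, ih2]
  | mul s t ih1 ih2 => simp only [Op.sub, Op.eval, ih1, ih2]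
  | half t ih => simp only [Op.sub, Op.eval, ih]
  | pw t ih => simp only [Op.sub, Op.eval, ih]

def Op.lift {K : ℕ} (t : Op K) : Op (K + 1) := t.sub (fun i => .var i.succ)

theorem Op.eval_lift {m : Mod} {K : ℕ} (t : Op K) (e : Fin K → m) (w f : m) :
    t.lift.eval (Fin.cons (α := fun _ => m) f e) w = t.eval e w := by
  rw [Op.lift, Op.eval_sub]
  simp only [Op.eval, Fin.cons_succ]

def Op.liftSub {K L : ℕ} (τ : Fin K → Op L) : Fin (K + 1) → Op (L + 1) :=
  Fin.cons (α := fun _ => Op (L + 1)) (.var 0) (fun i => (τ i).lift)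

theorem Op.eval_liftSub {m : Mod} {K L : ℕ} (τ : Fin K → Op L) (e : Fin L → m) (w f : m) :
    (fun i => (Op.liftSub τ i).eval (Fin.cons (α := fun _ => m) f e) w) =
      Fin.cons (α := fun _ => m) f (fun i => (τ i).eval e w) := by
  funext i
  refine Fin.cases ?_ (fun i => ?_) i
  · simp only [Op.liftSub, Fin.cons_zero, Op.eval]
  · simp only [Op.liftSub, Fin.cons_succ, Op.eval_lift]

/-- linear forms in `n` general variables, with opaque terms as constants -/
inductive Lin (n K : ℕ) : Type
  | gen (i : Fin n) : Lin n K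
  | op (t : Op K) : Lin n K
  | add (s t : Lin n K) : Lin n K
  | smul (c : ℕ) (t : Lin n K) : Lin n K

noncomputable def Lin.eval {m : Mod} {n K : ℕ} (x : Fin n → m) (e : Fin K → m) (w : m) :
    Lin n K → m
  | .gen i => x i
  | .op t => t.eval e w
  | .add s t => s.eval x e w + t.eval x e w
  | .smul c t => c * t.eval x e w

/-- simultaneous substitution -/
def Lin.sub {n K n' K' : ℕ} (σ : Fin n → Lin n' K') (τ : Fin K → Op K') : Lin n K → Lin n' K'
  | .gen i => σ i
  | .op t => .op (t.sub τ)
  | .add s t => .add (s.sub σ τ) (t.sub σ τ)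
  | .smul c t => .smul c (t.sub σ τ)

theorem Lin.eval_sub {m : Mod} {n K n' K' : ℕ} (σ : Fin n → Lin n' K') (τ : Fin K → Op K')
    (x : Fin n' → m) (e : Fin K' → m) (w : m) (t : Lin n K) :
    (t.sub σ τ).eval x e w =
      t.eval (fun i => (σ i).eval x e w) (fun i => (τ i).eval e w) w := by
  induction t with
  | gen i => rfl
  | op t => simp only [Lin.sub, Lin.eval, Op.eval_sub]
  | add s t ih1 ih2 => simp only [Lin.sub, Lin.eval, ih1, ih2]
  | smul c t ih => simp only [Lin.sub, Lin.eval, ih]

def Lin.liftOp {n K : ℕ} (t : Lin n K) : Lin n (K + 1) := t.sub .gen (fun i => .var i.succ)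

theorem Lin.eval_liftOp {m : Mod} {n K : ℕ} (t : Lin n K) (x : Fin n → m) (e : Fin K → m)
    (w f : m) : t.liftOp.eval x (Fin.cons (α := fun _ => m) f e) w = t.eval x e w := by
  rw [Lin.liftOp, Lin.eval_sub]
  simp only [Lin.eval, Op.eval, Fin.cons_succ]

def Lin.liftGen {n K : ℕ} (t : Lin n K) : Lin (n + 1) K := t.sub (fun i => .gen i.succ) .var

theorem Lin.eval_liftGen {m : Mod} {n K : ℕ} (t : Lin n K) (x : Fin n → m) (e : Fin K → m)
    (w y : m) : t.liftGen.eval (Fin.cons (α := fun _ => m) y x) e w = t.eval x e w := by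
  rw [Lin.liftGen, Lin.eval_sub]
  simp only [Lin.eval, Op.eval, Fin.cons_succ]

def Lin.coef {n K : ℕ} : Lin (n + 1) K → ℕ
  | .gen i => if i = 0 then 1 else 0
  | .op _ => 0
  | .add s t => s.coef + t.coef
  | .smul c t => c * t.coef

def Lin.rest {n K : ℕ} : Lin (n + 1) K → Lin n K
  | .gen i => Fin.cases (motive := fun _ => Lin n K) (.op .zero) .gen i
  | .op t => .op t
  | .add s t => .add s.rest t.rest
  | .smul c t => .smul c t.rest

theorem Lin.eval_eq {m : Mod} {n K : ℕ} (t : Lin (n + 1) K) (x : Fin n → m) (e : Fin K → m)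
    (w y : m) :
    t.eval (Fin.cons (α := fun _ => m) y x) e w = t.coef * y + t.rest.eval x e w := by
  induction t with
  | gen i =>
    refine Fin.cases ?_ (fun i => ?_) i
    · simp [Lin.eval, Lin.coef, Lin.rest, Op.eval]
    · simp [Lin.eval, Lin.coef, Lin.rest, Fin.succ_ne_zero]
  | op t => simp [Lin.eval, Lin.coef, Lin.rest]
  | add s t ih1 ih2 =>
    simp only [Lin.eval, Lin.coef, Lin.rest, ih1, ih2, Nat.cast_add]
    ring
  | smul c t ih =>
    simp only [Lin.eval, Lin.coef, Lin.rest, ih, Nat.cast_mul]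
    ring

/-- numerals -/
def Lin.num {n K : ℕ} (c : ℕ) : Lin n K := .smul c (.op (.succ .zero))

theorem Lin.eval_num {m : Mod} {n K : ℕ} (c : ℕ) (x : Fin n → m) (e : Fin K → m) (w : m) :
    (Lin.num c : Lin n K).eval x e w = (c : m) := by
  simp [Lin.num, Lin.eval, Op.eval]

/-- Congruence modulo `d` in a model. -/
def Cong {m : Mod} (d : ℕ) (x y : m) : Prop := ∃ z, x = y + d * z ∨ y = x + d * z

inductive EF : ℕ → ℕ → Type
  | le {n K : ℕ} (s t : Lin n K) : EF n K
  | cong {n K : ℕ} (d : ℕ+) (s t : Lin n K) : EF n K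
  | not {n K : ℕ} (φ : EF n K) : EF n K
  | and {n K : ℕ} (φ ψ : EF n K) : EF n K
  | ex {n K : ℕ} (φ : EF n (K + 1)) : EF n K

noncomputable def EF.eval {m : Mod} (w : m) : ∀ {n K : ℕ}, (Fin n → m) → (Fin K → m) →
    EF n K → Prop
  | _, _, x, e, .le s t => s.eval x e w ≤ t.eval x e w
  | _, _, x, e, .cong d s t => Cong d (s.eval x e w) (t.eval x e w)
  | _, _, x, e, .not φ => ¬ φ.eval w x e
  | _, _, x, e, .and φ ψ => φ.eval w x e ∧ ψ.eval w x e
  | _, _, x, e, .ex φ => ∃ f, f ≤ len w ∧ φ.eval w x (Fin.cons (α := fun _ => m) f e)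

def EF.or {n K : ℕ} (φ ψ : EF n K) : EF n K := .not (.and (.not φ) (.not ψ))

theorem EF.eval_or {m : Mod} {n K : ℕ} (w : m) (x : Fin n → m) (e : Fin K → m) (φ ψ : EF n K) :
    (φ.or ψ).eval w x e ↔ φ.eval w x e ∨ ψ.eval w x e := by
  simp only [EF.or, EF.eval]
  tauto

def EF.false {n K : ℕ} : EF n K := .le (.op (.succ .zero)) (.op .zero)

theorem EF.eval_false {m : Mod} {n K : ℕ} (w : m) (x : Fin n → m) (e : Fin K → m) :
    ¬ (EF.false : EF n K).eval w x e := by
  simp [EF.false, EF.eval, Lin.eval, Op.eval]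

/-- simultaneous substitution -/
def EF.sub : ∀ {n K n' K' : ℕ}, (Fin n → Lin n' K') → (Fin K → Op K') → EF n K → EF n' K'
  | _, _, _, _, σ, τ, .le s t => .le (s.sub σ τ) (t.sub σ τ)
  | _, _, _, _, σ, τ, .cong d s t => .cong d (s.sub σ τ) (t.sub σ τ)
  | _, _, _, _, σ, τ, .not φ => .not (φ.sub σ τ)
  | _, _, _, _, σ, τ, .and φ ψ => .and (φ.sub σ τ) (ψ.sub σ τ)
  | _, _, _, _, σ, τ, .ex φ => .ex (φ.sub (fun i => (σ i).liftOp) (Op.liftSub τ))

theorem EF.eval_sub {m : Mod} (w : m) {n K : ℕ} (φ : EF n K) : ∀ {n' K' : ℕ}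
    (σ : Fin n → Lin n' K') (τ : Fin K → Op K') (x : Fin n' → m) (e : Fin K' → m),
    (φ.sub σ τ).eval w x e ↔
      φ.eval w (fun i => (σ i).eval x e w) (fun i => (τ i).eval e w) := by
  induction φ with
  | le s t => intro n' K' σ τ x e; simp only [EF.sub, EF.eval, Lin.eval_sub]
  | cong d s t => intro n' K' σ τ x e; simp only [EF.sub, EF.eval, Lin.eval_sub]
  | not φ ih => intro n' K' σ τ x e; simp only [EF.sub, EF.eval, ih]
  | and φ ψ ih1 ih2 => intro n' K' σ τ x e; simp only [EF.sub, EF.eval, ih1, ih2]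
  | ex φ ih =>
    intro n' K' σ τ x e
    simp only [EF.sub, EF.eval, ih, Lin.eval_liftOp, Op.eval_liftSub]

def EF.liftOp {n K : ℕ} (φ : EF n K) : EF n (K + 1) := φ.sub .gen (fun i => .var i.succ)

theorem EF.eval_liftOp {m : Mod} (w : m) {n K : ℕ} (φ : EF n K) (x : Fin n → m)
    (e : Fin K → m) (f : m) :
    φ.liftOp.eval w x (Fin.cons (α := fun _ => m) f e) ↔ φ.eval w x e := by
  rw [EF.liftOp, EF.eval_sub]
  simp only [Lin.eval, Op.eval, Fin.cons_succ]

/-- the linear form `a V + b U + c P` -/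
def comb {n K : ℕ} (a b c : ℕ) (V U P : Lin n K) : Lin n K :=
  .add (.add (.smul a V) (.smul b U)) (.smul c P)

theorem eval_comb {m : Mod} {n K : ℕ} (a b c : ℕ) (V U P : Lin n K) (x : Fin n → m)
    (e : Fin K → m) (w : m) : (comb a b c V U P).eval x e w =
      a * V.eval x e w + b * U.eval x e w + c * P.eval x e w := rfl

/-- substitution of the solution `y` of `c y + U = V` for the general variable `0` -/
def EF.divSub : ∀ {n K : ℕ}, ℕ+ → Lin n K → Lin n K → EF (n + 1) K → EF n K
  | _, _, c, U, V, .le s t => .le (comb s.coef t.coef c V U s.rest) (comb t.coef s.coef c V U t.rest)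
  | _, _, c, U, V, .cong d s t =>
    .cong (c * d) (comb s.coef t.coef c V U s.rest) (comb t.coef s.coef c V U t.rest)
  | _, _, c, U, V, .not φ => .not (φ.divSub c U V)
  | _, _, c, U, V, .and φ ψ => .and (φ.divSub c U V) (ψ.divSub c U V)
  | _, _, c, U, V, .ex φ => .ex (φ.divSub c U.liftOp V.liftOp)

theorem EF.eval_divSub {m : Mod} (w : m) : ∀ {n K : ℕ} (φ : EF (n + 1) K) (c : ℕ+) (U V : Lin n K)
    (x : Fin n → m) (e : Fin K → m) (y : m), (c : ℕ) * y + U.eval x e w = V.eval x e w →
    ((φ.divSub c U V).eval w x e ↔ φ.eval w (Fin.cons (α := fun _ => m) y x) e)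
  | _, _, .le s t, c, U, V, x, e, y, h => by
    have hc : (0 : m) < ((c : ℕ) : m) := by exact_mod_cast c.pos
    simp only [EF.divSub, EF.eval, eval_comb, Lin.eval_eq]
    rw [← h]
    have e1 : (s.coef : m) * ((c : ℕ) * y + U.eval x e w) + t.coef * U.eval x e w +
        (c : ℕ) * s.rest.eval x e w =
        (s.coef * U.eval x e w + t.coef * U.eval x e w) +
          (c : ℕ) * (s.coef * y + s.rest.eval x e w) := by ring
    have e2 : (t.coef : m) * ((c : ℕ) * y + U.eval x e w) + s.coef * U.eval x e w +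
        (c : ℕ) * t.rest.eval x e w =
        (s.coef * U.eval x e w + t.coef * U.eval x e w) +
          (c : ℕ) * (t.coef * y + t.rest.eval x e w) := by ring
    rw [e1, e2, add_le_iff, mul_le_iff hc]
  | _, _, .cong d s t, c, U, V, x, e, y, h => by
    have hc : (0 : m) < ((c : ℕ) : m) := by exact_mod_cast c.pos
    simp only [EF.divSub, EF.eval, eval_comb, Lin.eval_eq, Cong]
    rw [← h]
    refine exists_congr fun z => ?_
    have e1 : (s.coef : m) * ((c : ℕ) * y + U.eval x e w) + t.coef * U.eval x e w +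
        (c : ℕ) * s.rest.eval x e w =
        (s.coef * U.eval x e w + t.coef * U.eval x e w) +
          (c : ℕ) * (s.coef * y + s.rest.eval x e w) := by ring
    have e2 : (t.coef : m) * ((c : ℕ) * y + U.eval x e w) + s.coef * U.eval x e w +
        (c : ℕ) * t.rest.eval x e w =
        (s.coef * U.eval x e w + t.coef * U.eval x e w) +
          (c : ℕ) * (t.coef * y + t.rest.eval x e w) := by ring
    rw [e1, e2]
    have e3 : ∀ A B : m, (A + (c : ℕ) * B) + ((c * d : ℕ+) : ℕ) * z =
        A + (c : ℕ) * (B + (d : ℕ) * z) := by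
      intro A B
      rw [PNat.mul_coe, Nat.cast_mul]
      ring
    rw [e3, e3]
    have e4 : ∀ A B C : m, A + ((c : ℕ) : m) * B = A + ((c : ℕ) : m) * C ↔ B = C := by
      intro A B C
      constructor
      · intro hh
        exact mul_left_cancel₀ hc.ne' (add_left_cancel hh)
      · intro hh
        rw [hh]
    rw [e4, e4]
  | _, _, .not φ, c, U, V, x, e, y, h => by
    simp only [EF.divSub, EF.eval]
    rw [EF.eval_divSub w φ c U V x e y h]
  | _, _, .and φ ψ, c, U, V, x, e, y, h => by
    simp only [EF.divSub, EF.eval]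
    rw [EF.eval_divSub w φ c U V x e y h, EF.eval_divSub w ψ c U V x e y h]
  | _, _, .ex φ, c, U, V, x, e, y, h => by
    simp only [EF.divSub, EF.eval]
    refine exists_congr fun f => and_congr Iff.rfl ?_
    refine EF.eval_divSub w φ c U.liftOp V.liftOp x _ y ?_
    rw [Lin.eval_liftOp, Lin.eval_liftOp]
    exact h

/-- descriptions of sets of critical points -/
inductive CS : ℕ → ℕ → Type
  | none {n K : ℕ} : CS n K
  | pt {n K : ℕ} (c : ℕ+) (U V : Lin n K) : CS n K
  | or {n K : ℕ} (A B : CS n K) : CS n K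
  | ex {n K : ℕ} (A : CS n (K + 1)) : CS n K

noncomputable def CS.mem {m : Mod} (w z : m) : ∀ {n K : ℕ}, (Fin n → m) → (Fin K → m) →
    CS n K → Prop
  | _, _, _, _, .none => False
  | _, _, x, e, .pt c U V => (c : ℕ) * z + U.eval x e w = V.eval x e w
  | _, _, x, e, .or A B => A.mem w z x e ∨ B.mem w z x e
  | _, _, x, e, .ex A => ∃ f, f ≤ len w ∧ A.mem w z x (Fin.cons (α := fun _ => m) f e)

def CS.toEF : ∀ {n K : ℕ}, CS n K → EF (n + 1) K
  | _, _, .none => EF.false
  | _, _, .pt c U V => .and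
      (.le (.add (.smul c (.gen 0)) U.liftGen) V.liftGen)
      (.le V.liftGen (.add (.smul c (.gen 0)) U.liftGen))
  | _, _, .or A B => .or A.toEF B.toEF
  | _, _, .ex A => .ex A.toEF

theorem CS.eval_toEF {m : Mod} (w z : m) {n K : ℕ} (A : CS n K) : ∀ (x : Fin n → m)
    (e : Fin K → m), A.toEF.eval w (Fin.cons (α := fun _ => m) z x) e ↔ A.mem w z x e := by
  induction A with
  | none =>
    intro x e
    simp only [CS.toEF, CS.mem, iff_false]
    exact EF.eval_false _ _ _
  | pt c U V =>
    intro x e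
    simp only [CS.toEF, CS.mem, EF.eval, Lin.eval, Lin.eval_liftGen, Fin.cons_zero]
    exact ⟨fun h => le_antisymm h.1 h.2, fun h => ⟨h.le, h.ge⟩⟩
  | or A B ih1 ih2 =>
    intro x e
    simp only [CS.toEF, CS.mem, EF.eval_or, ih1, ih2]
  | ex A ih =>
    intro x e
    simp only [CS.toEF, CS.mem, EF.eval, ih]

/-- the points `z` with `c z + U + r = V` for some `r ≤ R` -/
def CS.pts {n K : ℕ} (c : ℕ+) (U V : Lin n K) : ℕ → CS n K
  | 0 => .pt c U V
  | R + 1 => .or (CS.pts c U V R) (.pt c (.add U (.num (R + 1))) V)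

theorem CS.mem_pts {m : Mod} (w z : m) {n K : ℕ} (c : ℕ+) (U V : Lin n K) (R : ℕ)
    (x : Fin n → m) (e : Fin K → m) : (CS.pts c U V R).mem w z x e ↔
      ∃ r : ℕ, r ≤ R ∧ (c : ℕ) * z + (U.eval x e w + r) = V.eval x e w := by
  induction R with
  | zero =>
    simp only [CS.pts, CS.mem, nonpos_iff_eq_zero, exists_eq_left, Nat.cast_zero, add_zero]
  | succ R ih =>
    simp only [CS.pts, CS.mem, ih, Lin.eval, Lin.eval_num]
    constructor
    · rintro (⟨r, hr, h⟩ | h)
      · exact ⟨r, Nat.le_succ_of_le hr, h⟩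
      · exact ⟨R + 1, le_rfl, h⟩
    · rintro ⟨r, hr, h⟩
      rcases Nat.lt_or_eq_of_le hr with h1 | h1
      · exact Or.inl ⟨r, Nat.lt_succ_iff.1 h1, h⟩
      · subst h1
        exact Or.inr h

/-- the critical points of a formula (as a property of the general variable `0`) -/
def EF.crit : ∀ {n K : ℕ}, EF (n + 1) K → CS n K
  | _, _, .le s t => .or
      (CS.pts (t.coef - s.coef - 1).succPNat t.rest s.rest (t.coef - s.coef))
      (CS.pts (s.coef - t.coef - 1).succPNat s.rest t.rest (s.coef - t.coef))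
  | _, _, .cong _ _ _ => .none
  | _, _, .not φ => φ.crit
  | _, _, .and φ ψ => .or φ.crit ψ.crit
  | _, _, .ex φ => .ex φ.crit

def EF.modulus : ∀ {n K : ℕ}, EF (n + 1) K → ℕ+
  | _, _, .le _ _ => 1
  | _, _, .cong d _ _ => d
  | _, _, .not φ => φ.modulus
  | _, _, .and φ ψ => φ.modulus * ψ.modulus
  | _, _, .ex φ => φ.modulus

theorem atom_inv {m : Mod} (a b : ℕ) (P Q y y' : m) (hy : y ≤ y')
    (h1 : ∀ (z : m) (r : ℕ), r ≤ b - a → ((b - a - 1).succPNat : ℕ) * z + (Q + r) = P →
      y ≤ z → z < y' → False)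
    (h2 : ∀ (z : m) (r : ℕ), r ≤ a - b → ((a - b - 1).succPNat : ℕ) * z + (P + r) = Q →
      y ≤ z → z < y' → False) :
    (a * y + P ≤ b * y + Q ↔ a * y' + P ≤ b * y' + Q) := by
  rcases lt_trichotomy a b with hab | hab | hab
  · -- `c = b - a`
    obtain ⟨c, hc, rfl⟩ : ∃ c, 0 < c ∧ b = a + c := ⟨b - a, by omega, by omega⟩
    have e1 : a + c - a = c := by omega
    have e2 : ((a + c - a - 1).succPNat : ℕ) = c := by
      rw [e1, Nat.succPNat_coe]
      omega
    rw [e2, e1] at h1
    have hcm : (0 : m) < (c : m) := by exact_mod_cast hc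
    have e3 : ∀ y : m, (a * y + P ≤ ((a + c : ℕ) : m) * y + Q ↔ P ≤ c * y + Q) := by
      intro y
      have : ((a + c : ℕ) : m) * y + Q = a * y + (c * y + Q) := by
        rw [Nat.cast_add]; ring
      rw [this, add_le_iff]
    rw [e3, e3]
    constructor
    · intro h
      refine h.trans ?_
      exact add_le_add_left ((mul_le_iff hcm _ _).2 hy) Q
    · intro h
      by_contra hcon
      push Not at hcon
      have hQP : Q ≤ P := le_add_self.trans hcon.le
      obtain ⟨D, hD⟩ := exists_add _ _ hQP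
      have hcD : (c : m) * y < D := by
        rw [hD, add_comm] at hcon
        exact lt_of_add_lt_add_left hcon
      have hD1 : 1 ≤ D := by
        have := (lt_iff_add_one_le _ _).1 (lt_of_le_of_lt (zero_le' _) hcD)
        rwa [zero_add] at this
      obtain ⟨D', hD'⟩ := exists_add _ _ hD1
      obtain ⟨z, r, hr, hz⟩ := exists_div c hc D'
      have hDz : D = c * z + ((r + 1 : ℕ) : m) := by
        rw [hD', hz, Nat.cast_succ]; ring
      refine h1 z (r + 1) (by omega) ?_ ?_ ?_
      · rw [hD, hDz]; ring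
      · -- `y ≤ z`
        rw [le_iff_lt_add_one]
        by_contra hc2
        push Not at hc2
        have h3 : (c : m) * (z + 1) ≤ c * y := (mul_le_iff hcm _ _).2 hc2
        have h4 : ((r + 1 : ℕ) : m) ≤ (c : m) := by exact_mod_cast hr
        have h5 : D ≤ c * y := by
          refine le_trans ?_ h3
          rw [hDz, mul_add, mul_one]
          exact (add_le_iff _ _ _).2 h4
        exact absurd h5 (not_le.2 hcD)
      · -- `z < y'`
        by_contra hc2
        push Not at hc2
        have h3 : (c : m) * y' ≤ c * z := (mul_le_iff hcm _ _).2 hc2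
        have h4 : D ≤ c * y' := by
          rw [hD, add_comm (↑c * y') Q, add_le_iff] at h
          exact h
        have h5 : (c : m) * z + ((r + 1 : ℕ) : m) ≤ c * z + 0 := by
          rw [← hDz, add_zero]; exact h4.trans h3
        rw [add_le_iff] at h5
        have h6 : (0 : m) < ((r + 1 : ℕ) : m) := by exact_mod_cast Nat.succ_pos r
        exact absurd h5 (not_le.2 h6)
  · subst hab
    rw [add_le_iff, add_le_iff]
  · -- `c = a - b`
    obtain ⟨c, hc, rfl⟩ : ∃ c, 0 < c ∧ a = b + c := ⟨a - b, by omega, by omega⟩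
    have e1 : b + c - b = c := by omega
    have e2 : ((b + c - b - 1).succPNat : ℕ) = c := by
      rw [e1, Nat.succPNat_coe]
      omega
    rw [e2, e1] at h2
    have hcm : (0 : m) < (c : m) := by exact_mod_cast hc
    have e3 : ∀ y : m, (((b + c : ℕ) : m) * y + P ≤ (b : m) * y + Q ↔ (c : m) * y + P ≤ Q) := by
      intro y
      have : ((b + c : ℕ) : m) * y + P = b * y + (c * y + P) := by
        rw [Nat.cast_add]; ring
      rw [this, add_le_iff]
    rw [e3, e3]
    constructor
    · intro h
      by_contra hcon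
      push Not at hcon
      have hPQ : P ≤ Q := le_add_self.trans h
      obtain ⟨D, hD⟩ := exists_add _ _ hPQ
      have hcD : (c : m) * y ≤ D := by
        rw [hD, add_comm, add_le_iff] at h
        exact h
      have hDy' : D < c * y' := by
        rw [hD, add_comm (↑c * y') P] at hcon
        exact lt_of_add_lt_add_left hcon
      obtain ⟨z, r, hr, hz⟩ := exists_div c hc D
      refine h2 z r (by omega) ?_ ?_ ?_
      · rw [hD, hz]; ring
      · rw [le_iff_lt_add_one]
        by_contra hc2
        push Not at hc2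
        have h3 : (c : m) * (z + 1) ≤ c * y := (mul_le_iff hcm _ _).2 hc2
        have h4 : (r : m) < (c : m) := by exact_mod_cast hr
        have h5 : D < c * y := by
          refine lt_of_lt_of_le ?_ h3
          rw [hz, mul_add, mul_one]
          exact lt_of_not_ge fun hcc => absurd ((add_le_iff _ _ _).1 hcc) (not_le.2 h4)
        exact absurd hcD (not_le.2 h5)
      · by_contra hc2
        push Not at hc2
        have h3 : (c : m) * y' ≤ c * z := (mul_le_iff hcm _ _).2 hc2
        have h4 : (c : m) * z ≤ D := by rw [hz]; exact le_self_add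
        exact absurd (h3.trans h4) (not_le.2 hDy')
    · intro h
      refine le_trans ?_ h
      exact add_le_add_left ((mul_le_iff hcm _ _).2 hy) P

theorem Cong.shift {m : Mod} {d : ℕ} {x y : m} (u v : m) :
    Cong d (x + (d : m) * u) (y + (d : m) * v) ↔ Cong d x y := by
  constructor
  · rintro ⟨z, h | h⟩
    · -- `x + d u = y + d v + d z`
      rcases le_total (u) (v + z) with h1 | h1
      · obtain ⟨t, ht⟩ := exists_add _ _ h1
        refine ⟨t, Or.inl ?_⟩
        have : x + d * u = y + d * t + d * u := by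
          rw [h]
          have : y + (d : m) * v + d * z = y + d * (v + z) := by ring
          rw [this, ht]; ring
        exact add_right_cancel this
      · obtain ⟨t, ht⟩ := exists_add _ _ h1
        refine ⟨t, Or.inr ?_⟩
        have : x + d * t + d * (v + z) = y + d * (v + z) := by
          have e : x + (d : m) * t + d * (v + z) = x + d * (v + z + t) := by ring
          rw [e, ← ht, h]; ring
        exact (add_right_cancel this).symm
    · rcases le_total (v) (u + z) with h1 | h1
      · obtain ⟨t, ht⟩ := exists_add _ _ h1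
        refine ⟨t, Or.inr ?_⟩
        have : y + d * v = x + d * t + d * v := by
          rw [h]
          have : x + (d : m) * u + d * z = x + d * (u + z) := by ring
          rw [this, ht]; ring
        exact add_right_cancel this
      · obtain ⟨t, ht⟩ := exists_add _ _ h1
        refine ⟨t, Or.inl ?_⟩
        have : y + d * t + d * (u + z) = x + d * (u + z) := by
          have e : y + (d : m) * t + d * (u + z) = y + d * (u + z + t) := by ring
          rw [e, ← ht, h]; ring
        exact (add_right_cancel this).symm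
  · rintro ⟨z, h | h⟩
    · rcases le_total v (u + z) with h1 | h1
      · obtain ⟨t, ht⟩ := exists_add _ _ h1
        refine ⟨t, Or.inl ?_⟩
        rw [h]
        have : y + (d : m) * z + d * u = y + d * (u + z) := by ring
        rw [this, ht]; ring
      · obtain ⟨t, ht⟩ := exists_add _ _ h1
        refine ⟨t, Or.inr ?_⟩
        rw [h, ht]; ring
    · rcases le_total u (v + z) with h1 | h1
      · obtain ⟨t, ht⟩ := exists_add _ _ h1
        refine ⟨t, Or.inr ?_⟩
        rw [h]
        have : x + (d : m) * z + d * v = x + d * (v + z) := by ring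
        rw [this, ht]; ring
      · obtain ⟨t, ht⟩ := exists_add _ _ h1
        refine ⟨t, Or.inl ?_⟩
        rw [h, ht]; ring

/-- the truth value does not change between critical points -/
theorem EF.invariant {m : Mod} (w : m) : ∀ {n K : ℕ} (φ : EF (n + 1) K) (x : Fin n → m)
    (e : Fin K → m) (y d : m),
    (∀ z, φ.crit.mem w z x e → y ≤ z → z < y + (φ.modulus : ℕ) * d → False) →
    (φ.eval w (Fin.cons (α := fun _ => m) y x) e ↔
      φ.eval w (Fin.cons (α := fun _ => m) (y + (φ.modulus : ℕ) * d) x) e)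
  | _, _, .le s t, x, e, y, d, h => by
    simp only [EF.eval, Lin.eval_eq]
    refine atom_inv _ _ _ _ _ _ le_self_add ?_ ?_
    · intro z r hr hz
      refine h z ?_
      simp only [EF.crit, CS.mem, CS.mem_pts]
      exact Or.inl ⟨r, hr, hz⟩
    · intro z r hr hz
      refine h z ?_
      simp only [EF.crit, CS.mem, CS.mem_pts]
      exact Or.inr ⟨r, hr, hz⟩
  | _, _, .cong c s t, x, e, y, d, h => by
    simp only [EF.eval, Lin.eval_eq, EF.modulus]
    have e1 : ∀ (a : ℕ) (P : m), (a : m) * (y + (c : ℕ) * d) + P = (a * y + P) + (c : ℕ) * (a * d) := by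
      intro a P; ring
    rw [e1, e1]
    exact (Cong.shift _ _).symm
  | _, _, .not φ, x, e, y, d, h => by
    simp only [EF.eval, EF.modulus]
    simp only [EF.crit, EF.modulus] at h
    exact not_congr (EF.invariant w φ x e y d h)
  | _, _, .and φ ψ, x, e, y, d, h => by
    simp only [EF.eval, EF.modulus, PNat.mul_coe, Nat.cast_mul]
    have e1 : ((φ.modulus : ℕ) : m) * ((ψ.modulus : ℕ) : m) * d =
        (φ.modulus : ℕ) * ((ψ.modulus : ℕ) * d) := by ring
    have e2 : ((φ.modulus : ℕ) : m) * ((ψ.modulus : ℕ) : m) * d =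
        (ψ.modulus : ℕ) * ((φ.modulus : ℕ) * d) := by ring
    have h' : ∀ z, (φ.crit.mem w z x e ∨ ψ.crit.mem w z x e) → y ≤ z →
        z < y + ((φ.modulus : ℕ) : m) * ((ψ.modulus : ℕ) : m) * d → False := by
      intro z hz hz1 hz2
      simp only [EF.crit, CS.mem, EF.modulus, PNat.mul_coe, Nat.cast_mul] at h
      exact h z hz hz1 hz2
    refine and_congr ?_ ?_
    · rw [e1]
      refine EF.invariant w φ x e y _ ?_
      intro z hz hz1 hz2
      refine h' z (Or.inl hz) hz1 ?_
      rw [e1]; exact hz2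
    · rw [e2]
      refine EF.invariant w ψ x e y _ ?_
      intro z hz hz1 hz2
      refine h' z (Or.inr hz) hz1 ?_
      rw [e2]; exact hz2
  | _, _, .ex φ, x, e, y, d, h => by
    simp only [EF.eval, EF.modulus]
    simp only [EF.crit, CS.mem, EF.modulus] at h
    refine exists_congr fun f => ?_
    refine and_congr_right fun hf => ?_
    refine EF.invariant w φ x _ y d ?_
    intro z hz hz1 hz2
    exact h z ⟨f, hf, hz⟩ hz1 hz2

/-- `φ (z + j)` for some critical point `z` -/
def CS.elim (j : ℕ) : ∀ {n K : ℕ}, CS n K → EF (n + 1) K → EF n K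
  | _, _, .none, _ => EF.false
  | _, _, .pt c U V, φ => .and (.and (.le U V) (.cong c V U))
      (φ.divSub c U (.add V (.num (c * j))))
  | _, _, .or A B, φ => .or (A.elim j φ) (B.elim j φ)
  | _, _, .ex A, φ => .ex (A.elim j φ.liftOp)

theorem CS.eval_elim {m : Mod} (w : m) (j : ℕ) : ∀ {n K : ℕ} (A : CS n K) (φ : EF (n + 1) K)
    (x : Fin n → m) (e : Fin K → m), (A.elim j φ).eval w x e ↔
      ∃ z, A.mem w z x e ∧ φ.eval w (Fin.cons (α := fun _ => m) (z + j) x) e
  | _, _, .none, φ, x, e => by
    simp only [CS.elim, CS.mem, false_and, exists_false, iff_false]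
    exact EF.eval_false _ _ _
  | _, _, .pt c U V, φ, x, e => by
    simp only [CS.elim, CS.mem, EF.eval]
    constructor
    · rintro ⟨⟨h1, z, h2⟩, h3⟩
      have hz : ∃ z : m, (c : ℕ) * z + U.eval x e w = V.eval x e w := by
        rcases h2 with h2 | h2
        · exact ⟨z, by rw [h2, add_comm]⟩
        · have h4 : U.eval x e w = V.eval x e w := by
            refine le_antisymm h1 ?_
            rw [h2]; exact le_self_add
          exact ⟨0, by rw [mul_zero, zero_add, h4]⟩
      obtain ⟨z, hz⟩ := hz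
      refine ⟨z, hz, ?_⟩
      refine (EF.eval_divSub w φ c U _ x e (z + j) ?_).1 h3
      simp only [Lin.eval, Lin.eval_num, Nat.cast_mul]
      rw [← hz]; ring
    · rintro ⟨z, hz, h⟩
      refine ⟨⟨?_, z, Or.inl ?_⟩, ?_⟩
      · rw [← hz]; exact le_add_self
      · rw [← hz, add_comm]
      · refine (EF.eval_divSub w φ c U _ x e (z + j) ?_).2 h
        simp only [Lin.eval, Lin.eval_num, Nat.cast_mul]
        rw [← hz]; ring
  | _, _, .or A B, φ, x, e => by
    simp only [CS.elim, CS.mem, EF.eval_or, CS.eval_elim w j A, CS.eval_elim w j B]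
    constructor
    · rintro (⟨z, h1, h2⟩ | ⟨z, h1, h2⟩)
      · exact ⟨z, Or.inl h1, h2⟩
      · exact ⟨z, Or.inr h1, h2⟩
    · rintro ⟨z, h1 | h1, h2⟩
      · exact Or.inl ⟨z, h1, h2⟩
      · exact Or.inr ⟨z, h1, h2⟩
  | _, _, .ex A, φ, x, e => by
    simp only [CS.elim, CS.mem, EF.eval, CS.eval_elim w j A, EF.eval_liftOp]
    constructor
    · rintro ⟨f, hf, z, h1, h2⟩
      exact ⟨z, ⟨f, hf, h1⟩, h2⟩
    · rintro ⟨z, ⟨f, hf, h1⟩, h2⟩
      exact ⟨f, hf, z, h1, h2⟩

end Pool.Agent.TH686.BA
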