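import Pool.Agent.TH686.BA.ToFm

/-!
# Elimination of a general variable
-/

set_option autoImplicit false

namespace Pool.Agent.TH686.BA

open Pool.Agent.TH686.BA.Mod

theorem CS.sd {m : Mod} {n K : ℕ} (A : CS n K) (w : m) (x : Fin n → m) (e : Fin K → m) :
    SD (fun z => A.mem w z x e) := by
  obtain ⟨⟨χ, h1, h2⟩, -⟩ := A.toEF.del (N := n + K + 1 + 1)
    (Fin.cons (α := fun _ => Tm (n + K + 1 + 1)) (.var 0)
      (fun i => .var (Fin.castAdd K i).succ.succ))
    (fun j => .var (Fin.natAdd n j).succ.succ) (.var 1)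
  refine ⟨n + K + 1, χ, Fin.cons (α := fun _ => m.str.carrier) w (Fin.append x e), h1,
    fun z => ?_⟩
  refine (CS.eval_toEF w z A x e).symm.trans ?_
  refine Iff.trans ?_ (h2 m _).symm
  have e1 : (fun i => ((Fin.cons (α := fun _ => Tm (n + K + 1 + 1)) (.var 0)
      (fun i => .var (Fin.castAdd K i).succ.succ)) i : Tm (n + K + 1 + 1)).eval m.str
      (Fin.cons (α := fun _ => m.str.carrier) z
        (Fin.cons (α := fun _ => m.str.carrier) w (Fin.append x e)))) =
      Fin.cons (α := fun _ => m.str.carrier) z x := by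
    funext i
    refine Fin.cases ?_ (fun i => ?_) i
    · simp only [Fin.cons_zero, Tm.eval]
    · simp only [Fin.cons_succ, Tm.eval, Fin.append_left]
  have e2 : (fun j => (Tm.var (Fin.natAdd n j).succ.succ : Tm (n + K + 1 + 1)).eval m.str
      (Fin.cons (α := fun _ => m.str.carrier) z
        (Fin.cons (α := fun _ => m.str.carrier) w (Fin.append x e)))) = e := by
    funext j
    simp only [Tm.eval, Fin.cons_succ, Fin.append_right]
  have e3 : (Tm.var 1 : Tm (n + K + 1 + 1)).eval m.str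
      (Fin.cons (α := fun _ => m.str.carrier) z
        (Fin.cons (α := fun _ => m.str.carrier) w (Fin.append x e))) = w := rfl
  simp only [e1, e2, e3]

/-- `φ j` for some `j < J` -/
def EF.low {n K : ℕ} (φ : EF (n + 1) K) : ℕ → EF n K
  | 0 => EF.false
  | j + 1 => .or (EF.low φ j) (φ.divSub 1 (.num 0) (.num j))

/-- `φ (z + j)` for some critical point `z` and some `1 ≤ j ≤ J` -/
def EF.high {n K : ℕ} (φ : EF (n + 1) K) : ℕ → EF n K
  | 0 => EF.false
  | j + 1 => .or (EF.high φ j) (φ.crit.elim (j + 1) φ)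

def EF.elim {n K : ℕ} (φ : EF (n + 1) K) : EF n K :=
  .or (φ.low φ.modulus) (φ.high φ.modulus)

theorem EF.eval_low {m : Mod} (w : m) {n K : ℕ} (φ : EF (n + 1) K) (J : ℕ) (x : Fin n → m)
    (e : Fin K → m) : (φ.low J).eval w x e ↔
      ∃ j : ℕ, j < J ∧ φ.eval w (Fin.cons (α := fun _ => m) (j : m) x) e := by
  induction J with
  | zero =>
    simp only [EF.low, Nat.not_lt_zero, false_and, exists_false, iff_false]
    exact EF.eval_false _ _ _
  | succ J ih =>
    simp only [EF.low, EF.eval_or, ih]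
    have h : (φ.divSub 1 (.num 0) (.num J)).eval w x e ↔
        φ.eval w (Fin.cons (α := fun _ => m) (J : m) x) e := by
      refine EF.eval_divSub w φ 1 _ _ x e (J : m) ?_
      simp only [Lin.eval_num, PNat.one_coe, Nat.cast_one, one_mul, Nat.cast_zero, add_zero]
    rw [h]
    constructor
    · rintro (⟨j, hj, h1⟩ | h1)
      · exact ⟨j, Nat.lt_succ_of_lt hj, h1⟩
      · exact ⟨J, Nat.lt_succ_self J, h1⟩
    · rintro ⟨j, hj, h1⟩
      rcases Nat.lt_or_eq_of_le (Nat.lt_succ_iff.1 hj) with h2 | h2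
      · exact Or.inl ⟨j, h2, h1⟩
      · subst h2; exact Or.inr h1

theorem EF.eval_high {m : Mod} (w : m) {n K : ℕ} (φ : EF (n + 1) K) (J : ℕ) (x : Fin n → m)
    (e : Fin K → m) : (φ.high J).eval w x e ↔
      ∃ j : ℕ, j < J ∧ ∃ z, φ.crit.mem w z x e ∧
        φ.eval w (Fin.cons (α := fun _ => m) (z + ((j + 1 : ℕ) : m)) x) e := by
  induction J with
  | zero =>
    simp only [EF.high, Nat.not_lt_zero, false_and, exists_false, iff_false]
    exact EF.eval_false _ _ _
  | succ J ih =>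
    simp only [EF.high, EF.eval_or, ih, CS.eval_elim]
    constructor
    · rintro (⟨j, hj, h1⟩ | h1)
      · exact ⟨j, Nat.lt_succ_of_lt hj, h1⟩
      · exact ⟨J, Nat.lt_succ_self J, h1⟩
    · rintro ⟨j, hj, h1⟩
      rcases Nat.lt_or_eq_of_le (Nat.lt_succ_iff.1 hj) with h2 | h2
      · exact Or.inl ⟨j, h2, h1⟩
      · subst h2; exact Or.inr h1

/-- Elimination of a general variable. -/
theorem EF.eval_elim {m : Mod} (w : m) {n K : ℕ} (φ : EF (n + 1) K) (x : Fin n → m)
    (e : Fin K → m) : φ.elim.eval w x e ↔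
      ∃ y, φ.eval w (Fin.cons (α := fun _ => m) y x) e := by
  rw [EF.elim, EF.eval_or, EF.eval_low, EF.eval_high]
  constructor
  · rintro (⟨j, -, h⟩ | ⟨j, -, z, -, h⟩)
    · exact ⟨_, h⟩
    · exact ⟨_, h⟩
  · rintro ⟨y, hy⟩
    by_cases hS : ∃ z, φ.crit.mem w z x e ∧ z < y
    · right
      obtain ⟨z0, hz0, hz0y⟩ := hS
      obtain ⟨z, hz, hzy, hmax⟩ := (φ.crit.sd w x e).max hz0 hz0y
      obtain ⟨D, hD⟩ := exists_add _ _ ((lt_iff_add_one_le _ _).1 hzy)
      obtain ⟨q, r, hr, hq⟩ := exists_div φ.modulus φ.modulus.pos D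
      refine ⟨r, hr, z, hz, ?_⟩
      have e1 : y = z + ((r + 1 : ℕ) : m) + (φ.modulus : ℕ) * q := by
        rw [hD, hq, Nat.cast_succ]; ring
      refine (EF.invariant w φ x e _ q ?_).2 ?_
      · intro z' hz' h1 h2
        rw [← e1] at h2
        have h3 := hmax z' hz' h2
        have h4 : z < z + ((r + 1 : ℕ) : m) := by
          refine lt_add_of_pos_right z ?_
          exact_mod_cast Nat.succ_pos r
        exact absurd (lt_of_lt_of_le h4 h1) (not_lt.2 h3)
      · rw [← e1]; exact hy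
    · left
      push Not at hS
      obtain ⟨q, r, hr, hq⟩ := exists_div φ.modulus φ.modulus.pos y
      refine ⟨r, hr, ?_⟩
      have e1 : y = (r : m) + (φ.modulus : ℕ) * q := by rw [hq]; ring
      refine (EF.invariant w φ x e _ q ?_).2 ?_
      · intro z' hz' h1 h2
        rw [← e1] at h2
        exact absurd h2 (not_lt.2 (hS z' hz'))
      · rw [← e1]; exact hy

end Pool.Agent.TH686.BA
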