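import Pool.Agent.TH686.BA.Sub

/-!
# Lengths and powers of two in models of `T^1_2`
-/

set_option autoImplicit false

namespace Pool.Agent.TH686.BA

namespace Mod

variable {m : Mod}

theorem len_zero : len (0 : m) = 0 := m.b.b9
theorem len_one : len (1 : m) = 1 := m.b.b11
theorem len_mono {x y : m} (h : x ≤ y) : len x ≤ len y := m.b.b12 x y h
theorem len_smash (x y : m) : len (smash x y) = len x * len y + 1 := by
  rw [← succ_eq]; exact m.b.b13 x y
theorem zero_smash (y : m) : smash 0 y = 1 := m.b.b14 y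
theorem smash_comm (x y : m) : smash x y = smash y x := m.b.b16 x y
theorem smash_congr {x y : m} (z : m) (h : len x = len y) : smash x z = smash y z :=
  m.b.b17 x y z h
theorem smash_split {x u v : m} (y : m) (h : len x = len u + len v) :
    smash x y = smash u y * smash v y := m.b.b18 x y u v h
theorem smash_zero (y : m) : smash y 0 = 1 := by rw [smash_comm, zero_smash]

theorem one_smash_double {x : m} (hx : x ≠ 0) : smash 1 (2 * x) = 2 * smash 1 x := by
  have h := (m.b.b15 x hx).1
  rw [← two_eq] at h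
  exact h

theorem one_smash_double_add {x : m} (hx : x ≠ 0) : smash 1 (2 * x + 1) = 2 * smash 1 x := by
  have h := (m.b.b15 x hx).2
  rw [← two_eq] at h
  rw [← succ_eq]
  exact h

theorem half_iff (x y : m) : x = half y ↔ (2 * x = y ∨ 2 * x + 1 = y) := by
  have h := m.b.b32 x y
  rw [← two_eq, succ_eq] at h
  exact h

theorem len_double {x : m} (hx : x ≠ 0) : len (2 * x) = len x + 1 := by
  have h := (m.b.b10 x hx).1
  rw [← two_eq, succ_eq] at h
  exact h

theorem len_double_add (x : m) : len (2 * x + 1) = len x + 1 := by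
  by_cases hx : x = 0
  · rw [hx, mul_zero, zero_add, len_one, len_zero, zero_add]
  · have h := (m.b.b10 x hx).2
    rw [← two_eq, succ_eq, succ_eq] at h
    exact h

theorem len_ne {x : m} (hx : x ≠ 0) : len x = len (half x) + 1 := by
  have h := m.b.b31 x hx
  rw [succ_eq] at h
  exact h

theorem one_smash_one : smash 1 1 = (2 : m) := by
  have h1 : smash 1 (2 * 1) = 2 * smash 1 (1 : m) := one_smash_double one_ne_zero
  have h2 : len (2 * 1 : m) = len 1 + len (1 : m) := by
    rw [len_double one_ne_zero, len_one]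
  have h3 : smash (2 * 1) 1 = smash 1 1 * smash 1 (1 : m) := smash_split 1 h2
  rw [smash_comm, h1] at h3
  have h4 : smash 1 1 ≠ (0 : m) := by
    intro h
    have h5 := len_smash (1 : m) 1
    rw [h, len_zero] at h5
    have h6 : (0 : m) < len 1 * len 1 + 1 := by positivity
    rw [← h5] at h6
    exact lt_irrefl _ h6
  exact (mul_right_cancel₀ h4 h3).symm

theorem two_pos' : (0 : m) < 2 := by positivity

theorem lt_one_smash (x : m) : x < smash 1 x ∧ (x = 0 ∨ smash 1 x ≤ 2 * x) := by
  refine strongInd (P := fun x : m => x < smash 1 x ∧ (x = 0 ∨ smash 1 x ≤ 2 * x)) ?_ ?_ x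
  · refine ⟨0, Fm.not (Fm.and (Fm.le (.succ (.var 0)) (.smash (.succ .zero) (.var 0)))
      (Fm.or (Fm.eq (.var 0) .zero) (Fm.le (.smash (.succ .zero) (.var 0))
        (.mul (.succ (.succ .zero)) (.var 0))))), Fin.elim0,
      Lvl.not (Lvl.and (Lvl.le _ _) (Lvl.or (Lvl.eq _ _) (Lvl.le _ _))), ?_⟩
    intro x
    simp only [Fm.eval, Tm.eval, str_le, str_succ, str_zero, str_smash, str_mul, Fin.cons_zero,
      zero_add, one_add_one_eq_two, ← lt_iff_add_one_le]
  · intro x ih
    by_cases hx : x = 0
    · rw [hx, smash_zero]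
      exact ⟨zero_lt_one, Or.inl rfl⟩
    · have hxpos : 0 < x := lt_of_le_of_ne (zero_le' x) (Ne.symm hx)
      by_cases hy : half x = 0
      · -- `x = 1`
        have h := (half_iff (half x) x).1 rfl
        rw [hy, mul_zero, zero_add] at h
        rcases h with h | h
        · exact absurd h.symm hx
        · rw [← h, one_smash_one]
          refine ⟨one_lt_two, Or.inr (by rw [mul_one])⟩
      · have hypos : 0 < half x := lt_of_le_of_ne (zero_le' _) (Ne.symm hy)
        have h := (half_iff (half x) x).1 rfl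
        have hle : 2 * half x ≤ x := by
          rcases h with h | h
          · exact h.le
          · exact (lt_add_one' _).le.trans h.le
        have hle2 : x ≤ 2 * half x + 1 := by
          rcases h with h | h
          · rw [h]; exact (lt_add_one' _).le
          · exact h.ge
        have hlt : half x < x := by
          refine lt_of_lt_of_le ?_ hle
          rw [two_mul]
          exact lt_add_of_pos_left _ hypos
        have hs : smash 1 x = 2 * smash 1 (half x) := by
          rcases h with h | h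
          · conv_lhs => rw [← h]
            exact one_smash_double hy
          · conv_lhs => rw [← h]
            exact one_smash_double_add hy
        obtain ⟨i1, i2⟩ := ih _ hlt
        rw [hs]
        constructor
        · have h1 := (lt_iff_add_one_le _ _).1 i1
          have h2 : 2 * (half x + 1) ≤ 2 * smash 1 (half x) := mul_le_mul_right h1 2
          refine lt_of_lt_of_le ?_ h2
          refine lt_of_le_of_lt hle2 ?_
          have : 2 * (half x + 1) = 2 * half x + 1 + 1 := by ring
          rw [this]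
          exact lt_add_one' _
        · right
          rcases i2 with i2 | i2
          · exact absurd i2 hy
          · refine mul_le_mul_right (i2.trans hle) 2

/-- an element is small if it is the length of an element -/
def Small (e : m) : Prop := ∃ u, len u = e

theorem exists_len {e s : m} (h : e ≤ len s) : ∃ u, u ≤ s ∧ len u = e := by
  have hSD : SD (fun e : m => e ≤ len s → ∃ u, u ≤ s ∧ len u = e) := by
    refine ⟨1, Fm.or (Fm.not (Fm.le (.var 0) (.len (.var 1))))
      (Fm.ex (.var 1) (Fm.eq (.len (.var 0)) (.var 1))), ![s],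
      Lvl.or (Lvl.not (Lvl.le _ _)) (Lvl.ex _ (Lvl.eq _ _)), ?_⟩
    intro x
    exact imp_iff_not_or
  refine hSD.ind ?_ ?_ e h
  · intro _
    exact ⟨0, zero_le' s, len_zero⟩
  · intro e ih he
    obtain ⟨u, hu, hue⟩ := ih ((lt_add_one' e).le.trans he)
    by_cases hu0 : u = 0
    · rw [hu0, len_zero] at hue
      rw [← hue, zero_add]
      rw [← hue, zero_add] at he
      refine ⟨1, ?_, len_one⟩
      by_contra hc
      push Not at hc
      have hs : s = 0 := by
        have h1 : s < 0 + 1 := by rw [zero_add]; exact hc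
        exact le_antisymm ((le_iff_lt_add_one _ _).2 h1) (zero_le' s)
      rw [hs, len_zero] at he
      exact absurd he (not_le.2 zero_lt_one)
    · rcases le_or_gt (2 * u) s with h1 | h1
      · exact ⟨2 * u, h1, by rw [len_double hu0, hue]⟩
      · refine ⟨s, le_rfl, le_antisymm ?_ he⟩
        rw [← hue, ← len_double hu0]
        exact len_mono h1.le

theorem Small.of_le {e f : m} (hf : Small f) (h : e ≤ f) : Small e := by
  obtain ⟨s, rfl⟩ := hf
  obtain ⟨u, -, hu⟩ := exists_len h
  exact ⟨u, hu⟩

theorem small_len (u : m) : Small (len u) := ⟨u, rfl⟩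

theorem Small.add_one {e : m} (he : Small e) : Small (e + 1) := by
  obtain ⟨u, rfl⟩ := he
  exact ⟨2 * u + 1, len_double_add u⟩

theorem Small.mul {e f : m} (he : Small e) (hf : Small f) : Small (e * f) := by
  obtain ⟨u, rfl⟩ := he
  obtain ⟨v, rfl⟩ := hf
  refine Small.of_le (small_len (smash u v)) ?_
  rw [len_smash]
  exact (lt_add_one' _).le

theorem Small.add {e f : m} (he : Small e) (hf : Small f) : Small (e + f) := by
  refine Small.of_le (he.add_one.mul hf.add_one) ?_
  have : (e + 1) * (f + 1) = e + f + (e * f + 1) := by ring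
  rw [this]
  exact le_self_add

theorem small_zero : Small (0 : m) := ⟨0, len_zero⟩
theorem small_one : Small (1 : m) := ⟨1, len_one⟩

open Classical in
/-- the power of two with exponent `e` (if `e` is small) -/
noncomputable def ex2 (e : m) : m := if h : Small e then smash 1 h.choose else 0

theorem ex2_len (u : m) : ex2 (len u) = smash 1 u := by
  unfold ex2
  rw [dif_pos (small_len u), smash_comm 1, smash_comm 1]
  exact smash_congr 1 (small_len u).choose_spec

theorem ex2_zero : ex2 (0 : m) = 1 := by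
  rw [← len_zero, ex2_len, smash_zero]

theorem ex2_one : ex2 (1 : m) = 2 := by
  rw [← len_one, ex2_len, one_smash_one]

theorem ex2_add {e f : m} (he : Small e) (hf : Small f) : ex2 (e + f) = ex2 e * ex2 f := by
  obtain ⟨w, hw⟩ := he.add hf
  obtain ⟨u, rfl⟩ := he
  obtain ⟨v, rfl⟩ := hf
  rw [← hw, ex2_len, ex2_len, ex2_len, smash_comm 1, smash_comm 1, smash_comm 1]
  exact smash_split 1 hw

theorem len_ex2 {e : m} (he : Small e) : len (ex2 e) = e + 1 := by
  obtain ⟨u, rfl⟩ := he
  rw [ex2_len, len_smash, len_one, one_mul]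

theorem ex2_pos {e : m} (he : Small e) : 0 < ex2 e := by
  obtain ⟨u, rfl⟩ := he
  rw [ex2_len]
  exact lt_of_le_of_lt (zero_le' u) (lt_one_smash u).1

theorem one_le_ex2 {e : m} (he : Small e) : 1 ≤ ex2 e := by
  have h := (lt_iff_add_one_le _ _).1 (ex2_pos he)
  rwa [zero_add] at h

theorem ex2_mono {e f : m} (hf : Small f) (h : e ≤ f) : ex2 e ≤ ex2 f := by
  have he := hf.of_le h
  obtain ⟨g, rfl⟩ := exists_add _ _ h
  have hg : Small g := hf.of_le le_add_self
  rw [ex2_add he hg]
  exact le_mul_of_one_le_right (zero_le' _) (one_le_ex2 hg)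

theorem lt_ex2_iff {e : m} (he : Small e) (x : m) : x < ex2 e ↔ len x ≤ e := by
  constructor
  · intro h
    by_contra hc
    push Not at hc
    have h1 := (lt_iff_add_one_le _ _).1 hc
    have hx : x ≠ 0 := by
      rintro rfl
      rw [len_zero] at hc
      exact absurd hc (not_lt.2 (zero_le' e))
    have h2 : ex2 (e + 1) ≤ ex2 (len x) := ex2_mono (small_len x) h1
    rw [ex2_add he small_one, ex2_one, ex2_len] at h2
    rcases (lt_one_smash x).2 with h3 | h3
    · exact hx h3
    · have h4 : 2 * ex2 e ≤ 2 * x := by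
        rw [mul_comm 2 (ex2 e)]
        exact h2.trans h3
      exact absurd ((mul_le_iff two_pos' _ _).1 h4) (not_le.2 h)
  · intro h
    refine lt_of_lt_of_le (lt_one_smash x).1 ?_
    rw [← ex2_len]
    exact ex2_mono he h

theorem ex2_strictMono {e f : m} (hf : Small f) (h : e < f) : ex2 e < ex2 f := by
  rw [lt_ex2_iff hf, len_ex2 (hf.of_le h.le)]
  exact (lt_iff_add_one_le _ _).1 h

theorem smash_eq (u v : m) : smash u v = ex2 (len u * len v) := by
  have hSD : SD (fun e : m => e ≤ len u → ∃ u', u' ≤ u ∧ ∃ w, w ≤ smash u v ∧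
      (len u' = e ∧ (len w = e * len v ∧ smash u' v = smash 1 w))) := by
    refine ⟨2, Fm.or (Fm.not (Fm.le (.var 0) (.len (.var 1))))
      (Fm.ex (.var 1) (Fm.ex (.smash (.var 2) (.var 3))
        (Fm.and (Fm.eq (.len (.var 1)) (.var 2))
          (Fm.and (Fm.eq (.len (.var 0)) (.mul (.var 2) (.len (.var 4))))
            (Fm.eq (.smash (.var 1) (.var 4)) (.smash (.succ .zero) (.var 0))))))), ![u, v],
      Lvl.or (Lvl.not (Lvl.le _ _)) (Lvl.ex _ (Lvl.ex _ (Lvl.and (Lvl.eq _ _)
        (Lvl.and (Lvl.eq _ _) (Lvl.eq _ _))))), ?_⟩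
    intro x
    exact imp_iff_not_or
  have key := hSD.ind ?_ ?_ (len u) le_rfl
  · obtain ⟨u', hu', w, hw, h1, h2, h3⟩ := key
    rw [← h2, ex2_len, ← h3]
    exact (smash_congr v h1).symm
  · intro _
    refine ⟨0, zero_le' _, 0, zero_le' _, len_zero, ?_, ?_⟩
    · rw [len_zero, zero_mul]
    · rw [zero_smash, smash_zero]
  · intro e ih he
    obtain ⟨u', hu', w, hw, h1, h2, h3⟩ := ih ((lt_add_one' e).le.trans he)
    obtain ⟨u'', hu'', h4⟩ := exists_len he
    have h5 : (e + 1) * len v ≤ len (smash u v) := by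
      rw [len_smash]
      exact (mul_le_mul_left he (len v)).trans (lt_add_one' _).le
    obtain ⟨w'', hw'', h6⟩ := exists_len h5
    refine ⟨u'', hu'', w'', hw'', h4, h6, ?_⟩
    have h7 : smash u'' v = smash u' v * smash 1 v := by
      refine smash_split v ?_
      rw [h4, h1, len_one]
    have h8 : smash w'' 1 = smash w 1 * smash v 1 := by
      refine smash_split 1 ?_
      rw [h6, h2]; ring
    rw [h7, h3, smash_comm 1 w, smash_comm 1 v, smash_comm 1 w'', h8]

theorem graph_ex2 {e : m} (he : Small e) (z : m) :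
    z = ex2 e ↔ len z = e + 1 ∧ ∃ v, v ≤ z ∧ (v + 1 = z ∧ len v = e) := by
  constructor
  · rintro rfl
    refine ⟨len_ex2 he, ?_⟩
    obtain ⟨v, hv⟩ := exists_add _ _ (one_le_ex2 he)
    have hv' : v + 1 = ex2 e := by rw [hv, add_comm]
    have hlt : v < ex2 e := by rw [← hv']; exact lt_add_one' v
    refine ⟨v, hlt.le, hv', le_antisymm ((lt_ex2_iff he v).1 hlt) ?_⟩
    by_cases he0 : e = 0
    · rw [he0]; exact zero_le' _
    · have he1 : 1 ≤ e := by
        have h := (lt_iff_add_one_le _ _).1 (lt_of_le_of_ne (zero_le' e) (Ne.symm he0))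
        rwa [zero_add] at h
      obtain ⟨f, hf⟩ := exists_add _ _ he1
      have hfs : Small f := he.of_le (by rw [hf]; exact le_add_self)
      have h1 : ex2 e = 2 * ex2 f := by rw [hf, ex2_add small_one hfs, ex2_one]
      by_contra hc
      push Not at hc
      have h2 : len v ≤ f := by
        refine (le_iff_lt_add_one _ _).2 ?_
        rw [add_comm, ← hf]; exact hc
      have h3 := (lt_ex2_iff hfs v).2 h2
      have h4 := (lt_iff_add_one_le _ _).1 h3
      rw [hv', h1, two_mul] at h4
      exact absurd h4 (not_le.2 (lt_add_of_pos_left _ (ex2_pos hfs)))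
  · rintro ⟨h1, v, -, h2, h3⟩
    refine le_antisymm ?_ ?_
    · rw [← h2]
      exact (lt_iff_add_one_le _ _).1 ((lt_ex2_iff he v).2 h3.le)
    · by_contra hc
      push Not at hc
      have := (lt_ex2_iff he z).1 hc
      rw [h1] at this
      exact absurd this (not_le.2 (lt_add_one' e))

/-- the truncated power of two -/
noncomputable def pw (w q : m) : m := ex2 (min q (len w))

theorem pw_of_le {w q : m} (h : q ≤ len w) : pw w q = ex2 q := by
  rw [pw, min_eq_left h]

theorem pw_le (w q : m) : pw w q ≤ smash 1 w := by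
  rw [pw, ← ex2_len]
  exact ex2_mono (small_len w) (min_le_right _ _)

theorem graph_pw (w q z : m) : z = pw w q ↔
    (q ≤ len w ∧ (len z = q + 1 ∧ ∃ v, v ≤ z ∧ (v + 1 = z ∧ len v = q))) ∨
      (len w ≤ q ∧ z = smash 1 w) := by
  rcases le_total q (len w) with h | h
  · rw [pw_of_le h, graph_ex2 ((small_len w).of_le h)]
    constructor
    · intro h1
      exact Or.inl ⟨h, h1⟩
    · rintro (⟨-, h1⟩ | ⟨h1, h2⟩)
      · exact h1
      · have h3 : q = len w := le_antisymm h h1
        rw [← graph_ex2 ((small_len w).of_le h), h2, h3, ex2_len]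
  · have h1 : pw w q = smash 1 w := by rw [pw, min_eq_right h, ex2_len]
    rw [h1]
    constructor
    · intro h2
      exact Or.inr ⟨h, h2⟩
    · rintro (⟨h2, h3⟩ | ⟨-, h3⟩)
      · have h4 : q = len w := le_antisymm h2 h
        rw [← graph_ex2 ((small_len w).of_le h2), h4, ex2_len] at h3
        exact h3
      · exact h3

/-! ### Division by standard numbers -/

theorem standard_of_le (c : ℕ) (r : m) (h : r ≤ c) : ∃ k : ℕ, k ≤ c ∧ r = k := by
  induction c with
  | zero =>
    refine ⟨0, le_rfl, ?_⟩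
    rw [Nat.cast_zero] at h ⊢
    exact le_antisymm h (zero_le' r)
  | succ c ih =>
    rcases eq_or_lt_of_le h with h1 | h1
    · exact ⟨c + 1, le_rfl, h1⟩
    · rw [Nat.cast_succ] at h1
      obtain ⟨k, hk, hk2⟩ := ih ((le_iff_lt_add_one _ _).2 h1)
      exact ⟨k, Nat.le_succ_of_le hk, hk2⟩

end Mod

/-- numerals -/
def Tm.num {n : ℕ} : ℕ → Tm n
  | 0 => .zero
  | c + 1 => .succ (Tm.num c)

theorem Tm.eval_num (m : Mod) {n : ℕ} (v : Fin n → m) (c : ℕ) :
    (Tm.num c : Tm n).eval m.str v = (c : m) := by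
  induction c with
  | zero => simp only [Tm.num, Tm.eval, Nat.cast_zero, Mod.str_zero]
  | succ c ih => simp only [Tm.num, Tm.eval, ih, Nat.cast_succ, Mod.str_succ]

namespace Mod

variable {m : Mod}

theorem exists_div (c : ℕ) (hc : 0 < c) (x : m) :
    ∃ (q : m) (r : ℕ), r < c ∧ x = c * q + r := by
  have hSD : SD (fun x : m => ∃ q, q ≤ x ∧ ∃ r, r ≤ (c : m) ∧ (r + 1 ≤ c ∧ x = c * q + r)) := by
    refine ⟨0, Fm.ex (.var 0) (Fm.ex (.num c) (Fm.and (Fm.le (.succ (.var 0)) (.num c))
      (Fm.eq (.var 2) (.add (.mul (.num c) (.var 1)) (.var 0))))), Fin.elim0,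
      Lvl.ex _ (Lvl.ex _ (Lvl.and (Lvl.le _ _) (Lvl.eq _ _))), ?_⟩
    intro x
    simp only [Fm.eval, Tm.eval, Tm.eval_num, str_le, str_succ, str_add, str_mul]
    rfl
  have hc1 : (1 : m) ≤ c := by exact_mod_cast hc
  have key := hSD.ind ?_ ?_ x
  · obtain ⟨q, -, r, hr1, hr2, hr3⟩ := key
    obtain ⟨k, hk1, rfl⟩ := standard_of_le c r hr1
    refine ⟨q, k, ?_, hr3⟩
    have h : ((k + 1 : ℕ) : m) ≤ (c : m) := by rw [Nat.cast_succ]; exact hr2
    exact_mod_cast h
  · exact ⟨0, le_rfl, 0, zero_le' _, by rw [zero_add]; exact hc1, by rw [mul_zero, zero_add]⟩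
  · rintro x ⟨q, hq, r, hr1, hr2, hr3⟩
    rcases eq_or_lt_of_le hr2 with h | h
    · refine ⟨q + 1, add_le_add_left hq 1, 0, zero_le' _, by rw [zero_add]; exact hc1, ?_⟩
      rw [hr3, add_zero, mul_add, mul_one, add_assoc, h]
    · refine ⟨q, hq.trans (lt_add_one' x).le, r + 1, hr2, (lt_iff_add_one_le _ _).1 h, ?_⟩
      rw [hr3, add_assoc]

end Mod

end Pool.Agent.TH686.BA
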