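import Pool.Agent.TH686.BA.Terms

/-!
# Formulas linear in the quantified variables
-/

set_option autoImplicit false

namespace Pool.Agent.TH686.BA

open Pool.Agent.TH686.BA.Mod

theorem ad_eq {n K : ℕ} : AD (n := n + 2) (K := K) (fun _ x _ => x 0 = x 1) := by
  refine ⟨.and (.le (.gen 0) (.gen 1)) (.le (.gen 1) (.gen 0)), 0, fun m x e w N ha => ?_⟩
  simp only [EF.eval, Lin.eval]
  exact ⟨fun h => ⟨h.le, h.ge⟩, fun h => le_antisymm h.1 h.2⟩

theorem ad_le {n K : ℕ} : AD (n := n + 2) (K := K) (fun _ x _ => x 0 ≤ x 1) := by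
  refine ⟨.le (.gen 0) (.gen 1), 0, fun m x e w N ha => ?_⟩
  simp only [EF.eval, Lin.eval]

theorem AD.atom {n K N : ℕ} {A : Fin N → Prop} {κ : Fin N → Fin n ⊕ Fin K}
    (hκ : ∀ i, ¬ A i → ∃ j, κ i = Sum.inr j) {s t : Tm N} (hs : s.Fit A) (ht : t.Fit A)
    {R : ∀ m : Mod, m → m → Prop} (hR : AD (n := n + 2) (K := K) (fun m x _ => R m (x 0) (x 1))) :
    AD (fun m (x : Fin n → m) (e : Fin K → m) =>
      R m (s.eval m.str (val κ x e)) (t.eval m.str (val κ x e))) := by
  have hL : ∀ i, ¬ A i → ∃ j, Sum.map Fin.succ id (κ i) = (Sum.inr j : Fin (n + 1) ⊕ Fin K) := by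
    intro i hi
    obtain ⟨j, hj⟩ := hκ i hi
    exact ⟨j, by rw [hj]; rfl⟩
  refine ((Tm.claim A t).2 ht κ hκ ((Tm.claim A s).2 hs _ hL hR)).congr (fun m x e => ?_)
  rw [val_left]
  rfl

theorem val_consR {m : Mod} {N n K : ℕ} (κ : Fin N → Fin n ⊕ Fin K) (x : Fin n → m)
    (e : Fin K → m) (y : m) :
    val (Fin.cons (α := fun _ => Fin n ⊕ Fin (K + 1)) (Sum.inr 0)
      (fun i => Sum.map id Fin.succ (κ i))) x (Fin.cons (α := fun _ => m) y e) =
    Fin.cons (α := fun _ => m.str.carrier) y (val κ x e) := by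
  funext i
  refine Fin.cases ?_ (fun i => ?_) i
  · simp [val]
  · simp only [val, Fin.cons_succ]
    rcases κ i with j | j <;> simp

theorem val_consL {m : Mod} {N n K : ℕ} (κ : Fin N → Fin n ⊕ Fin K) (x : Fin n → m)
    (e : Fin K → m) (y : m) :
    val (Fin.cons (α := fun _ => Fin (n + 1) ⊕ Fin K) (Sum.inl 0)
      (fun i => Sum.map Fin.succ id (κ i))) (Fin.cons (α := fun _ => m) y x) e =
    Fin.cons (α := fun _ => m.str.carrier) y (val κ x e) := by
  funext i
  refine Fin.cases ?_ (fun i => ?_) i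
  · simp [val]
  · simp only [val, Fin.cons_succ]
    rcases κ i with j | j <;> simp

/-- the case of a bounded existential quantifier -/
theorem AD.exq {N : ℕ} (φ : Fm (N + 1)) (A : Fin N → Prop) (t : Tm N) (ht : t.Fit A)
    (ih : ∀ {n K : ℕ} (κ : Fin (N + 1) → Fin n ⊕ Fin K),
      (∀ i, ¬ (Fin.cons (α := fun _ => Prop) (¬ t.IsLen) A : Fin (N + 1) → Prop) i →
        ∃ j, κ i = Sum.inr j) → AD (fun m x e => φ.eval m.str (val κ x e)))
    {n K : ℕ} (κ : Fin N → Fin n ⊕ Fin K) (hκ : ∀ i, ¬ A i → ∃ j, κ i = Sum.inr j) :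
    AD (fun m x e => (Fm.ex t φ).eval m.str (val κ x e)) := by
  by_cases hlen : t.IsLen
  · -- sharply bounded
    obtain ⟨s, rfl⟩ : ∃ s, t = .len s := by
      cases t <;> simp [Tm.IsLen] at hlen
      exact ⟨_, rfl⟩
    have h1 := ih (n := n) (K := K + 1) (Fin.cons (α := fun _ => Fin n ⊕ Fin (K + 1)) (Sum.inr 0)
      (fun i => Sum.map id Fin.succ (κ i))) (by
        intro i
        refine Fin.cases ?_ (fun i => ?_) i
        · intro _
          exact ⟨0, by rw [Fin.cons_zero]⟩
        · intro hi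
          rw [Fin.cons_succ] at hi
          obtain ⟨j, hj⟩ := hκ i hi
          exact ⟨j.succ, by rw [Fin.cons_succ, hj]; rfl⟩)
    have hs : s.Fit A := by simpa [Tm.Fit] using ht
    have h2 := (h1.geTail).sex (n := n + 1) 0
    refine ((Tm.claim A s).2 hs κ hκ h2).congr (fun m x e => ?_)
    simp only [Fm.eval, Tm.eval, Fin.cons_zero, Fin.tail_cons, str_le, str_len]
    refine exists_congr fun f => and_congr Iff.rfl ?_
    rw [val_consR]
  · have h1 := ih (n := n + 1) (K := K) (Fin.cons (α := fun _ => Fin (n + 1) ⊕ Fin K) (Sum.inl 0)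
      (fun i => Sum.map Fin.succ id (κ i))) (by
        intro i
        refine Fin.cases ?_ (fun i => ?_) i
        · intro hi
          rw [Fin.cons_zero] at hi
          exact absurd hlen hi
        · intro hi
          rw [Fin.cons_succ] at hi
          obtain ⟨j, hj⟩ := hκ i hi
          exact ⟨j, by rw [Fin.cons_succ, hj]; rfl⟩)
    have h2 := (h1.geSkip).gex 0
    refine ((Tm.claim A t).2 ht κ hκ h2).congr (fun m x e => ?_)
    simp only [Fm.eval, Fin.cons_zero, Fin.tail_cons, str_le]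
    refine exists_congr fun f => and_congr Iff.rfl ?_
    rw [val_consL]

theorem Fm.claim {N : ℕ} (φ : Fm N) : ∀ (A : Fin N → Prop), φ.Fit A → ∀ {n K : ℕ}
    (κ : Fin N → Fin n ⊕ Fin K), (∀ i, ¬ A i → ∃ j, κ i = Sum.inr j) →
    AD (fun m x e => φ.eval m.str (val κ x e)) := by
  induction φ with
  | eq s t =>
    intro A hA n K κ hκ
    simp only [Fm.Fit] at hA
    exact (AD.atom hκ hA.1 hA.2 (R := fun m x y => x = y) ad_eq).congr
      (fun m x e => by simp only [Fm.eval])
  | le s t =>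
    intro A hA n K κ hκ
    simp only [Fm.Fit] at hA
    exact (AD.atom hκ hA.1 hA.2 (R := fun m x y => x ≤ y) ad_le).congr
      (fun m x e => by simp only [Fm.eval, str_le])
  | not φ ih =>
    intro A hA n K κ hκ
    simp only [Fm.Fit] at hA
    exact (ih A hA κ hκ).not.congr (fun m x e => by simp only [Fm.eval])
  | and φ ψ ih1 ih2 =>
    intro A hA n K κ hκ
    simp only [Fm.Fit] at hA
    exact ((ih1 A hA.1 κ hκ).and (ih2 A hA.2 κ hκ)).congr (fun m x e => by simp only [Fm.eval])
  | or φ ψ ih1 ih2 =>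
    intro A hA n K κ hκ
    simp only [Fm.Fit] at hA
    exact ((ih1 A hA.1 κ hκ).or (ih2 A hA.2 κ hκ)).congr (fun m x e => by simp only [Fm.eval])
  | all t φ ih =>
    intro A hA n K κ hκ
    simp only [Fm.Fit] at hA
    have h := AD.exq (.not φ) A t hA.1 (fun κ' hκ' =>
      (ih _ hA.2 κ' hκ').not.congr (fun m x e => by simp only [Fm.eval])) κ hκ
    refine h.not.congr (fun m x e => ?_)
    simp only [Fm.eval, not_exists, not_and, not_not]
  | ex t φ ih =>
    intro A hA n K κ hκ
    simp only [Fm.Fit] at hA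
    exact AD.exq φ A t hA.1 (fun κ' hκ' => ih _ hA.2 κ' hκ') κ hκ

/-- the sum of all variables -/
def sumTm : ∀ N : ℕ, Tm N
  | 0 => .zero
  | N + 1 => .add (.var 0) (sumTm N).lift

theorem le_sumTm {m : Mod} : ∀ (N : ℕ) (v : Fin N → m) (i : Fin N),
    v i ≤ (sumTm N).eval m.str v
  | 0, _, i => i.elim0
  | N + 1, v, i => by
    have hv : v = Fin.cons (α := fun _ => m.str.carrier) (v 0) (Fin.tail v) :=
      (Fin.cons_self_tail v).symm
    have h1 : (sumTm (N + 1)).eval m.str v = v 0 + (sumTm N).eval m.str (Fin.tail v) := by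
      have h2 : (sumTm N).lift.eval m.str v = (sumTm N).eval m.str (Fin.tail v) := by
        conv_lhs => rw [hv]
        exact Tm.eval_lift m.str (sumTm N) (Fin.tail v) (v 0)
      simp only [sumTm, Tm.eval, h2, str_add]
    rw [h1]
    refine Fin.cases ?_ (fun i => ?_) i
    · exact le_self_add
    · exact (le_sumTm N (Fin.tail v) i).trans le_add_self

/-- a term whose length is at least `(|t| + 2) ^ (c + 1)` -/
def bigTm {N : ℕ} (t : Tm N) : ℕ → Tm N
  | 0 => .succ (.mul (.succ (.succ .zero)) (.succ (.mul (.succ (.succ .zero)) t)))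
  | c + 1 => .smash (bigTm t c) (bigTm t 0)

theorem len_bigTm_zero {m : Mod} {N : ℕ} (t : Tm N) (v : Fin N → m) :
    len ((bigTm t 0).eval m.str v) = len (t.eval m.str v) + 2 := by
  simp only [bigTm, Tm.eval, str_succ, str_mul, str_zero, zero_add, one_add_one_eq_two,
    len_double_add]
  rw [add_assoc, one_add_one_eq_two]

theorem le_len_bigTm {m : Mod} {N : ℕ} (t : Tm N) (c : ℕ) (v : Fin N → m) :
    (len (t.eval m.str v) + 2) ^ (c + 1) ≤ len ((bigTm t c).eval m.str v) := by
  induction c with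
  | zero => rw [len_bigTm_zero, zero_add, pow_one]
  | succ c ih =>
    have h : len ((bigTm t (c + 1)).eval m.str v) =
        len ((bigTm t c).eval m.str v) * len ((bigTm t 0).eval m.str v) + 1 := by
      simp only [bigTm, Tm.eval, str_smash]
      rw [len_smash]
    rw [h, len_bigTm_zero, pow_succ]
    exact (mul_le_mul_left ih _).trans (lt_add_one' _).le

/-- `T^1_2` proves that a bounded formula that is linear in its quantified variables is equivalent
to a `Σᵇ₁` formula and that so is its negation. -/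
theorem Fm.del {N : ℕ} (φ : Fm N) (hφ : φ.Fit (fun _ => False)) :
    Del (fun m v => φ.eval m.str v) := by
  obtain ⟨ψ, c, h⟩ := Fm.claim φ _ hφ (n := 0) (K := N) (fun i => Sum.inr i)
    (fun i _ => ⟨i, rfl⟩)
  refine (ψ.del (N := N) Fin.elim0 .var (bigTm (sumTm N) c)).congr (fun m v => ?_)
  have h1 := h m Fin.elim0 v ((bigTm (sumTm N) c).eval m.str v)
    (len ((sumTm N).eval m.str v)) ⟨fun i => i.elim0, fun i => len_mono (le_sumTm N v i), ?_⟩
  · have e1 : (fun i : Fin 0 => (Fin.elim0 i : Tm N).eval m.str v) = Fin.elim0 := by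
      funext i; exact i.elim0
    simp only [Tm.eval]
    rw [e1]
    exact h1.symm
  · exact (pow_le_pow_right'' (Nat.le_succ c)).trans (le_len_bigTm (sumTm N) c v)

end Pool.Agent.TH686.BA
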