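import Pool.Agent.TH686.BA.Defs

/-!
# Models of `T^1_2` as ordered semirings
-/

set_option autoImplicit false

namespace Pool.Agent.TH686.BA

/-- Models of `T^1_2`. -/
structure Mod where
  str : Str
  isModel : str.IsModelT 1

instance : CoeSort Mod Type := ⟨fun m => m.str.carrier⟩

namespace Mod

variable {m : Mod}

instance : Zero m := ⟨m.str.zero⟩
instance : One m := ⟨m.str.succ m.str.zero⟩
instance : Add m := ⟨m.str.add⟩
instance : Mul m := ⟨m.str.mul⟩
instance : LE m := ⟨m.str.le⟩

def half (x : m) : m := m.str.half x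
def len (x : m) : m := m.str.len x
def smash (x y : m) : m := m.str.smash x y

theorem b (m : Mod) : m.str.Basic := m.isModel.basic

protected theorem add_comm' (x y : m) : x + y = y + x := m.b.b21 x y
protected theorem add_zero' (x : m) : x + 0 = x := m.b.b22 x
protected theorem zero_add' (x : m) : 0 + x = x := by rw [Mod.add_comm', Mod.add_zero']
protected theorem add_assoc' (x y z : m) : x + y + z = x + (y + z) := m.b.b24 x y z

theorem succ_eq (x : m) : m.str.succ x = x + 1 := by
  have h : x + m.str.succ m.str.zero = m.str.succ (x + m.str.zero) := m.b.b23 x m.str.zero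
  have h2 : (x + m.str.zero : m) = x := m.b.b22 x
  rw [h2] at h
  exact h.symm

protected theorem mul_comm' (x y : m) : x * y = y * x := m.b.b28 x y
protected theorem mul_zero' (x : m) : x * 0 = 0 := m.b.b26 x
protected theorem mul_add' (x y z : m) : x * (y + z) = x * y + x * z := m.b.b29 x y z

theorem mul_succ (x y : m) : x * (y + 1) = x * y + x := by
  rw [← succ_eq]; exact m.b.b27 x y

protected theorem mul_one' (x : m) : x * 1 = x := by
  have h := mul_succ x 0
  rw [Mod.zero_add', Mod.mul_zero', Mod.zero_add'] at h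
  exact h

/-- induction for `Σᵇ₁` formulas -/
theorem ind {n : ℕ} (φ : Fm (n + 1)) (hφ : Lvl true 1 φ) (v : Fin n → m)
    (P : m → Prop) (hP : ∀ x, P x ↔ φ.eval m.str (Fin.cons (α := fun _ => m.str.carrier) x v))
    (h0 : P 0) (hs : ∀ x, P x → P (x + 1)) (x : m) : P x := by
  rw [hP]
  refine m.isModel.ind n φ hφ v ((hP _).1 h0) ?_ x
  intro y hy
  rw [succ_eq]
  exact (hP _).1 (hs y ((hP _).2 hy))

protected theorem mul_assoc' (x y z : m) : x * y * z = x * (y * z) := by
  refine ind (n := 2) (Fm.eq (Tm.mul (Tm.mul (Tm.var 1) (Tm.var 2)) (Tm.var 0))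
    (Tm.mul (Tm.var 1) (Tm.mul (Tm.var 2) (Tm.var 0)))) (Lvl.eq _ _) ![x, y]
    (fun z => x * y * z = x * (y * z)) (fun z => Iff.rfl) ?_ ?_ z
  · show x * y * 0 = x * (y * 0)
    rw [Mod.mul_zero', Mod.mul_zero', Mod.mul_zero']
  · intro z hz
    show x * y * (z + 1) = x * (y * (z + 1))
    rw [mul_succ, mul_succ, Mod.mul_add', hz]

instance instCSR : CommSemiring m where
  add_assoc := Mod.add_assoc'
  zero_add := Mod.zero_add'
  add_zero := Mod.add_zero'
  add_comm := Mod.add_comm'
  mul_assoc := Mod.mul_assoc'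
  one_mul x := by rw [Mod.mul_comm', Mod.mul_one']
  mul_one := Mod.mul_one'
  left_distrib := Mod.mul_add'
  right_distrib x y z := by
    rw [Mod.mul_comm', Mod.mul_add', Mod.mul_comm' z x, Mod.mul_comm' z y]
  zero_mul x := by rw [Mod.mul_comm', Mod.mul_zero']
  mul_zero := Mod.mul_zero'
  mul_comm := Mod.mul_comm'
  nsmul := nsmulRec

theorem two_eq : (2 : m) = m.str.succ (m.str.succ m.str.zero) := by
  rw [succ_eq]
  show (2 : m) = (1 : m) + 1
  exact (one_add_one_eq_two).symm

noncomputable instance instLO : LinearOrder m where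
  le_refl x := by
    rcases m.b.b6 x x with h | h <;> exact h
  le_trans x y z h1 h2 := m.b.b8 x y z ⟨h1, h2⟩
  le_antisymm x y h1 h2 := m.b.b7 x y ⟨h1, h2⟩
  le_total x y := by
    rcases m.b.b6 x y with h | h
    · exact Or.inr h
    · exact Or.inl h
  toDecidableLE := Classical.decRel _

theorem zero_le' (x : m) : 0 ≤ x := m.b.b3 x

theorem lt_iff_add_one_le (x y : m) : x < y ↔ x + 1 ≤ y := by
  rw [lt_iff_le_and_ne, ← succ_eq]
  exact m.b.b4 x y

theorem ne_add_one (x : m) : x ≠ x + 1 := by
  rw [← succ_eq]; exact m.b.b2 x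

theorem lt_add_one' (x : m) : x < x + 1 := (lt_iff_add_one_le _ _).2 le_rfl

theorem le_iff_lt_add_one (x y : m) : x ≤ y ↔ x < y + 1 := by
  constructor
  · intro h
    exact lt_of_le_of_lt h (lt_add_one' y)
  · intro h
    by_contra hc
    push Not at hc
    have h1 := (lt_iff_add_one_le _ _).1 hc
    exact absurd (lt_of_lt_of_le h h1) (lt_irrefl _)

theorem add_le_iff (x y z : m) : x + y ≤ x + z ↔ y ≤ z := m.b.b25 x y z

theorem zero_lt_one' : (0 : m) < 1 := by
  have h := lt_add_one' (0 : m)
  rwa [zero_add] at h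

theorem mul_le_iff {x : m} (hx : 0 < x) (y z : m) : x * y ≤ x * z ↔ y ≤ z := by
  refine m.b.b30 x y z ?_
  have h := (lt_iff_add_one_le 0 x).1 hx
  rw [zero_add] at h
  exact h

instance : IsOrderedAddMonoid m where
  add_le_add_left x y h z := by
    rw [add_comm x z, add_comm y z]
    exact (add_le_iff z x y).2 h

instance : IsOrderedCancelAddMonoid m where
  le_of_add_le_add_left x y z h := (add_le_iff x y z).1 h

instance : Nontrivial m := ⟨0, 1, zero_lt_one'.ne⟩

instance : IsStrictOrderedRing m where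
  zero_le_one := zero_lt_one'.le
  le_of_add_le_add_left x y z h := (add_le_iff x y z).1 h
  mul_lt_mul_of_pos_left := by
    intro x hx y z h
    exact lt_of_not_ge fun hc => absurd ((mul_le_iff hx _ _).1 hc) (not_le.2 h)
  mul_lt_mul_of_pos_right := by
    intro x hx y z h
    show y * x < z * x
    rw [mul_comm y x, mul_comm z x]
    exact lt_of_not_ge fun hc => absurd ((mul_le_iff hx _ _).1 hc) (not_le.2 h)

/-- subtraction -/
theorem exists_add (x y : m) (h : x ≤ y) : ∃ z, y = x + z := by
  have key : ∀ y : m, x ≤ y → ∃ z, z ≤ y ∧ y = x + z := by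
    refine ind (n := 1) (Fm.or (Fm.not (Fm.le (Tm.var 1) (Tm.var 0)))
      (Fm.ex (Tm.var 0) (Fm.eq (Tm.var 1) (Tm.add (Tm.var 2) (Tm.var 0)))))
      (Lvl.or (Lvl.not (Lvl.le _ _)) (Lvl.ex _ (Lvl.eq _ _))) ![x]
      (fun y => x ≤ y → ∃ z, z ≤ y ∧ y = x + z) (fun y => ?_) ?_ ?_
    · exact imp_iff_not_or
    · intro h
      have : x = 0 := le_antisymm h (zero_le' x)
      exact ⟨0, le_rfl, by rw [this, add_zero]⟩
    · intro y ih h
      rcases eq_or_lt_of_le h with h1 | h1
      · exact ⟨0, zero_le' _, by rw [add_zero, h1]⟩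
      · obtain ⟨z, hz, hz2⟩ := ih ((le_iff_lt_add_one _ _).2 h1)
        refine ⟨z + 1, ?_, ?_⟩
        · exact add_le_add_left hz 1
        · rw [hz2, add_assoc]
  obtain ⟨z, -, hz⟩ := key y h
  exact ⟨z, hz⟩

instance : CanonicallyOrderedAdd m where
  exists_add_of_le := fun {x y} h => exists_add x y h
  le_self_add := fun x y => m.b.b19 x y
  le_add_self := fun x y => by
    rw [add_comm]
    exact m.b.b19 x y

end Mod

end Pool.Agent.TH686.BA
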