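import Pool.Agent.TH686.BA.Mod

/-!
# Substitution of terms, and derived forms of induction
-/

set_option autoImplicit false

namespace Pool.Agent.TH686.BA

/-- substitution in terms -/
def Tm.sub {n k : ℕ} (σ : Fin n → Tm k) : Tm n → Tm k
  | .var i => σ i
  | .zero => .zero
  | .succ t => .succ (t.sub σ)
  | .add s t => .add (s.sub σ) (t.sub σ)
  | .mul s t => .mul (s.sub σ) (t.sub σ)
  | .half t => .half (t.sub σ)
  | .len t => .len (t.sub σ)
  | .smash s t => .smash (s.sub σ) (t.sub σ)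

theorem Tm.eval_sub (M : Str) {n k : ℕ} (σ : Fin n → Tm k) (v : Fin k → M.carrier) (t : Tm n) :
    (t.sub σ).eval M v = t.eval M (fun i => (σ i).eval M v) := by
  induction t with
  | var i => rfl
  | zero => rfl
  | succ t ih => simp only [Tm.sub, Tm.eval, ih]
  | add s t ih1 ih2 => simp only [Tm.sub, Tm.eval, ih1, ih2]
  | mul s t ih1 ih2 => simp only [Tm.sub, Tm.eval, ih1, ih2]
  | half t ih => simp only [Tm.sub, Tm.eval, ih]
  | len t ih => simp only [Tm.sub, Tm.eval, ih]
  | smash s t ih1 ih2 => simp only [Tm.sub, Tm.eval, ih1, ih2]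

/-- one more variable, with index `0` -/
def Tm.lift {n : ℕ} (t : Tm n) : Tm (n + 1) := t.sub (fun i => .var i.succ)

theorem Tm.eval_lift (M : Str) {n : ℕ} (t : Tm n) (v : Fin n → M.carrier) (y : M.carrier) :
    t.lift.eval M (Fin.cons (α := fun _ => M.carrier) y v) = t.eval M v := by
  rw [Tm.lift, Tm.eval_sub]
  simp only [Tm.eval, Fin.cons_succ]

/-- lifting a substitution under a quantifier -/
def liftSub {n k : ℕ} (σ : Fin n → Tm k) : Fin (n + 1) → Tm (k + 1) :=
  Fin.cons (α := fun _ => Tm (k + 1)) (.var 0) (fun i => (σ i).lift)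

theorem eval_liftSub (M : Str) {n k : ℕ} (σ : Fin n → Tm k) (v : Fin k → M.carrier)
    (y : M.carrier) :
    (fun i => (liftSub σ i).eval M (Fin.cons (α := fun _ => M.carrier) y v)) =
      Fin.cons (α := fun _ => M.carrier) y (fun i => (σ i).eval M v) := by
  funext i
  refine Fin.cases ?_ (fun i => ?_) i
  · simp only [liftSub, Fin.cons_zero, Tm.eval]
  · simp only [liftSub, Fin.cons_succ, Tm.eval_lift]

/-- substitution in formulas -/
def Fm.sub : ∀ {n k : ℕ}, (Fin n → Tm k) → Fm n → Fm k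
  | _, _, σ, .eq s t => .eq (s.sub σ) (t.sub σ)
  | _, _, σ, .le s t => .le (s.sub σ) (t.sub σ)
  | _, _, σ, .not φ => .not (φ.sub σ)
  | _, _, σ, .and φ ψ => .and (φ.sub σ) (ψ.sub σ)
  | _, _, σ, .or φ ψ => .or (φ.sub σ) (ψ.sub σ)
  | _, _, σ, .all t φ => .all (t.sub σ) (φ.sub (liftSub σ))
  | _, _, σ, .ex t φ => .ex (t.sub σ) (φ.sub (liftSub σ))

theorem Fm.eval_sub (M : Str) {n : ℕ} (φ : Fm n) : ∀ {k : ℕ} (σ : Fin n → Tm k)
    (v : Fin k → M.carrier),
    (φ.sub σ).eval M v ↔ φ.eval M (fun i => (σ i).eval M v) := by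
  induction φ with
  | eq s t => intro k σ v; simp only [Fm.sub, Fm.eval, Tm.eval_sub]
  | le s t => intro k σ v; simp only [Fm.sub, Fm.eval, Tm.eval_sub]
  | not φ ih => intro k σ v; simp only [Fm.sub, Fm.eval, ih]
  | and φ ψ ih1 ih2 => intro k σ v; simp only [Fm.sub, Fm.eval, ih1, ih2]
  | or φ ψ ih1 ih2 => intro k σ v; simp only [Fm.sub, Fm.eval, ih1, ih2]
  | all t φ ih => intro k σ v; simp only [Fm.sub, Fm.eval, ih, Tm.eval_sub, eval_liftSub]
  | ex t φ ih => intro k σ v; simp only [Fm.sub, Fm.eval, ih, Tm.eval_sub, eval_liftSub]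

theorem Lvl.sub {b : Bool} {i n : ℕ} {φ : Fm n} (h : Lvl b i φ) :
    ∀ {k : ℕ} (σ : Fin n → Tm k), Lvl b i (φ.sub σ) := by
  induction h with
  | eq s t => intro k σ; exact Lvl.eq _ _
  | le s t => intro k σ; exact Lvl.le _ _
  | not h ih => intro k σ; exact Lvl.not (ih σ)
  | and h1 h2 ih1 ih2 => intro k σ; exact Lvl.and (ih1 σ) (ih2 σ)
  | or h1 h2 ih1 ih2 => intro k σ; exact Lvl.or (ih1 σ) (ih2 σ)
  | sall t h ih => intro k σ; exact Lvl.sall _ (ih _)
  | sex t h ih => intro k σ; exact Lvl.sex _ (ih _)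
  | all t h ih => intro k σ; exact Lvl.all _ (ih _)
  | ex t h ih => intro k σ; exact Lvl.ex _ (ih _)
  | up h ih => intro k σ; exact Lvl.up (ih σ)

namespace Mod

variable {m : Mod}

@[simp] theorem str_le (x y : m) : m.str.le x y ↔ x ≤ y := Iff.rfl
@[simp] theorem str_add (x y : m) : m.str.add x y = x + y := rfl
@[simp] theorem str_mul (x y : m) : m.str.mul x y = x * y := rfl
@[simp] theorem str_succ (x : m) : m.str.succ x = x + 1 := succ_eq x
@[simp] theorem str_zero : m.str.zero = (0 : m) := rfl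
@[simp] theorem str_half (x : m) : m.str.half x = half x := rfl
@[simp] theorem str_len (x : m) : m.str.len x = len x := rfl
@[simp] theorem str_smash (x y : m) : m.str.smash x y = smash x y := rfl

/-- A set of elements is definable by a `Σᵇ₁` formula with parameters. -/
def SD (P : m → Prop) : Prop :=
  ∃ (n : ℕ) (φ : Fm (n + 1)) (v : Fin n → m), Lvl true 1 φ ∧
    ∀ x, P x ↔ φ.eval m.str (Fin.cons (α := fun _ => m.str.carrier) x v)

theorem SD.ind {P : m → Prop} (hP : SD P) (h0 : P 0) (hs : ∀ x, P x → P (x + 1)) (x : m) :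
    P x := by
  obtain ⟨n, φ, v, hφ, h⟩ := hP
  exact Mod.ind φ hφ v P h h0 hs x

/-- Maximum principle: a `Σᵇ₁`-definable set which has an element below `a` has a largest element
below `a`. -/
theorem SD.max {P : m → Prop} (hP : SD P) {a x : m} (hx : P x) (hxa : x < a) :
    ∃ y, P y ∧ y < a ∧ ∀ z, P z → z < a → z ≤ y := by
  by_contra hcon
  push Not at hcon
  obtain ⟨n, φ, v, hφ, h⟩ := hP
  -- `Q u`: there is `z ≤ a` with `u ≤ z`, `z + 1 ≤ a` and `P z`
  let σ : Fin (n + 1) → Tm (n + 3) :=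
    Fin.cons (α := fun _ => Tm (n + 3)) (.var 0) (fun i => .var i.succ.succ.succ)
  have hQ : SD (fun u : m => ∃ z, z ≤ a ∧ (u ≤ z ∧ (z + 1 ≤ a ∧ P z))) := by
    refine ⟨n + 1, Fm.ex (.var 1) (Fm.and (Fm.le (.var 1) (.var 0))
      (Fm.and (Fm.le (.succ (.var 0)) (.var 2)) (φ.sub σ))),
      Fin.cons (α := fun _ => m.str.carrier) a v,
      Lvl.ex _ (Lvl.and (Lvl.le _ _) (Lvl.and (Lvl.le _ _) (hφ.sub σ))), ?_⟩
    intro u
    simp only [Fm.eval, Tm.eval, Fm.eval_sub, str_le, str_succ]
    refine exists_congr fun z => ?_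
    have e : (fun i => (σ i).eval m.str (Fin.cons (α := fun _ => m.str.carrier) z
        (Fin.cons (α := fun _ => m.str.carrier) u
          (Fin.cons (α := fun _ => m.str.carrier) a v)))) =
        Fin.cons (α := fun _ => m.str.carrier) z v := by
      funext i
      refine Fin.cases ?_ (fun i => ?_) i
      · simp only [σ, Fin.cons_zero, Tm.eval]
      · simp only [σ, Fin.cons_succ, Tm.eval]
    rw [e, ← h z]
    rfl
  have key : ∀ u : m, ∃ z, z ≤ a ∧ (u ≤ z ∧ (z + 1 ≤ a ∧ P z)) := by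
    refine hQ.ind ?_ ?_
    · exact ⟨x, hxa.le, zero_le' x, (lt_iff_add_one_le _ _).1 hxa, hx⟩
    · rintro u ⟨z, hz1, hz2, hz3, hz4⟩
      obtain ⟨y, hy1, hy2, hy3⟩ := hcon z hz4 ((lt_iff_add_one_le _ _).2 hz3)
      exact ⟨y, hy2.le, (lt_iff_add_one_le _ _).1 (lt_of_le_of_lt hz2 hy3),
        (lt_iff_add_one_le _ _).1 hy2, hy1⟩
  obtain ⟨z, hz1, hz2, -, -⟩ := key (a + 1)
  exact absurd (lt_of_lt_of_le (lt_add_one' a) (hz2.trans hz1)) (lt_irrefl _)

/-- Least element principle for sets whose complement is `Σᵇ₁`-definable... stated as strong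
induction for sets with `Σᵇ₁`-definable complement. -/
theorem strongInd {P : m → Prop} (hP : SD (fun x => ¬ P x))
    (hs : ∀ x, (∀ y, y < x → P y) → P x) (x : m) : P x := by
  by_contra hx
  obtain ⟨n, φ, v, hφ, h⟩ := hP
  -- `Q u`: there are `y ≤ x` and `z ≤ y` with `u + y = x` and `¬ P z`
  let σ : Fin (n + 1) → Tm (n + 4) :=
    Fin.cons (α := fun _ => Tm (n + 4)) (.var 0) (fun i => .var i.succ.succ.succ.succ)
  have hQ : SD (fun u : m => x + 1 ≤ u ∨ ∃ y, y ≤ x ∧ ((u + y = x) ∧
      ∃ z, z ≤ y ∧ ¬ P z)) := by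
    refine ⟨n + 1, Fm.or (Fm.le (.succ (.var 1)) (.var 0))
      (Fm.ex (.var 1) (Fm.and (Fm.eq (.add (.var 1) (.var 0)) (.var 2))
      (Fm.ex (.var 0) (φ.sub σ)))),
      Fin.cons (α := fun _ => m.str.carrier) x v,
      Lvl.or (Lvl.le _ _) (Lvl.ex _ (Lvl.and (Lvl.eq _ _) (Lvl.ex _ (hφ.sub σ)))), ?_⟩
    intro u
    simp only [Fm.eval, Tm.eval, Fm.eval_sub, str_le, str_succ, str_add]
    refine or_congr Iff.rfl (exists_congr fun y => and_congr Iff.rfl
      (and_congr Iff.rfl (exists_congr fun z => ?_)))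
    have e : (fun i => (σ i).eval m.str (Fin.cons (α := fun _ => m.str.carrier) z
        (Fin.cons (α := fun _ => m.str.carrier) y (Fin.cons (α := fun _ => m.str.carrier) u
          (Fin.cons (α := fun _ => m.str.carrier) x v))))) =
        Fin.cons (α := fun _ => m.str.carrier) z v := by
      funext i
      refine Fin.cases ?_ (fun i => ?_) i
      · simp only [σ, Fin.cons_zero, Tm.eval]
      · simp only [σ, Fin.cons_succ, Tm.eval]
    rw [e, ← h z]
    rfl
  have key := hQ.ind (Or.inr ⟨x, le_rfl, zero_add x, x, le_rfl, hx⟩) (by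
    rintro u (h1 | ⟨y, hy1, hy2, z, hz1, hz2⟩)
    · exact Or.inl (h1.trans (lt_add_one' u).le)
    · by_cases hy : y = 0
      · left
        rw [hy, add_zero] at hy2
        rw [hy2]
      · right
        have hy0 : 0 < y := lt_of_le_of_ne (zero_le' y) (Ne.symm hy)
        have h1 := (lt_iff_add_one_le 0 y).1 hy0
        rw [zero_add] at h1
        obtain ⟨y', hy'⟩ := exists_add _ _ h1
        have hlt : y' < y := by
          rw [hy', add_comm]; exact lt_add_one' y'
        refine ⟨y', hlt.le.trans hy1, ?_, ?_⟩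
        · rw [← hy2, hy']; ring
        · -- some `z' ≤ y'` with `¬ P z'`
          by_contra hc
          push Not at hc
          apply hz2
          rcases lt_or_ge z y with h2 | h2
          · apply hc
            have : z < y' + 1 := by rw [add_comm, ← hy']; exact h2
            exact (le_iff_lt_add_one _ _).2 this
          · have hzy : z = y := le_antisymm hz1 h2
            rw [hzy]
            apply hs
            intro w hw
            apply hc
            have : w < y' + 1 := by rw [add_comm, ← hy']; exact hw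
            exact (le_iff_lt_add_one _ _).2 this)
  rcases key x with h1 | ⟨y, hy1, hy2, z, hz1, hz2⟩
  · exact absurd (lt_of_lt_of_le (lt_add_one' x) h1) (lt_irrefl _)
  · have hy : y = 0 := by
      have : x + y = x + 0 := by rw [hy2, add_zero]
      exact add_left_cancel this
    rw [hy] at hz1
    have hz : z = 0 := le_antisymm hz1 (zero_le' z)
    apply hz2
    rw [hz]
    apply hs
    intro w hw
    exact absurd hw (not_lt.2 (zero_le' w))

end Mod

end Pool.Agent.TH686.BA
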