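import Pool.Agent.TH686.BA.AD

/-!
# Substitution of `Fit` and `Mild` terms in definable relations
-/

set_option autoImplicit false

namespace Pool.Agent.TH686.BA

open Pool.Agent.TH686.BA.Mod

section subs

variable {n K : ℕ}

theorem len_le_pow_one {m : Mod} {x N : m} (h : len x ≤ N) : len x ≤ (N + 2) ^ 1 :=
  h.trans (self_le_pow N)

theorem one_le_pow' {m : Mod} (N : m) (c : ℕ) : 1 ≤ (N + 2) ^ c := by
  have := pow_le_pow_right'' (N := N) (Nat.zero_le c)
  rwa [pow_zero] at this

/-- opaque substitutions -/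
theorem AD.op {K' : ℕ} {R : ∀ m : Mod, (Fin n → m) → (Fin K → m) → Prop} (hR : AD R)
    (τ : Fin K → Op K') (F : ∀ m : Mod, (Fin K' → m) → (Fin K → m))
    (hF : ∀ (m : Mod) (e : Fin K' → m) (w : m), (fun j => (τ j).eval e w) = F m e)
    (hb : ∀ (m : Mod) (e : Fin K' → m) (N : m), (∀ i, Mod.len (e i) ≤ N) →
      ∀ j, Mod.len (F m e j) ≤ (N + 2) ^ 2) :
    AD (fun m x e => R m x (F m e)) := by
  refine hR.sub .gen τ 2 (fun m x e w N h1 h2 => ⟨fun i => ?_, fun j => ?_, ?_⟩)
  · simp only [Lin.eval]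
    exact (h1 i).trans ((self_le_pow N).trans (pow_le_pow_right'' (by norm_num)))
  · rw [show (τ j).eval e w = F m e j from congrFun (hF m e w) j]
    exact hb m e N h2 j
  · rw [hF]
    rfl

theorem bound_var {m : Mod} {x N : m} (h : len x ≤ N) : len x ≤ (N + 2) ^ 2 :=
  h.trans ((self_le_pow N).trans (pow_le_pow_right'' (by norm_num)))

theorem bound_zero {m : Mod} (N : m) : len (0 : m) ≤ (N + 2) ^ 2 := by
  rw [len_zero]; exact Mod.zero_le' _

theorem bound_succ {m : Mod} {x N : m} (h : len x ≤ N) : len (x + 1) ≤ (N + 2) ^ 2 := by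
  refine (len_add_one_le x).trans ?_
  have h1 : (N + 2) ^ 2 = N + 1 + (N * N + 3 * N + 3) := by ring
  rw [h1]
  exact (add_le_add_left h 1).trans le_self_add

theorem bound_half {m : Mod} {x N : m} (h : len x ≤ N) : len (Mod.half x) ≤ (N + 2) ^ 2 :=
  (len_mono (half_le x)).trans (bound_var h)

theorem bound_add {m : Mod} {x y N : m} (h : len x ≤ N) (h' : len y ≤ N) :
    len (x + y) ≤ (N + 2) ^ 2 := by
  refine (len_add_le x y).trans ?_
  have h1 : (N + 2) ^ 2 = N + N + 1 + (N * N + 2 * N + 3) := by ring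
  rw [h1]
  exact (add_le_add_left (add_le_add h h') 1).trans le_self_add

theorem bound_mul {m : Mod} {x y N : m} (h : len x ≤ N) (h' : len y ≤ N) :
    len (x * y) ≤ (N + 2) ^ 2 := by
  refine (len_mul_le x y).trans ?_
  have h1 : (N + 2) ^ 2 = N + N + (N * N + 2 * N + 4) := by ring
  rw [h1]
  exact (add_le_add h h').trans le_self_add

theorem AD.opVar {R : ∀ m : Mod, (Fin n → m) → (Fin (K + 1) → m) → Prop} (hR : AD R)
    (j : Fin K) : AD (fun m x e => R m x (Fin.cons (α := fun _ => m) (e j) e)) := by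
  refine hR.op (Fin.cons (α := fun _ => Op K) (.var j) .var)
    (fun m e => Fin.cons (α := fun _ => m) (e j) e) (fun m e w => ?_) (fun m e N h i => ?_)
  · funext i
    refine Fin.cases ?_ (fun i => ?_) i <;> simp [Op.eval]
  · refine Fin.cases ?_ (fun i => ?_) i
    · simpa using bound_var (h j)
    · simpa using bound_var (h i)

theorem AD.opZero {R : ∀ m : Mod, (Fin n → m) → (Fin (K + 1) → m) → Prop} (hR : AD R) :
    AD (fun m x e => R m x (Fin.cons (α := fun _ => m) 0 e)) := by
  refine hR.op (Fin.cons (α := fun _ => Op K) .zero .var)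
    (fun m e => Fin.cons (α := fun _ => m) 0 e) (fun m e w => ?_) (fun m e N h i => ?_)
  · funext i
    refine Fin.cases ?_ (fun i => ?_) i <;> simp [Op.eval]
  · refine Fin.cases ?_ (fun i => ?_) i
    · simpa using bound_zero N
    · simpa using bound_var (h i)

theorem AD.opSucc {R : ∀ m : Mod, (Fin n → m) → (Fin (K + 1) → m) → Prop} (hR : AD R) :
    AD (fun m x (e : Fin (K + 1) → m) =>
      R m x (Fin.cons (α := fun _ => m) (e 0 + 1) (Fin.tail e))) := by
  refine hR.op (Fin.cons (α := fun _ => Op (K + 1)) (.succ (.var 0)) (fun j => .var j.succ))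
    (fun m e => Fin.cons (α := fun _ => m) (e 0 + 1) (Fin.tail e)) (fun m e w => ?_)
    (fun m e N h i => ?_)
  · funext i
    refine Fin.cases ?_ (fun i => ?_) i <;> simp [Op.eval, Fin.tail]
  · refine Fin.cases ?_ (fun i => ?_) i
    · simpa using bound_succ (h 0)
    · simpa [Fin.tail] using bound_var (h i.succ)

theorem AD.opHalf {R : ∀ m : Mod, (Fin n → m) → (Fin (K + 1) → m) → Prop} (hR : AD R) :
    AD (fun m x (e : Fin (K + 1) → m) =>
      R m x (Fin.cons (α := fun _ => m) (Mod.half (e 0)) (Fin.tail e))) := by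
  refine hR.op (Fin.cons (α := fun _ => Op (K + 1)) (.half (.var 0)) (fun j => .var j.succ))
    (fun m e => Fin.cons (α := fun _ => m) (Mod.half (e 0)) (Fin.tail e)) (fun m e w => ?_)
    (fun m e N h i => ?_)
  · funext i
    refine Fin.cases ?_ (fun i => ?_) i <;> simp [Op.eval, Fin.tail]
  · refine Fin.cases ?_ (fun i => ?_) i
    · simpa using bound_half (h 0)
    · simpa [Fin.tail] using bound_var (h i.succ)

theorem AD.opAdd {R : ∀ m : Mod, (Fin n → m) → (Fin (K + 1) → m) → Prop} (hR : AD R) :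
    AD (fun m x (e : Fin (K + 2) → m) =>
      R m x (Fin.cons (α := fun _ => m) (e 0 + e 1) (Fin.tail (Fin.tail e)))) := by
  refine hR.op (Fin.cons (α := fun _ => Op (K + 2)) (.add (.var 0) (.var 1))
      (fun j => .var j.succ.succ))
    (fun m e => Fin.cons (α := fun _ => m) (e 0 + e 1) (Fin.tail (Fin.tail e)))
    (fun m e w => ?_) (fun m e N h i => ?_)
  · funext i
    refine Fin.cases ?_ (fun i => ?_) i <;> simp [Op.eval, Fin.tail]
  · refine Fin.cases ?_ (fun i => ?_) i
    · simpa using bound_add (h 0) (h 1)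
    · simpa [Fin.tail] using bound_var (h i.succ.succ)

theorem AD.opMul {R : ∀ m : Mod, (Fin n → m) → (Fin (K + 1) → m) → Prop} (hR : AD R) :
    AD (fun m x (e : Fin (K + 2) → m) =>
      R m x (Fin.cons (α := fun _ => m) (e 0 * e 1) (Fin.tail (Fin.tail e)))) := by
  refine hR.op (Fin.cons (α := fun _ => Op (K + 2)) (.mul (.var 0) (.var 1))
      (fun j => .var j.succ.succ))
    (fun m e => Fin.cons (α := fun _ => m) (e 0 * e 1) (Fin.tail (Fin.tail e)))
    (fun m e w => ?_) (fun m e N h i => ?_)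
  · funext i
    refine Fin.cases ?_ (fun i => ?_) i <;> simp [Op.eval, Fin.tail]
  · refine Fin.cases ?_ (fun i => ?_) i
    · simpa using bound_mul (h 0) (h 1)
    · simpa [Fin.tail] using bound_var (h i.succ.succ)

/-- general substitutions -/
theorem AD.ge {n' : ℕ} {R : ∀ m : Mod, (Fin n → m) → (Fin K → m) → Prop} (hR : AD R)
    (σ : Fin n → Lin n' K) (F : ∀ m : Mod, (Fin n' → m) → (Fin K → m) → (Fin n → m))
    (hF : ∀ (m : Mod) (x : Fin n' → m) (e : Fin K → m) (w : m),
      (fun i => (σ i).eval x e w) = F m x e)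
    (hb : ∀ (m : Mod) (x : Fin n' → m) (e : Fin K → m) (N : m), (∀ i, Mod.len (x i) ≤ N) →
      (∀ i, Mod.len (e i) ≤ N) → ∀ j, Mod.len (F m x e j) ≤ (N + 2) ^ 2) :
    AD (fun m x e => R m (F m x e) e) := by
  refine hR.sub σ .var 2 (fun m x e w N h1 h2 => ⟨fun i => ?_, fun j => ?_, ?_⟩)
  · rw [show (σ i).eval x e w = F m x e i from congrFun (hF m x e w) i]
    exact hb m x e N h1 h2 i
  · simp only [Op.eval]
    exact bound_var (h2 j)
  · rw [hF]
    rfl

theorem AD.geVar {R : ∀ m : Mod, (Fin (n + 1) → m) → (Fin K → m) → Prop} (hR : AD R)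
    (j : Fin n) : AD (fun m x e => R m (Fin.cons (α := fun _ => m) (x j) x) e) := by
  refine hR.ge (Fin.cons (α := fun _ => Lin n K) (.gen j) .gen)
    (fun m x e => Fin.cons (α := fun _ => m) (x j) x) (fun m x e w => ?_)
    (fun m x e N h h' i => ?_)
  · funext i
    refine Fin.cases ?_ (fun i => ?_) i <;> simp [Lin.eval]
  · refine Fin.cases ?_ (fun i => ?_) i
    · simpa using bound_var (h j)
    · simpa using bound_var (h i)

theorem AD.geOp {R : ∀ m : Mod, (Fin (n + 1) → m) → (Fin K → m) → Prop} (hR : AD R)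
    (j : Fin K) : AD (fun m x e => R m (Fin.cons (α := fun _ => m) (e j) x) e) := by
  refine hR.ge (Fin.cons (α := fun _ => Lin n K) (.op (.var j)) .gen)
    (fun m x e => Fin.cons (α := fun _ => m) (e j) x) (fun m x e w => ?_)
    (fun m x e N h h' i => ?_)
  · funext i
    refine Fin.cases ?_ (fun i => ?_) i <;> simp [Lin.eval, Op.eval]
  · refine Fin.cases ?_ (fun i => ?_) i
    · simpa using bound_var (h' j)
    · simpa using bound_var (h i)

theorem AD.geZero {R : ∀ m : Mod, (Fin (n + 1) → m) → (Fin K → m) → Prop} (hR : AD R) :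
    AD (fun m x e => R m (Fin.cons (α := fun _ => m) 0 x) e) := by
  refine hR.ge (Fin.cons (α := fun _ => Lin n K) (.op .zero) .gen)
    (fun m x e => Fin.cons (α := fun _ => m) 0 x) (fun m x e w => ?_)
    (fun m x e N h h' i => ?_)
  · funext i
    refine Fin.cases ?_ (fun i => ?_) i <;> simp [Lin.eval, Op.eval]
  · refine Fin.cases ?_ (fun i => ?_) i
    · simpa using bound_zero N
    · simpa using bound_var (h i)

theorem AD.geSucc {R : ∀ m : Mod, (Fin (n + 1) → m) → (Fin K → m) → Prop} (hR : AD R) :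
    AD (fun m (x : Fin (n + 1) → m) e =>
      R m (Fin.cons (α := fun _ => m) (x 0 + 1) (Fin.tail x)) e) := by
  refine hR.ge (Fin.cons (α := fun _ => Lin (n + 1) K) (.add (.gen 0) (.op (.succ .zero)))
      (fun i => .gen i.succ))
    (fun m x e => Fin.cons (α := fun _ => m) (x 0 + 1) (Fin.tail x)) (fun m x e w => ?_)
    (fun m x e N h h' i => ?_)
  · funext i
    refine Fin.cases ?_ (fun i => ?_) i <;> simp [Lin.eval, Op.eval, Fin.tail]
  · refine Fin.cases ?_ (fun i => ?_) i
    · simpa using bound_succ (h 0)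
    · simpa [Fin.tail] using bound_var (h i.succ)

theorem AD.geAdd {R : ∀ m : Mod, (Fin (n + 1) → m) → (Fin K → m) → Prop} (hR : AD R) :
    AD (fun m (x : Fin (n + 2) → m) e =>
      R m (Fin.cons (α := fun _ => m) (x 0 + x 1) (Fin.tail (Fin.tail x))) e) := by
  refine hR.ge (Fin.cons (α := fun _ => Lin (n + 2) K) (.add (.gen 0) (.gen 1))
      (fun i => .gen i.succ.succ))
    (fun m x e => Fin.cons (α := fun _ => m) (x 0 + x 1) (Fin.tail (Fin.tail x)))
    (fun m x e w => ?_) (fun m x e N h h' i => ?_)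
  · funext i
    refine Fin.cases ?_ (fun i => ?_) i <;> simp [Lin.eval, Fin.tail]
  · refine Fin.cases ?_ (fun i => ?_) i
    · simpa using bound_add (h 0) (h 1)
    · simpa [Fin.tail] using bound_var (h i.succ.succ)

/-- forget the second general variable -/
theorem AD.geSkip {R : ∀ m : Mod, (Fin (n + 1) → m) → (Fin K → m) → Prop} (hR : AD R) :
    AD (fun m (x : Fin (n + 2) → m) e =>
      R m (Fin.cons (α := fun _ => m) (x 0) (Fin.tail (Fin.tail x))) e) := by
  refine hR.ge (Fin.cons (α := fun _ => Lin (n + 2) K) (.gen 0) (fun i => .gen i.succ.succ))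
    (fun m x e => Fin.cons (α := fun _ => m) (x 0) (Fin.tail (Fin.tail x)))
    (fun m x e w => ?_) (fun m x e N h h' i => ?_)
  · funext i
    refine Fin.cases ?_ (fun i => ?_) i <;> simp [Lin.eval, Fin.tail]
  · refine Fin.cases ?_ (fun i => ?_) i
    · simpa using bound_var (h 0)
    · simpa [Fin.tail] using bound_var (h i.succ.succ)

/-- forget the first general variable -/
theorem AD.geTail {R : ∀ m : Mod, (Fin n → m) → (Fin K → m) → Prop} (hR : AD R) :
    AD (fun m (x : Fin (n + 1) → m) e => R m (Fin.tail x) e) := by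
  refine hR.ge (fun i => .gen i.succ) (fun m x e => Fin.tail x)
    (fun m x e w => ?_) (fun m x e N h h' i => ?_)
  · funext i
    simp [Lin.eval, Fin.tail]
  · simpa [Fin.tail] using bound_var (h i.succ)

/-- the general variable becomes a product of opaque variables -/
theorem AD.geMul {R : ∀ m : Mod, (Fin (n + 1) → m) → (Fin K → m) → Prop} (hR : AD R) :
    AD (fun m x (e : Fin (K + 2) → m) =>
      R m (Fin.cons (α := fun _ => m) (e 0 * e 1) x) (Fin.tail (Fin.tail e))) := by
  refine hR.sub (Fin.cons (α := fun _ => Lin n (K + 2)) (.op (.mul (.var 0) (.var 1))) .gen)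
    (fun j => .var j.succ.succ) 2 (fun m x e w N h1 h2 => ?_)
  have e1 : (fun i => ((Fin.cons (α := fun _ => Lin n (K + 2)) (.op (.mul (.var 0) (.var 1)))
      .gen) i : Lin n (K + 2)).eval x e w) = Fin.cons (α := fun _ => m) (e 0 * e 1) x := by
    funext i
    refine Fin.cases ?_ (fun i => ?_) i <;> simp [Lin.eval, Op.eval]
  refine ⟨fun i => ?_, fun j => ?_, ?_⟩
  · rw [show ((Fin.cons (α := fun _ => Lin n (K + 2)) (.op (.mul (.var 0) (.var 1)))
      .gen) i : Lin n (K + 2)).eval x e w = (Fin.cons (α := fun _ => m) (e 0 * e 1) x :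
        Fin (n + 1) → m) i from congrFun e1 i]
    refine Fin.cases ?_ (fun i => ?_) i
    · simpa using bound_mul (h2 0) (h2 1)
    · simpa using bound_var (h1 i)
  · simp only [Op.eval]
    exact bound_var (h2 _)
  · rw [e1]
    rfl

theorem AD.geHalf {R : ∀ m : Mod, (Fin (n + 1) → m) → (Fin K → m) → Prop} (hR : AD R) :
    AD (fun m (x : Fin (n + 1) → m) e =>
      R m (Fin.cons (α := fun _ => m) (Mod.half (x 0)) (Fin.tail x)) e) := by
  have h1 : AD (n := n + 2) (K := K) (fun m x e => (2 * x 0 = x 1 ∨ 2 * x 0 + 1 = x 1)) := by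
    refine ⟨.or (.and (.le (.smul 2 (.gen 0)) (.gen 1)) (.le (.gen 1) (.smul 2 (.gen 0))))
      (.and (.le (.add (.smul 2 (.gen 0)) (.num 1)) (.gen 1))
        (.le (.gen 1) (.add (.smul 2 (.gen 0)) (.num 1)))), 0, fun m x e w N ha => ?_⟩
    simp only [EF.eval_or, EF.eval, Lin.eval, Lin.eval_num, Nat.cast_ofNat, Nat.cast_one]
    refine or_congr ?_ ?_
    · exact ⟨fun h => ⟨h.le, h.ge⟩, fun h => le_antisymm h.1 h.2⟩
    · exact ⟨fun h => ⟨h.le, h.ge⟩, fun h => le_antisymm h.1 h.2⟩
  refine ((h1.and hR.geSkip).gex 0).congr (fun m x e => ?_)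
  constructor
  · intro h
    refine ⟨Mod.half (x 0), half_le _, ?_, ?_⟩
    · exact (half_iff _ _).1 rfl
    · simpa [Fin.tail] using h
  · rintro ⟨z, -, hz, h⟩
    have hz' : z = Mod.half (x 0) := (half_iff _ _).2 (by simpa using hz)
    rw [hz'] at h
    simpa [Fin.tail] using h

end subs

/-- the values of the variables -/
def val {m : Mod} {N n K : ℕ} (κ : Fin N → Fin n ⊕ Fin K) (x : Fin n → m) (e : Fin K → m) :
    Fin N → m.str.carrier := fun i => Sum.elim x e (κ i)

theorem val_right {m : Mod} {N n K : ℕ} (κ : Fin N → Fin n ⊕ Fin K) (x : Fin n → m)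
    (e : Fin K → m) (y : m) :
    val (fun i => Sum.map id Fin.succ (κ i)) x (Fin.cons (α := fun _ => m) y e) = val κ x e := by
  funext i
  simp only [val]
  rcases κ i with j | j <;> simp

theorem val_left {m : Mod} {N n K : ℕ} (κ : Fin N → Fin n ⊕ Fin K) (x : Fin n → m)
    (e : Fin K → m) (y : m) :
    val (fun i => Sum.map Fin.succ id (κ i)) (Fin.cons (α := fun _ => m) y x) e = val κ x e := by
  funext i
  simp only [val]
  rcases κ i with j | j <;> simp

theorem Tm.claim {N : ℕ} (A : Fin N → Prop) (t : Tm N) :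
    (t.Mild A → ∀ {n K : ℕ} (κ : Fin N → Fin n ⊕ Fin K), (∀ i, ¬ A i → ∃ j, κ i = Sum.inr j) →
      ∀ {R : ∀ m : Mod, (Fin n → m) → (Fin (K + 1) → m) → Prop}, AD R →
        AD (fun m x e => R m x (Fin.cons (α := fun _ => m) (t.eval m.str (val κ x e)) e))) ∧
    (t.Fit A → ∀ {n K : ℕ} (κ : Fin N → Fin n ⊕ Fin K), (∀ i, ¬ A i → ∃ j, κ i = Sum.inr j) →
      ∀ {R : ∀ m : Mod, (Fin (n + 1) → m) → (Fin K → m) → Prop}, AD R →
        AD (fun m x e => R m (Fin.cons (α := fun _ => m) (t.eval m.str (val κ x e)) x) e)) := by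
  have hR' : ∀ {n K : ℕ} (κ : Fin N → Fin n ⊕ Fin K), (∀ i, ¬ A i → ∃ j, κ i = Sum.inr j) →
      ∀ i, ¬ A i → ∃ j, Sum.map id Fin.succ (κ i) = (Sum.inr j : Fin n ⊕ Fin (K + 1)) := by
    intro n K κ h i hi
    obtain ⟨j, hj⟩ := h i hi
    exact ⟨j.succ, by rw [hj]; rfl⟩
  have hL' : ∀ {n K : ℕ} (κ : Fin N → Fin n ⊕ Fin K), (∀ i, ¬ A i → ∃ j, κ i = Sum.inr j) →
      ∀ i, ¬ A i → ∃ j, Sum.map Fin.succ id (κ i) = (Sum.inr j : Fin (n + 1) ⊕ Fin K) := by
    intro n K κ h i hi
    obtain ⟨j, hj⟩ := h i hi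
    exact ⟨j, by rw [hj]; rfl⟩
  induction t with
  | var i =>
    constructor
    · intro ht n K κ hκ R hR
      obtain ⟨j, hj⟩ := hκ i (by simpa [Tm.Mild] using ht)
      refine (hR.opVar j).congr (fun m x e => ?_)
      simp only [Tm.eval, val, hj, Sum.elim_inr]
    · intro _ n K κ hκ R hR
      rcases hj : κ i with j | j
      · refine (hR.geVar j).congr (fun m x e => ?_)
        simp only [Tm.eval, val, hj, Sum.elim_inl]
      · refine (hR.geOp j).congr (fun m x e => ?_)
        simp only [Tm.eval, val, hj, Sum.elim_inr]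
  | zero =>
    constructor
    · intro _ n K κ hκ R hR
      exact hR.opZero
    · intro _ n K κ hκ R hR
      exact hR.geZero
  | succ t ih =>
    constructor
    · intro ht n K κ hκ R hR
      refine (ih.1 (by simpa [Tm.Mild] using ht) κ hκ hR.opSucc).congr (fun m x e => ?_)
      simp [Tm.eval]
    · intro ht n K κ hκ R hR
      refine (ih.2 (by simpa [Tm.Fit] using ht) κ hκ hR.geSucc).congr (fun m x e => ?_)
      simp [Tm.eval]
  | add s t ihs iht =>
    constructor
    · intro ht n K κ hκ R hR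
      simp only [Tm.Mild] at ht
      refine (iht.1 ht.2 κ hκ (ihs.1 ht.1 _ (hR' κ hκ) hR.opAdd)).congr (fun m x e => ?_)
      rw [val_right]
      rfl
    · intro ht n K κ hκ R hR
      simp only [Tm.Fit] at ht
      refine (iht.2 ht.2 κ hκ (ihs.2 ht.1 _ (hL' κ hκ) hR.geAdd)).congr (fun m x e => ?_)
      rw [val_left]
      rfl
  | mul s t ihs iht =>
    constructor
    · intro ht n K κ hκ R hR
      simp only [Tm.Mild] at ht
      refine (iht.1 ht.2 κ hκ (ihs.1 ht.1 _ (hR' κ hκ) hR.opMul)).congr (fun m x e => ?_)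
      rw [val_right]
      rfl
    · intro ht n K κ hκ R hR
      simp only [Tm.Fit] at ht
      refine (iht.1 ht.2 κ hκ (ihs.1 ht.1 _ (hR' κ hκ) hR.geMul)).congr (fun m x e => ?_)
      rw [val_right]
      rfl
  | half t ih =>
    constructor
    · intro ht n K κ hκ R hR
      refine (ih.1 (by simpa [Tm.Mild] using ht) κ hκ hR.opHalf).congr (fun m x e => ?_)
      simp [Tm.eval]
    · intro ht n K κ hκ R hR
      refine (ih.2 (by simpa [Tm.Fit] using ht) κ hκ hR.geHalf).congr (fun m x e => ?_)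
      simp [Tm.eval]
  | len t ih =>
    constructor
    · intro ht n K κ hκ R hR
      refine (ih.2 (by simpa [Tm.Mild] using ht) κ hκ hR.mildLen).congr (fun m x e => ?_)
      simp [Tm.eval]
    · intro ht n K κ hκ R hR
      refine (ih.2 (by simpa [Tm.Fit] using ht) κ hκ hR.len).congr (fun m x e => ?_)
      simp [Tm.eval]
  | smash s t ihs iht =>
    constructor
    · intro ht n K κ hκ R hR
      simp only [Tm.Mild] at ht
      refine (iht.2 ht.2 κ hκ (ihs.2 ht.1 _ (hL' κ hκ) hR.mildSmash)).congr (fun m x e => ?_)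
      rw [val_left]
      rfl
    · intro ht n K κ hκ R hR
      simp only [Tm.Fit] at ht
      refine (iht.2 ht.2 κ hκ (ihs.2 ht.1 _ (hL' κ hκ) hR.smash)).congr (fun m x e => ?_)
      rw [val_left]
      rfl

end Pool.Agent.TH686.BA
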