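import Pool.Agent.TH686.BA.EF

/-!
# The formulas `EF` define `Σᵇ₁ ∩ Πᵇ₁` relations
-/

set_option autoImplicit false

namespace Pool.Agent.TH686.BA

open Pool.Agent.TH686.BA.Mod

/-- A function which is bounded by a term and has a `Σᵇ₁` graph, uniformly in all models. -/
def Rep {N : ℕ} (F : ∀ m : Mod, (Fin N → m) → m) : Prop :=
  ∃ (γ : Fm (N + 1)) (bd : Tm N), Lvl true 1 γ ∧ ∀ (m : Mod) (v : Fin N → m),
    F m v ≤ bd.eval m.str v ∧
    ∀ z, (γ.eval m.str (Fin.cons (α := fun _ => m.str.carrier) z v) ↔ z = F m v)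

/-- A relation such that it and its complement have `Σᵇ₁` definitions, uniformly in all models. -/
def Del {N : ℕ} (R : ∀ m : Mod, (Fin N → m) → Prop) : Prop :=
  (∃ χ : Fm N, Lvl true 1 χ ∧ ∀ (m : Mod) (v : Fin N → m), χ.eval m.str v ↔ R m v) ∧
  (∃ χ : Fm N, Lvl true 1 χ ∧ ∀ (m : Mod) (v : Fin N → m), χ.eval m.str v ↔ ¬ R m v)

theorem Rep.term {N : ℕ} (t : Tm N) : Rep (fun m v => t.eval m.str v) := by
  refine ⟨Fm.eq (.var 0) t.lift, t, Lvl.eq _ _, fun m v => ⟨le_rfl, fun z => ?_⟩⟩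
  simp only [Fm.eval, Tm.eval, Tm.eval_lift, Fin.cons_zero]

theorem Del.congr {N : ℕ} {R S : ∀ m : Mod, (Fin N → m) → Prop} (hR : Del R)
    (h : ∀ m v, R m v ↔ S m v) : Del S := by
  obtain ⟨⟨χ, h1, h2⟩, χ', h3, h4⟩ := hR
  exact ⟨⟨χ, h1, fun m v => (h2 m v).trans (h m v)⟩,
    χ', h3, fun m v => (h4 m v).trans (not_congr (h m v))⟩

theorem half_le {m : Mod} (x : m) : Mod.half x ≤ x := by
  have h := (half_iff (Mod.half x) x).1 rfl
  rcases h with h | h
  · conv_rhs => rw [← h, two_mul]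
    exact le_self_add
  · conv_rhs => rw [← h, two_mul, add_assoc]
    exact le_self_add

theorem Rep.congr {N : ℕ} {F G : ∀ m : Mod, (Fin N → m) → m} (hF : Rep F)
    (h : ∀ m v, F m v = G m v) : Rep G := by
  obtain ⟨γ, bd, h1, h2⟩ := hF
  refine ⟨γ, bd, h1, fun m v => ?_⟩
  rw [← h m v]
  exact h2 m v

/-- the substitution that skips `j` variables after the first one -/
def skip1 {N : ℕ} (a : Fin (N + 2)) : Fin (N + 1) → Tm (N + 2) :=
  Fin.cons (α := fun _ => Tm (N + 2)) (.var a) (fun i => .var i.succ.succ)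

def skip2 {N : ℕ} (a : Fin (N + 3)) : Fin (N + 1) → Tm (N + 3) :=
  Fin.cons (α := fun _ => Tm (N + 3)) (.var a) (fun i => .var i.succ.succ.succ)

theorem eval_skip1 {m : Mod} {N : ℕ} (a : Fin (N + 2)) (v : Fin N → m) (x y : m) :
    (fun i => (skip1 a i).eval m.str (Fin.cons (α := fun _ => m.str.carrier) x
      (Fin.cons (α := fun _ => m.str.carrier) y v))) =
    Fin.cons (α := fun _ => m.str.carrier) (Fin.cons (α := fun _ => m.str.carrier) x
      (Fin.cons (α := fun _ => m.str.carrier) y v) a) v := by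
  funext i
  refine Fin.cases ?_ (fun i => ?_) i
  · simp only [skip1, Fin.cons_zero, Tm.eval]
  · simp only [skip1, Fin.cons_succ, Tm.eval]

theorem eval_skip2 {m : Mod} {N : ℕ} (a : Fin (N + 3)) (v : Fin N → m) (x y z : m) :
    (fun i => (skip2 a i).eval m.str (Fin.cons (α := fun _ => m.str.carrier) x
      (Fin.cons (α := fun _ => m.str.carrier) y (Fin.cons (α := fun _ => m.str.carrier) z v)))) =
    Fin.cons (α := fun _ => m.str.carrier) (Fin.cons (α := fun _ => m.str.carrier) x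
      (Fin.cons (α := fun _ => m.str.carrier) y (Fin.cons (α := fun _ => m.str.carrier) z v)) a) v := by
  funext i
  refine Fin.cases ?_ (fun i => ?_) i
  · simp only [skip2, Fin.cons_zero, Tm.eval]
  · simp only [skip2, Fin.cons_succ, Tm.eval]

/-- composition with a function of one argument given by a definable graph -/
theorem Rep.comp1 {N : ℕ} {F : ∀ m : Mod, (Fin N → m) → m} (hF : Rep F)
    (H : ∀ m : Mod, (Fin N → m) → m → m) (g : Fm (N + 2)) (bd' : Tm N) (hg : Lvl true 1 g)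
    (hg2 : ∀ (m : Mod) (v : Fin N → m) (y z : m),
      g.eval m.str (Fin.cons (α := fun _ => m.str.carrier) y
        (Fin.cons (α := fun _ => m.str.carrier) z v)) ↔ z = H m v y)
    (hb : ∀ (m : Mod) (v : Fin N → m), H m v (F m v) ≤ bd'.eval m.str v) :
    Rep (fun m v => H m v (F m v)) := by
  obtain ⟨γ, bd, h1, h2⟩ := hF
  refine ⟨Fm.ex bd.lift (Fm.and (γ.sub (skip1 0)) g), bd', Lvl.ex _ (Lvl.and (h1.sub _) hg),
    fun m v => ⟨hb m v, fun z => ?_⟩⟩
  simp only [Fm.eval, Fm.eval_sub, Tm.eval_lift, eval_skip1, hg2, Fin.cons_zero, str_le,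
    (h2 m v).2]
  constructor
  · rintro ⟨y, -, h3, h4⟩
    rw [h4, h3]
  · intro h
    exact ⟨F m v, (h2 m v).1, rfl, h⟩

/-- composition with a function of two arguments given by a term -/
theorem Rep.comp2 {N : ℕ} {F G : ∀ m : Mod, (Fin N → m) → m} (hF : Rep F) (hG : Rep G)
    (H : ∀ m : Mod, m → m → m) (T : Tm 2)
    (hT : ∀ (m : Mod) (x y : m), T.eval m.str ![x, y] = H m x y)
    (hb : ∀ (m : Mod) (x y x' y' : m), x ≤ x' → y ≤ y' → H m x y ≤ H m x' y') :
    Rep (fun m v => H m (F m v) (G m v)) := by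
  obtain ⟨γ, bd, h1, h2⟩ := hF
  obtain ⟨δ, be, h3, h4⟩ := hG
  refine ⟨Fm.ex bd.lift (Fm.ex be.lift.lift (Fm.and (γ.sub (skip2 1)) (Fm.and (δ.sub (skip2 0))
    (Fm.eq (.var 2) (T.sub ![.var 1, .var 0]))))), T.sub ![bd, be],
    Lvl.ex _ (Lvl.ex _ (Lvl.and (h1.sub _) (Lvl.and (h3.sub _) (Lvl.eq _ _)))),
    fun m v => ⟨?_, fun z => ?_⟩⟩
  · rw [Tm.eval_sub]
    have e : (fun i => (![bd, be] i).eval m.str v) = ![bd.eval m.str v, be.eval m.str v] := by
      funext i; fin_cases i <;> rfl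
    rw [e, hT]
    exact hb m _ _ _ _ (h2 m v).1 (h4 m v).1
  · simp only [Fm.eval, Fm.eval_sub, Tm.eval_lift, eval_skip2, Tm.eval, Tm.eval_sub, str_le]
    constructor
    · rintro ⟨x, -, y, -, hx, hy, hz⟩
      have hx' : x = F m v := ((h2 m v).2 x).1 hx
      have hy' : y = G m v := ((h4 m v).2 y).1 hy
      subst hx' hy'
      have e : (fun i => (![Tm.var 1, Tm.var 0] i : Tm (N + 3)).eval m.str
          (Fin.cons (α := fun _ => m.str.carrier) (G m v)
          (Fin.cons (α := fun _ => m.str.carrier) (F m v)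
            (Fin.cons (α := fun _ => m.str.carrier) z v)))) = ![F m v, G m v] := by
        funext i; fin_cases i <;> rfl
      rw [e, hT] at hz
      exact hz
    · intro h
      refine ⟨F m v, (h2 m v).1, G m v, (h4 m v).1, ((h2 m v).2 _).2 rfl,
        ((h4 m v).2 _).2 rfl, ?_⟩
      have e : (fun i => (![Tm.var 1, Tm.var 0] i : Tm (N + 3)).eval m.str
          (Fin.cons (α := fun _ => m.str.carrier) (G m v)
          (Fin.cons (α := fun _ => m.str.carrier) (F m v)
            (Fin.cons (α := fun _ => m.str.carrier) z v)))) = ![F m v, G m v] := by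
        funext i; fin_cases i <;> rfl
      rw [e, hT]
      exact h

/-- relations between two representable functions -/
theorem Del.comp2 {N : ℕ} {F G : ∀ m : Mod, (Fin N → m) → m} (hF : Rep F) (hG : Rep G)
    (R : ∀ m : Mod, m → m → Prop)
    (hR : Del (N := 2) (fun m v => R m (v 0) (v 1))) :
    Del (fun m v => R m (F m v) (G m v)) := by
  obtain ⟨γ, bd, h1, h2⟩ := hF
  obtain ⟨δ, be, h3, h4⟩ := hG
  have key : ∀ (χ : Fm 2) (S : ∀ m : Mod, m → m → Prop),
      (∀ (m : Mod) (v : Fin 2 → m), χ.eval m.str v ↔ S m (v 0) (v 1)) → Lvl true 1 χ →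
      ∃ χ' : Fm N, Lvl true 1 χ' ∧
        ∀ (m : Mod) (v : Fin N → m), χ'.eval m.str v ↔ S m (F m v) (G m v) := by
    intro χ S hS hχ
    refine ⟨Fm.ex bd (Fm.ex be.lift (Fm.and (γ.sub (skip1 1)) (Fm.and (δ.sub (skip1 0))
      (χ.sub ![.var 1, .var 0])))),
      Lvl.ex _ (Lvl.ex _ (Lvl.and (h1.sub _) (Lvl.and (h3.sub _) (hχ.sub _)))),
      fun m v => ?_⟩
    simp only [Fm.eval, Fm.eval_sub, Tm.eval_lift, eval_skip1, Tm.eval, hS, str_le]
    constructor
    · rintro ⟨x, -, y, -, hx, hy, hz⟩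
      have hx' : x = F m v := ((h2 m v).2 x).1 hx
      have hy' : y = G m v := ((h4 m v).2 y).1 hy
      subst hx' hy'
      exact hz
    · intro h
      exact ⟨F m v, (h2 m v).1, G m v, (h4 m v).1, ((h2 m v).2 _).2 rfl,
        ((h4 m v).2 _).2 rfl, h⟩
  obtain ⟨⟨χ, hχ, hχ2⟩, χ', hχ', hχ2'⟩ := hR
  exact ⟨key χ R hχ2 hχ, key χ' (fun m x y => ¬ R m x y) hχ2' hχ'⟩

theorem rep_pw {N : ℕ} {F : ∀ m : Mod, (Fin N → m) → m} (hF : Rep F) (ω : Tm N) :
    Rep (fun m v => Mod.pw (ω.eval m.str v) (F m v)) := by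
  refine Rep.comp1 hF (fun m v y => Mod.pw (ω.eval m.str v) y)
    (Fm.or (Fm.and (Fm.le (.var 0) (.len ω.lift.lift)) (Fm.and
      (Fm.eq (.len (.var 1)) (.succ (.var 0)))
      (Fm.ex (.var 1) (Fm.and (Fm.eq (.succ (.var 0)) (.var 2)) (Fm.eq (.len (.var 0)) (.var 1))))))
      (Fm.and (Fm.le (.len ω.lift.lift) (.var 0))
        (Fm.eq (.var 1) (.smash (.succ .zero) ω.lift.lift))))
    (.smash (.succ .zero) ω)
    (Lvl.or (Lvl.and (Lvl.le _ _) (Lvl.and (Lvl.eq _ _) (Lvl.ex _ (Lvl.and (Lvl.eq _ _)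
      (Lvl.eq _ _))))) (Lvl.and (Lvl.le _ _) (Lvl.eq _ _))) ?_ ?_
  · intro m v y z
    simp only [Fm.eval, Tm.eval, Tm.eval_lift, str_le, str_len, str_succ, str_smash, str_zero,
      Fin.cons_zero, zero_add]
    exact (graph_pw (ω.eval m.str v) y z).symm
  · intro m v
    simp only [Tm.eval, str_smash, str_succ, str_zero, zero_add]
    exact pw_le _ _

theorem Op.rep {K : ℕ} (t : Op K) {N : ℕ} (τ : Fin K → Tm N) (ω : Tm N) :
    Rep (fun m v => t.eval (fun i => (τ i).eval m.str v) (ω.eval m.str v)) := by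
  induction t with
  | var i => exact Rep.term (τ i)
  | zero => exact Rep.term .zero
  | succ t ih =>
    obtain ⟨γ, bd, h1, h2⟩ := ih
    refine Rep.comp1 (F := fun m v => t.eval (fun i => (τ i).eval m.str v) (ω.eval m.str v))
      ⟨γ, bd, h1, h2⟩ (fun m v y => y + 1) (Fm.eq (.var 1) (.succ (.var 0))) (.succ bd)
      (Lvl.eq _ _) ?_ ?_
    · intro m v y z
      simp only [Fm.eval, Tm.eval, str_succ, Fin.cons_zero]
      rfl
    · intro m v
      simp only [Tm.eval, str_succ]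
      exact add_le_add_left (h2 m v).1 1
  | add s t ih1 ih2 =>
    exact Rep.comp2 ih1 ih2 (fun m x y => x + y) (.add (.var 0) (.var 1))
      (fun m x y => rfl) (fun m x y x' y' h1 h2 => add_le_add h1 h2)
  | mul s t ih1 ih2 =>
    exact Rep.comp2 ih1 ih2 (fun m x y => x * y) (.mul (.var 0) (.var 1))
      (fun m x y => rfl)
      (fun m x y x' y' h1 h2 => mul_le_mul h1 h2 (Mod.zero_le' _) (Mod.zero_le' _))
  | half t ih =>
    obtain ⟨γ, bd, h1, h2⟩ := ih
    refine Rep.comp1 (F := fun m v => t.eval (fun i => (τ i).eval m.str v) (ω.eval m.str v))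
      ⟨γ, bd, h1, h2⟩ (fun m v y => Mod.half y) (Fm.eq (.var 1) (.half (.var 0))) bd
      (Lvl.eq _ _) ?_ ?_
    · intro m v y z
      simp only [Fm.eval, Tm.eval, str_half, Fin.cons_zero]
      rfl
    · intro m v
      exact (half_le _).trans (h2 m v).1
  | pw t ih => exact rep_pw ih ω

theorem Lin.rep {n K : ℕ} (t : Lin n K) {N : ℕ} (ξ : Fin n → Tm N) (τ : Fin K → Tm N)
    (ω : Tm N) :
    Rep (fun m v => t.eval (fun i => (ξ i).eval m.str v) (fun i => (τ i).eval m.str v)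
      (ω.eval m.str v)) := by
  induction t with
  | gen i => exact Rep.term (ξ i)
  | op t => exact t.rep τ ω
  | add s t ih1 ih2 =>
    exact Rep.comp2 ih1 ih2 (fun m x y => x + y) (.add (.var 0) (.var 1))
      (fun m x y => rfl) (fun m x y x' y' h1 h2 => add_le_add h1 h2)
  | smul c t ih =>
    refine Rep.comp2 (F := fun m v => (c : m)) ((Rep.term (.num c)).congr
      (fun m v => Tm.eval_num m v c)) ih (fun m x y => x * y) (.mul (.var 0) (.var 1))
      (fun m x y => rfl)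
      (fun m x y x' y' h1 h2 => mul_le_mul h1 h2 (Mod.zero_le' _) (Mod.zero_le' _))

theorem del_le : Del (N := 2) (fun m v => v 0 ≤ v 1) := by
  refine ⟨⟨Fm.le (.var 0) (.var 1), Lvl.le _ _, fun m v => Iff.rfl⟩,
    ⟨Fm.le (.succ (.var 1)) (.var 0), Lvl.le _ _, fun m v => ?_⟩⟩
  simp only [Fm.eval, Tm.eval, str_le, str_succ]
  rw [← lt_iff_add_one_le, not_le]

theorem del_cong (d : ℕ+) : Del (N := 2) (fun m v => Cong (m := m) d (v 0) (v 1)) := by
  have hd1 : ∀ m : Mod, (1 : m) ≤ ((d : ℕ) : m) := by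
    intro m; exact_mod_cast d.pos
  refine ⟨⟨Fm.ex (.add (.var 0) (.var 1)) (Fm.or
      (Fm.eq (.var 1) (.add (.var 2) (.mul (.num d) (.var 0))))
      (Fm.eq (.var 2) (.add (.var 1) (.mul (.num d) (.var 0))))),
      Lvl.ex _ (Lvl.or (Lvl.eq _ _) (Lvl.eq _ _)), fun m v => ?_⟩,
    ⟨Fm.ex (.add (.var 0) (.var 1)) (Fm.ex (.num d) (Fm.and
      (Fm.and (Fm.le (.succ .zero) (.var 0)) (Fm.le (.succ (.var 0)) (.num d)))
      (Fm.or (Fm.eq (.var 2) (.add (.add (.var 3) (.mul (.num d) (.var 1))) (.var 0)))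
        (Fm.eq (.var 3) (.add (.add (.var 2) (.mul (.num d) (.var 1))) (.var 0)))))),
      Lvl.ex _ (Lvl.ex _ (Lvl.and (Lvl.and (Lvl.le _ _) (Lvl.le _ _))
        (Lvl.or (Lvl.eq _ _) (Lvl.eq _ _)))), fun m v => ?_⟩⟩
  · simp only [Fm.eval, Tm.eval, Tm.eval_num, str_le, str_add, str_mul]
    constructor
    · rintro ⟨z, -, h⟩
      exact ⟨z, h⟩
    · rintro ⟨z, h⟩
      refine ⟨z, ?_, h⟩
      have hz : z ≤ (d : ℕ) * z := le_mul_of_one_le_left (Mod.zero_le' _) (hd1 m)
      rcases h with h | h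
      · rw [h]
        exact hz.trans (le_add_self.trans le_self_add)
      · rw [h]
        exact hz.trans (le_add_self.trans le_add_self)
  · simp only [Fm.eval, Tm.eval, Tm.eval_num, str_le, str_add, str_mul, str_succ, str_zero,
      zero_add]
    -- the unique remainder
    have huniq : ∀ (x y z z' r : m), 1 ≤ r → r + 1 ≤ ((d : ℕ) : m) → x = y + (d : ℕ) * z + r →
        ¬ (x = y + (d : ℕ) * z' ∨ y = x + (d : ℕ) * z') := by
      intro x y z z' r hr1 hr2 hx h
      rcases h with h | h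
      · have h1 : ((d : ℕ) : m) * z + r = (d : ℕ) * z' := by
          rw [h, add_assoc] at hx
          exact (add_left_cancel hx).symm
        have hdpos : (0 : m) < ((d : ℕ) : m) := lt_of_lt_of_le zero_lt_one (hd1 m)
        have h2 : z < z' := by
          by_contra hc
          push Not at hc
          have h3 := (mul_le_iff hdpos _ _).2 hc
          rw [← h1] at h3
          have h4 : (d : ℕ) * z + r ≤ (d : ℕ) * z + 0 := by rw [add_zero]; exact h3
          rw [add_le_iff] at h4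
          exact absurd (hr1.trans h4) (not_le.2 zero_lt_one)
        have h3 := (mul_le_iff hdpos _ _).2 ((lt_iff_add_one_le _ _).1 h2)
        rw [← h1, mul_add, mul_one, add_le_iff] at h3
        exact absurd (hr2.trans h3) (not_le.2 (lt_add_one' r))
      · rw [h] at hx
        have h1 : x + 0 = x + ((d : ℕ) * z' + (d : ℕ) * z + r) := by
          rw [add_zero]
          calc x = x + (d : ℕ) * z' + (d : ℕ) * z + r := hx
            _ = _ := by ring
        have h2 := add_left_cancel h1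
        have h3 : r ≤ 0 := by rw [h2]; exact le_add_self
        exact absurd (hr1.trans h3) (not_le.2 zero_lt_one)
    constructor
    · rintro ⟨z, -, r, -, ⟨hr1, hr2⟩, h | h⟩ ⟨z', hz'⟩
      · exact huniq _ _ z z' r hr1 hr2 h hz'
      · exact huniq _ _ z z' r hr1 hr2 h (Or.symm hz')
    · intro hcon
      have hmain : ∀ x y : m, x ≤ y → ¬ Cong (d : ℕ) x y →
          ∃ z, z ≤ y ∧ ∃ r, r ≤ ((d : ℕ) : m) ∧ (1 ≤ r ∧ r + 1 ≤ ((d : ℕ) : m)) ∧
            y = x + (d : ℕ) * z + r := by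
        intro x y hxy hn
        obtain ⟨D, hD⟩ := exists_add _ _ hxy
        obtain ⟨z, r, hr, hz⟩ := exists_div d d.pos D
        have hr0 : r ≠ 0 := by
          rintro rfl
          apply hn
          refine ⟨z, Or.inr ?_⟩
          rw [hD, hz, Nat.cast_zero, add_zero]
        have hzy : z ≤ y := by
          have h1 : z ≤ (d : ℕ) * z := le_mul_of_one_le_left (Mod.zero_le' _) (hd1 m)
          refine h1.trans ?_
          rw [hD, hz]
          exact le_self_add.trans le_add_self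
        refine ⟨z, hzy, (r : m), by exact_mod_cast hr.le, ⟨?_, ?_⟩, ?_⟩
        · exact_mod_cast Nat.pos_of_ne_zero hr0
        · exact_mod_cast hr
        · rw [hD, hz]; ring
      rcases le_total (v 0) (v 1) with h | h
      · obtain ⟨z, hz, r, hr, hr2, he⟩ := hmain _ _ h hcon
        exact ⟨z, hz.trans le_add_self, r, hr, hr2, Or.inr he⟩
      · have hcon' : ¬ Cong (d : ℕ) (v 1) (v 0) := by
          rintro ⟨z, hz⟩
          exact hcon ⟨z, Or.symm hz⟩
        obtain ⟨z, hz, r, hr, hr2, he⟩ := hmain _ _ h hcon'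
        exact ⟨z, hz.trans le_self_add, r, hr, hr2, Or.inl he⟩

theorem EF.del {n K : ℕ} (φ : EF n K) : ∀ {N : ℕ} (ξ : Fin n → Tm N) (τ : Fin K → Tm N)
    (ω : Tm N),
    Del (fun m v => φ.eval (ω.eval m.str v) (fun i => (ξ i).eval m.str v)
      (fun i => (τ i).eval m.str v)) := by
  induction φ with
  | le s t =>
    intro N ξ τ ω
    exact (Del.comp2 (s.rep ξ τ ω) (t.rep ξ τ ω) (fun m x y => x ≤ y) del_le).congr
      (fun m v => by simp only [EF.eval])
  | cong d s t =>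
    intro N ξ τ ω
    exact (Del.comp2 (s.rep ξ τ ω) (t.rep ξ τ ω) (fun m x y => Cong d x y) (del_cong d)).congr
      (fun m v => by simp only [EF.eval])
  | not φ ih =>
    intro N ξ τ ω
    obtain ⟨⟨χ, h1, h2⟩, χ', h3, h4⟩ := ih ξ τ ω
    refine ⟨⟨χ', h3, fun m v => ?_⟩, χ, h1, fun m v => ?_⟩
    · simp only [EF.eval]
      exact h4 m v
    · simp only [EF.eval, not_not]
      exact h2 m v
  | and φ ψ ih1 ih2 =>
    intro N ξ τ ω
    obtain ⟨⟨χ, h1, h2⟩, χ', h3, h4⟩ := ih1 ξ τ ω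
    obtain ⟨⟨κ, g1, g2⟩, κ', g3, g4⟩ := ih2 ξ τ ω
    refine ⟨⟨Fm.and χ κ, Lvl.and h1 g1, fun m v => ?_⟩, Fm.or χ' κ', Lvl.or h3 g3,
      fun m v => ?_⟩
    · simp only [EF.eval, Fm.eval]
      exact and_congr (h2 m v) (g2 m v)
    · simp only [EF.eval, Fm.eval, not_and_or]
      exact or_congr (h4 m v) (g4 m v)
  | ex φ ih =>
    intro N ξ τ ω
    obtain ⟨⟨χ, h1, h2⟩, χ', h3, h4⟩ := ih (fun i => (ξ i).lift)
      (Fin.cons (α := fun _ => Tm (N + 1)) (.var 0) (fun i => (τ i).lift)) ω.lift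
    have e : ∀ (m : Mod) (v : Fin N → m) (f : m),
        (fun i => ((Fin.cons (α := fun _ => Tm (N + 1)) (.var 0) (fun i => (τ i).lift)) i).eval
          m.str (Fin.cons (α := fun _ => m.str.carrier) f v)) =
        Fin.cons (α := fun _ => m.str.carrier) f (fun i => (τ i).eval m.str v) := by
      intro m v f
      funext i
      refine Fin.cases ?_ (fun i => ?_) i
      · simp only [Fin.cons_zero, Tm.eval]
      · simp only [Fin.cons_succ, Tm.eval_lift]
    refine ⟨⟨Fm.ex (.len ω) χ, Lvl.sex _ h1, fun m v => ?_⟩,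
      Fm.all (.len ω) χ', Lvl.sall _ h3, fun m v => ?_⟩
    · simp only [Fm.eval, EF.eval, Tm.eval, str_le, str_len]
      refine exists_congr fun f => and_congr Iff.rfl ?_
      refine (h2 m (Fin.cons (α := fun _ => m.str.carrier) f v)).trans ?_
      simp only [Tm.eval_lift, e]
    · simp only [Fm.eval, EF.eval, Tm.eval, str_le, str_len]
      push Not
      refine forall_congr' fun f => imp_congr Iff.rfl ?_
      refine (h4 m (Fin.cons (α := fun _ => m.str.carrier) f v)).trans ?_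
      simp only [Tm.eval_lift, e]

end Pool.Agent.TH686.BA
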